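import Pool.Agent.H96.CP.Stm7

/-!
# Project CP3: the area available for a further disk is self-averaging
-/

set_option autoImplicit false

open Real Set MeasureTheory Metric Filter Topology
open scoped ENNReal Nat ComplexConjugate

namespace Pool.Agent.H96.CP

open Pool.Agent.H96.HD

/-- the area available for the centre of a further disk -/
noncomputable def FA (a L : ℝ) {N : ℕ} (x : Fin N → ℂ) : ℝ :=
  (volume {y : ℂ | (y.re ∈ Icc 0 L ∧ y.im ∈ Icc 0 L) ∧ ∀ i, 2 * a ≤ ‖y - x i‖}).toReal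

/-- Chebyshev's inequality for the available area `FA`, `m = CV (N+1) / CV N` is its mean. Proof: as in
`Pool.Agent.H96.CP.ratio` (`H61/CP/Ratio.lean`): `∫ FA = CV (N+1)`, `∫ FA² ≤ CV (N+2) + 4πa² CV (N+1)` (integrals
over `CC (Fin N)`), so `∫ (FA - m)² ≤ CV (N+2) + 4πa² CV (N+1) - CV (N+1)² / CV N`. -/
def S_cheb : Prop := ∀ (a L ε : ℝ) (N : ℕ), 0 < a → 0 ≤ L → 0 < ε → 0 < CV a L N →
  (volume {x : Fin N → ℂ | x ∈ CC a L (Fin N) ∧
    ε * (CV a L (N + 1) / CV a L N) ≤ |FA a L x - CV a L (N + 1) / CV a L N|}).toReal *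
      (ε * (CV a L (N + 1) / CV a L N)) ^ 2 ≤
    CV a L (N + 2) + 4 * π * a ^ 2 * CV a L (N + 1) - CV a L (N + 1) ^ 2 / CV a L N

/-- Self-averaging (helper96): `r j = CV (j+1) / CV j`: `r (N+1) / r N → 1` at all densities. -/
def S_self : Prop := ∀ (f : ℝ → ℝ) (a v δ : ℝ), 0 < a → 2 * √3 * a ^ 2 < v → 0 < δ →
  (∀ v : ℝ, 2 * √3 * a ^ 2 < v → IsFreeEnergy a v (f v)) →
  ConvexOn ℝ (Ioi (2 * √3 * a ^ 2)) f →
  ∀ (N : ℕ → ℕ) (L : ℕ → ℝ), Tendsto N atTop atTop → Tendsto L atTop atTop →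
    Tendsto (fun k => L k ^ 2 / N k) atTop (𝓝 v) → ∀ᶠ k in atTop,
      0 < CV a (L k) (N k) ∧ 0 < CV a (L k) (N k + 1) ∧
      CV a (L k) (N k + 2) * CV a (L k) (N k) ≤ (1 + δ) * CV a (L k) (N k + 1) ^ 2

end Pool.Agent.H96.CP
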