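import Pool.Agent.H96.CP.Sq1

/-!
# Project CP: `S_sq` from `S_crys` and `S_fix`, the integral
-/

set_option autoImplicit false

open Real Set MeasureTheory Metric Filter Topology
open scoped ENNReal Nat ComplexConjugate

namespace Pool.Agent.H96.CP

open Pool.Agent.H96.HD

theorem measurableSet_Qd (M : ℝ) (z : ℂ) : MeasurableSet (Qd M z) :=
  (Complex.measurable_re measurableSet_Ico).inter (Complex.measurable_im measurableSet_Ico)

theorem volume_Qd_le {M : ℝ} (hM : 0 ≤ M) : volume (Qd M 0) ≤ ENNReal.ofReal (M ^ 2) := by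
  rw [← volume_Sq hM]
  refine measure_mono fun w hw => ?_
  obtain ⟨⟨a, b⟩, c, d⟩ := hw
  simp only [Complex.zero_re, Complex.zero_im, zero_add] at a b c d
  exact ⟨⟨a, b.le⟩, c, d.le⟩

/-- the configurations of the square -/
def Ek (M : ℝ) (k : ℕ) : Set (Fin k → ℂ) := {x | (∀ i, x i ∈ Qd M 0) ∧ Sep x}

theorem measurableSet_Ek (M : ℝ) (k : ℕ) : MeasurableSet (Ek M k) := by
  have h1 : Ek M k = (⋂ i, (fun x : Fin k → ℂ => x i) ⁻¹' Qd M 0) ∩
      ⋂ i, ⋂ j, {x : Fin k → ℂ | i ≠ j → √3 ≤ ‖x i - x j‖} := by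
    ext x
    simp only [Ek, Sep, mem_ofPred_eq, mem_inter_iff, mem_iInter, mem_preimage]
  rw [h1]
  refine (MeasurableSet.iInter fun i => measurable_pi_apply i (measurableSet_Qd M 0)).inter
    (MeasurableSet.iInter fun i => MeasurableSet.iInter fun j => ?_)
  by_cases hij : i = j
  · simp [hij]
  · simp only [ne_eq, hij, not_false_eq_true, forall_const]
    exact measurableSet_le measurable_const ((measurable_pi_apply i).sub (measurable_pi_apply j)).norm

theorem measurableSet_Gd (z₀ : ℂ) (θ δ M : ℝ) (k : ℕ) : MeasurableSet (Gd z₀ θ δ M k) := by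
  have h1 : Gd z₀ θ δ M k = Ek M k ∩ ⋂ a : ℤ, ⋂ b : ℤ, {x : Fin k → ℂ |
      lat z₀ θ a b ∈ inner 9 M → ∃ i, ‖x i - lat z₀ θ a b‖ ≤ δ} := by
    ext x
    simp only [Gd, Ek, mem_ofPred_eq, mem_inter_iff, mem_iInter]
    tauto
  rw [h1]
  refine (measurableSet_Ek M k).inter (MeasurableSet.iInter fun a => MeasurableSet.iInter fun b => ?_)
  by_cases h : lat z₀ θ a b ∈ inner 9 M
  · simp only [h, forall_const]
    have : {x : Fin k → ℂ | ∃ i, ‖x i - lat z₀ θ a b‖ ≤ δ} =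
        ⋃ i, {x : Fin k → ℂ | ‖x i - lat z₀ θ a b‖ ≤ δ} := by
      ext x
      simp
    rw [this]
    exact MeasurableSet.iUnion fun i =>
      measurableSet_le ((measurable_pi_apply i).sub measurable_const).norm measurable_const
  · simp [h]

theorem volume_Ek_le {M : ℝ} (hM : 0 ≤ M) (k : ℕ) :
    volume (Ek M k) ≤ ENNReal.ofReal (M ^ (2 * k)) := by
  have h1 : Ek M k ⊆ Set.pi univ fun _ => Qd M 0 := fun x hx i _ => hx.1 i
  refine (measure_mono h1).trans ?_
  rw [volume_pi_pi]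
  simp only [Finset.prod_const, Finset.card_univ, Fintype.card_fin]
  rw [pow_mul, ENNReal.ofReal_pow (by positivity)]
  exact pow_le_pow_left' (volume_Qd_le hM) k

theorem inv_fac_le_one (k : ℕ) : (((k ! : ℕ) : ℝ≥0∞))⁻¹ ≤ 1 := by
  rw [ENNReal.inv_le_one]
  exact_mod_cast Nat.succ_le_of_lt (Nat.factorial_pos k)

theorem ZR_eq (s M : ℝ) (k : ℕ) : ZR s (Qd M 0) k = (((k ! : ℕ) : ℝ≥0∞))⁻¹ *
    ∫⁻ x in Ek M k, ENNReal.ofReal (Real.exp (-(s * W (Qd M 0) x))) := rfl

theorem ZR_triv {s M : ℝ} (hs : 0 ≤ s) (hM : 0 ≤ M) (k : ℕ) :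
    ZR s (Qd M 0) k ≤ ENNReal.ofReal (M ^ (2 * k)) := by
  rw [ZR_eq]
  calc _ ≤ 1 * volume (Ek M k) := by
        refine mul_le_mul' (inv_fac_le_one k) ?_
        rw [← setLIntegral_one]
        refine setLIntegral_mono' (measurableSet_Ek M k) fun x hx => ?_
        rw [← ENNReal.ofReal_one]
        refine ENNReal.ofReal_le_ofReal ?_
        rw [Real.exp_le_one_iff]
        have := mul_nonneg hs (W_nonneg hx.1 hx.2)
        linarith
    _ ≤ _ := by
        rw [one_mul]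
        exact volume_Ek_le hM k

/-- The integral: bad configurations and the lattices of the grid. -/
theorem ZR_split (hcr : S_crys) : ∃ C : ℝ, 1 ≤ C ∧ ∀ (k : ℕ) (s M τ δ : ℝ) (A : ℝ≥0∞),
    1 ≤ s → 20 ≤ M → 0 ≤ τ → C * M ^ 2 * τ ≤ 1 → 4 * M / s ≤ 1 → C * M ^ 2 * τ + 4 * M / s ≤ δ →
    80 * M < k → (∀ z₀ θ, (((k ! : ℕ) : ℝ≥0∞))⁻¹ * ∫⁻ x in Gd z₀ θ δ M k,
      ENNReal.ofReal (Real.exp (-(s * W (Qd M 0) x))) ≤ A) →
    ZR s (Qd M 0) k ≤ ENNReal.ofReal (M ^ (2 * k) * Real.exp (-(s * τ))) +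
      ENNReal.ofReal ((7 * M * s) ^ 3) * A := by
  obtain ⟨C, hC, H⟩ := mem_grid hcr
  refine ⟨C, hC, fun k s M τ δ A hs hM hτ h1 h2 h3 hk hA => ?_⟩
  have hs0 : 0 < s := by linarith
  have hM0 : 0 < M := by linarith
  set F : (Fin k → ℂ) → ℝ≥0∞ := fun x => ENNReal.ofReal (Real.exp (-(s * W (Qd M 0) x))) with hF
  set T : ℤ := ⌊3 * M * s⌋ with hT
  set I : Finset ℤ := Finset.Icc (-T) T with hI
  set S : (ℤ × ℤ × ℤ) → Set (Fin k → ℂ) := fun p =>
    Gd ((p.1 / s : ℝ) + (p.2.1 / s : ℝ) * Complex.I) (p.2.2 / s) δ M k with hS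
  set J : Finset (ℤ × ℤ × ℤ) := I ×ˢ I ×ˢ I with hJ
  set G : Set (Fin k → ℂ) := ⋃ p : J, S p with hG
  have hGm : MeasurableSet G := MeasurableSet.iUnion fun p => measurableSet_Gd _ _ _ _ _
  have hmemI : ∀ p : ℤ, |(p : ℝ)| ≤ 3 * M * s → p ∈ I := by
    intro p hp
    rw [abs_le] at hp
    rw [hI, Finset.mem_Icc]
    have a1 : p ≤ T := by
      rw [hT, Int.le_floor]
      exact hp.2
    have a2 : -p ≤ T := by
      rw [hT, Int.le_floor]
      push_cast
      linarith [hp.1]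
    exact ⟨by omega, a1⟩
  have hcover : Ek M k ⊆ G ∪ (Ek M k \ G) := by
    rw [union_sdiff_self]
    exact subset_union_right
  have hbad : ∀ x ∈ Ek M k \ G, F x ≤ ENNReal.ofReal (Real.exp (-(s * τ))) := by
    rintro x ⟨hx, hxG⟩
    refine ENNReal.ofReal_le_ofReal (Real.exp_le_exp.mpr ?_)
    have hW : τ ≤ W (Qd M 0) x := by
      by_contra hcon
      push Not at hcon
      refine hxG ?_
      have hi : ∃ i, x i ∈ inner 8 M := by
        by_contra hno
        have := card_few (by linarith) hx.1 hx.2 hno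
        linarith
      obtain ⟨p, q, r, hp, hq, hr, hxx⟩ := H k s M τ δ x hs hM hτ h1 h2 h3 hx.1 hx.2
        (fun i hi => by
          by_contra hcon'
          push Not at hcon'
          exact absurd (le_W hx.1 hx.2 i hi hcon'.le) (not_le.mpr hcon)) hi
      rw [hG, mem_iUnion]
      exact ⟨⟨(p, q, r), by
        rw [hJ, Finset.mem_product, Finset.mem_product]
        exact ⟨hmemI p hp, hmemI q hq, hmemI r hr⟩⟩, hxx⟩
    have := mul_le_mul_of_nonneg_left hW hs0.le
    linarith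
  have hcard : (J.card : ℝ) ≤ (7 * M * s) ^ 3 := by
    rw [hJ, Finset.card_product, Finset.card_product]
    have hT0 : 0 ≤ T := Int.floor_nonneg.mpr (by positivity)
    have e : (I.card : ℝ) ≤ 7 * M * s := by
      rw [hI, Int.card_Icc]
      have e1 : (0:ℤ) ≤ T + 1 - -T := by omega
      have e2 : (((T + 1 - -T).toNat : ℤ) : ℝ) = ((T + 1 - -T : ℤ) : ℝ) := by
        rw [Int.toNat_of_nonneg e1]
      rw [Int.cast_natCast] at e2
      rw [e2]
      push_cast
      have := Int.floor_le (3 * M * s)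
      have h5 : 1 ≤ M * s := by nlinarith
      rw [← hT] at this
      nlinarith
    push_cast
    calc (I.card : ℝ) * (I.card * I.card) = (I.card : ℝ) ^ 3 := by ring
      _ ≤ _ := by gcongr
  calc ZR s (Qd M 0) k ≤ (((k ! : ℕ) : ℝ≥0∞))⁻¹ * (∫⁻ x in Ek M k \ G, F x) +
        (((k ! : ℕ) : ℝ≥0∞))⁻¹ * ∫⁻ x in G, F x := by
        rw [ZR_eq, ← mul_add]
        refine mul_le_mul_right ?_ _
        refine (lintegral_mono_set hcover).trans ((lintegral_union_le _ _ _).trans ?_)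
        rw [add_comm]
    _ ≤ ENNReal.ofReal (M ^ (2 * k) * Real.exp (-(s * τ))) + ENNReal.ofReal ((7 * M * s) ^ 3) * A := by
        refine add_le_add ?_ ?_
        · calc (((k ! : ℕ) : ℝ≥0∞))⁻¹ * (∫⁻ x in Ek M k \ G, F x) ≤
              1 * (ENNReal.ofReal (Real.exp (-(s * τ))) * volume (Ek M k)) := by
                refine mul_le_mul' (inv_fac_le_one k) ?_
                refine (setLIntegral_mono' ((measurableSet_Ek M k).diff hGm) hbad).trans ?_
                rw [setLIntegral_const]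
                exact mul_le_mul_right (measure_mono sdiff_subset) _
            _ ≤ _ := by
                rw [one_mul, mul_comm (M ^ (2 * k)), ENNReal.ofReal_mul (by positivity)]
                exact mul_le_mul_right (volume_Ek_le hM0.le k) _
        · calc (((k ! : ℕ) : ℝ≥0∞))⁻¹ * ∫⁻ x in G, F x ≤
              (((k ! : ℕ) : ℝ≥0∞))⁻¹ * ∑ p : J, ∫⁻ x in S p, F x := by
                refine mul_le_mul_right ?_ _
                refine (lintegral_iUnion_le _ _).trans ?_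
                rw [tsum_fintype]
            _ = ∑ p : J, (((k ! : ℕ) : ℝ≥0∞))⁻¹ * ∫⁻ x in S p, F x := Finset.mul_sum _ _ _
            _ ≤ ∑ p : J, A := Finset.sum_le_sum fun p _ => hA _ _
            _ = (J.card : ℝ≥0∞) * A := by
                rw [Finset.sum_const, Finset.card_univ, Fintype.card_coe, nsmul_eq_mul]
            _ ≤ _ := by
                refine mul_le_mul_left ?_ _
                rw [← ENNReal.ofReal_natCast]
                exact ENNReal.ofReal_le_ofReal hcard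

/-- the exponents -/
theorem expo {K m p' n B C M ℓ lM ε β : ℝ} (hKm : m ≤ K) (hK2 : K ≤ m + C * M * (n + 1))
    (hm : m = p' * (n + 1) ^ 2) (hp : 0 ≤ p') (hn : 0 ≤ n) (hB : |β| ≤ B) (hlM : 0 ≤ lM)
    (hℓ : 0 ≤ ℓ) :
    2 * (K - m) * lM + p' * (ε * (n + 1) ^ 2 - 2 * (n + 1) ^ 2 * ℓ + n ^ 2 * β) ≤
      K * (β - 2 * ℓ) + (C * M * (n + 1) * (2 * lM + 2 * ℓ + B) + ε * m + 2 * B * m / (n + 1)) := by
  have hB0 : 0 ≤ B := (abs_nonneg β).trans hB
  have e1 : 2 * (K - m) * lM + p' * (ε * (n + 1) ^ 2 - 2 * (n + 1) ^ 2 * ℓ + n ^ 2 * β) =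
      K * (β - 2 * ℓ) + ((K - m) * (2 * lM + 2 * ℓ) + ε * m + (p' * n ^ 2 - K) * β) := by
    rw [hm]
    ring
  rw [e1]
  have e2 : (p' * n ^ 2 - K) * β ≤ ((K - m) + 2 * m / (n + 1)) * B := by
    have h1 : |p' * n ^ 2 - K| ≤ (K - m) + 2 * m / (n + 1) := by
      have h2 : p' * n ^ 2 - K = -((K - m) + p' * (2 * n + 1)) := by rw [hm]; ring
      have h3 : 2 * m / (n + 1) = p' * (2 * (n + 1)) := by
        rw [hm]
        field_simp
      rw [h2, abs_neg, abs_of_nonneg (by nlinarith), h3]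
      nlinarith
    calc (p' * n ^ 2 - K) * β ≤ |(p' * n ^ 2 - K) * β| := le_abs_self _
      _ = |p' * n ^ 2 - K| * |β| := abs_mul _ _
      _ ≤ _ := by gcongr; exact (abs_nonneg _).trans h1
  have e3 : (K - m) * (2 * lM + 2 * ℓ + B) ≤ C * M * (n + 1) * (2 * lM + 2 * ℓ + B) := by
    refine mul_le_mul_of_nonneg_right (by linarith) (by positivity)
  have e4 : ((K - m) + 2 * m / (n + 1)) * B = (K - m) * B + 2 * B * m / (n + 1) := by ring
  linarith

end Pool.Agent.H96.CP
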