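import Pool.Agent.H96.CP.Stm2

/-!
# Project CP: the constant is the limit of the polytope constants (torus, fixed number of disks)

`Π_M ⊆ ℂ^(M²-1)`: the displacements `u` (`u 0 = 0`) of `M²` disks on the torus `(ℤ/M)²` for which no edge
of the triangular lattice is shortened by more than `1` (to first order). Goal:
`f(v) + 2 log ((v - v₀)/a) → log 12 - κ`, `κ = lim M⁻² log vol Π_M`: the limits `v → v₀` and `N → ∞`
commute.
-/

set_option autoImplicit false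

open Real Set MeasureTheory Metric Filter Topology
open scoped ENNReal Nat ComplexConjugate

namespace Pool.Agent.H96.CP

open Pool.Agent.H96.HD

/-- elongations of the edges `q - q+(1,0)`, `q - q+(0,1)`, `q+(1,0) - q+(0,1)` of the torus -/
noncomputable def E0 {M : ℕ} (u : ZMod M × ZMod M → ℂ) (q : ZMod M × ZMod M) : ℝ :=
  (u (q + (1, 0)) - u q).re
noncomputable def E1 {M : ℕ} (u : ZMod M × ZMod M → ℂ) (q : ZMod M × ZMod M) : ℝ :=
  (conj om * (u (q + (0, 1)) - u q)).re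
noncomputable def E2 {M : ℕ} (u : ZMod M × ZMod M → ℂ) (q : ZMod M × ZMod M) : ℝ :=
  (conj (om - 1) * (u (q + (0, 1)) - u (q + (1, 0)))).re

/-- extension by `0` at the site `0` -/
noncomputable def pin {M : ℕ} (w : {q : ZMod M × ZMod M // q ≠ 0} → ℂ) : ZMod M × ZMod M → ℂ :=
  fun q => if h : q = 0 then 0 else w ⟨q, h⟩

/-- displacements (with `u 0 = 0`) which shorten no edge of direction `k` by more than `dₖ` -/
def PT (M : ℕ) (d₀ d₁ d₂ : ℝ) : Set ({q : ZMod M × ZMod M // q ≠ 0} → ℂ) :=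
  {w | ∀ q, -d₀ ≤ E0 (pin w) q ∧ -d₁ ≤ E1 (pin w) q ∧ -d₂ ≤ E2 (pin w) q}

/-- the volume of the polytope -/
noncomputable def vt (M : ℕ) [NeZero M] (d₀ d₁ d₂ : ℝ) : ℝ≥0∞ := volume (PT M d₀ d₁ d₂)

/-- Isotropic strain is best. Proof: the rotation `q ↦ g q`, `g (1,0) = (0,1)`, `g (0,1) = (-1,1)` of the
torus and `u ↦ om * u (g⁻¹ ·)` maps `PT M d₀ d₁ d₂` onto `PT M d₂ d₀ d₁` (the edges of direction
`1, om, om²` go to those of direction `om, om², -1`) and preserves the volume; Prékopa-Leindler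
(`Pool.Agent.H212R2.KLS.PL`, or as in `H61/CP/Mean.lean`) for the three rotated polytopes: the mean
of elements of `PT M d₀ d₁ d₂`, `PT M d₂ d₀ d₁`, `PT M d₁ d₂ d₀` is in `PT M d d d`. Second part: scaling. -/
def S_iso : Prop := ∀ (M : ℕ) [NeZero M], (∀ d₀ d₁ d₂ : ℝ,
  vt M d₀ d₁ d₂ ≤ vt M ((d₀ + d₁ + d₂) / 3) ((d₀ + d₁ + d₂) / 3) ((d₀ + d₁ + d₂) / 3)) ∧
  ∀ t : ℝ, 0 < t → vt M t t t = ENNReal.ofReal (t ^ (2 * (M ^ 2 - 1))) * vt M 1 1 1

/-- Tiling of the torus by blocks. Write `M = q R + r`, `R = m + 1`, `r < R`; blocks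
`[aR,(a+1)R] × [bR,(b+1)R]`, `a, b < q` (coordinates mod `M`). Sites outside of the interiors of the
blocks: `‖u‖ ≤ η/4`; interior of the block: `u = w - aff c₁ c₂` (local coordinates) with
`w ∈ Kb m (aff c₁ c₂)`. Use `S_comb`, `S_prod`. Number of the sites outside:
`≤ q² (2m+1) + 2 M R`, each contributes `π (η/4)² ≥ η²/16`. -/
def S_tile : Prop := ∀ (m : ℕ) (c₁ c₂ : ℂ) (κ η ε : ℝ), 1 ≤ m → PosA c₁ c₂ → 0 < η → η ≤ 1 → 0 < ε →
  ENNReal.ofReal (Real.exp (κ * ((m : ℝ) + 1) ^ 2)) ≤ vb m (aff c₁ c₂) →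
  ∀ᶠ M : ℕ in atTop, ∀ [NeZero M],
    ENNReal.ofReal (Real.exp ((M : ℝ) ^ 2 * (κ - 2 / ((m : ℝ) + 1) * Real.log (16 / η ^ 2) - ε))) ≤
      vt M (c₁.re + η) ((conj om * c₂).re + η) ((conj (om - 1) * (c₂ - c₁)).re + η)

/-- The torus is not better than free boundary values. For `w ∈ PT M 1 1 1`, `‖z‖ ≤ 1` put
`u(i,j) = z + t (pin w (i,j) + i + j om)`, `i,j < M`: `Pos (M-1) u`, `A (M-1) u ≤ 3 t M²` (all elongations
are nonnegative and the sum over all edges of the torus is `3 t M²`), and `‖u‖ ≤ C M⁴`: every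
elongation of `pin w` is at most `3 M²`; with `rₖ = Im (conj wₖ (difference))` two edges of a triangle
satisfy `r₁ - r₀ = (2/√3) (D2 - (D0 + D1)/2)` etc., so neighbouring horizontal edges have
`|r - r'| ≤ C M²`, and the sum of the `r` over a closed row is `0`. The map `(z,w) ↦ u` has determinant
`t^(2(M²-1))`. -/
def S_tor : Prop := ∃ C : ℝ, 1 ≤ C ∧ ∀ (M : ℕ) [NeZero M] (t : ℝ), 2 ≤ M → 0 < t → t ≤ 1 →
  ENNReal.ofReal (t ^ (2 * (M ^ 2 - 1)) * Real.exp (-(3 * t * (M : ℝ) ^ 2))) * vt M 1 1 1 ≤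
    Zf (M - 1) (C * (M : ℝ) ^ 4)

end Pool.Agent.H96.CP
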