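import Pool.Agent.H96.CP.Fin
import Pool.Agent.H96.CP.Stm3

/-!
# Project CP: assembly, the constant
-/

set_option autoImplicit false

open Real Set MeasureTheory Metric Filter Topology
open scoped ENNReal Nat ComplexConjugate

namespace Pool.Agent.H96.CP

open Pool.Agent.H96.HD Pool.Agent.K4H96.HS

/-- `M⁻² log vol Π_M` -/
noncomputable def kp (M : ℕ) : ℝ := Real.log (vt (M + 1) 1 1 1).toReal / ((M : ℝ) + 1) ^ 2

theorem torus_upper (hlin : S_lin) (htor : S_tor) : ∃ C : ℝ, 1 ≤ C ∧ ∀ ε : ℝ, 0 < ε → ε ≤ 1 →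
    ∀ᶠ M : ℕ in atTop, ∃ (m : ℕ) (c₁ c₂ : ℂ) (κ : ℝ), 1 ≤ m ∧
      PosA c₁ c₂ ∧ 2 / ((m : ℝ) + 1) * Real.log (16 / ε ^ 2) ≤ ε ∧
      ENNReal.ofReal (Real.exp (κ * ((m : ℝ) + 1) ^ 2)) ≤ vb m (aff c₁ c₂) ∧
      |κ - ar c₁ c₂| ≤ C ∧ vt (M + 1) 1 1 1 ≠ ⊤ ∧
      (0 < vt (M + 1) 1 1 1 → kp M ≤ κ - ar c₁ c₂ + 2 + 2 * Real.log (3 / 2) + 2 * ε) := by
  obtain ⟨C, hC, hlin⟩ := hlin
  obtain ⟨C₂, hC₂, htor⟩ := htor
  refine ⟨C, hC, fun ε hε hε1 => ?_⟩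
  obtain ⟨m, n₀, hm, hmε, hlin⟩ := hlin ε hε hε1
  have hL0 : 0 < Real.log (3 / 2) := Real.log_pos (by norm_num)
  have hr : ∀ᶠ M : ℕ in atTop, Real.log (C₂ * ((M : ℝ) + 1) ^ 4) ≤ √M := by
    have h1 : ∀ᶠ x : ℝ in atTop, Real.log (C₂ * (x + 1) ^ 4) ≤ √x := by
      have h2 : Tendsto (fun M : ℝ => Real.log M / M) atTop (𝓝 0) :=
        Real.isLittleO_log_id_atTop.tendsto_div_nhds_zero
      have h3 := (h2.eventually_le_const (show (0:ℝ) < 1 / 10 by norm_num))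
      have h4 : Tendsto (fun x : ℝ => √x) atTop atTop := tendsto_sqrt_atTop
      filter_upwards [h4.eventually h3, h4.eventually_ge_atTop (max 16 C₂)] with x h5 h6
      have h7 : 16 ≤ √x := (le_max_left _ _).trans h6
      have h8 : C₂ ≤ √x := (le_max_right _ _).trans h6
      have h9 : 0 < x := by
        by_contra hcon
        rw [Real.sqrt_eq_zero_of_nonpos (not_lt.mp hcon)] at h7
        norm_num at h7
      have h10 : √x ^ 2 = x := Real.sq_sqrt h9.le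
      set y := √x with hy
      have hy0 : 0 < y := by linarith
      have h11 : C₂ * (x + 1) ^ 4 ≤ y ^ 10 := by
        have : x + 1 ≤ 2 * y ^ 2 := by nlinarith
        calc C₂ * (x + 1) ^ 4 ≤ y * (2 * y ^ 2) ^ 4 := by gcongr
          _ = 16 * y ^ 9 := by ring
          _ ≤ y * y ^ 9 := by gcongr
          _ = y ^ 10 := by ring
      rw [div_le_iff₀ hy0] at h5
      have h12 := Real.log_le_log (by positivity) h11
      rw [Real.log_pow] at h12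
      push_cast at h12
      linarith
    exact tendsto_natCast_atTop_atTop.eventually h1
  have hsm : ∀ᶠ M : ℕ in atTop, (C + 1) * (2 / ((M : ℝ) + 1)) ≤ ε := by
    have h1 : Tendsto (fun M : ℕ => (C + 1) * (2 / ((M : ℝ) + 1))) atTop (𝓝 ((C + 1) * 0)) := by
      refine Tendsto.const_mul _ ?_
      refine Tendsto.const_div_atTop ?_ _
      exact tendsto_atTop_add_const_right _ _ tendsto_natCast_atTop_atTop
    rw [mul_zero] at h1
    exact h1.eventually_le_const hε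
  filter_upwards [hr, hsm, eventually_ge_atTop n₀, eventually_ge_atTop 1] with M hM1 hM2 hM3 hM4
  have hr1 : 1 ≤ C₂ * ((M : ℝ) + 1) ^ 4 := by
    have : (1:ℝ) ≤ ((M : ℝ) + 1) ^ 4 := one_le_pow₀ (by linarith [Nat.cast_nonneg (α := ℝ) M])
    nlinarith
  obtain ⟨c₁, c₂, κ, hc, hκ, hκC, hZ⟩ := hlin M hM3 _ hr1 hM1
  have ht := htor (M + 1) (2 / 3) (by omega) (by norm_num) (by norm_num)
  rw [Nat.add_sub_cancel] at ht
  push_cast at ht
  have h1 := ht.trans hZ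
  set E := (2 / 3 : ℝ) ^ (2 * ((M + 1) ^ 2 - 1)) * Real.exp (-(3 * (2 / 3) * ((M : ℝ) + 1) ^ 2)) with hE
  have hE0 : 0 < E := by positivity
  have hfin : vt (M + 1) 1 1 1 ≠ ⊤ := by
    intro htop
    rw [htop, ENNReal.mul_top (by simpa using hE0)] at h1
    exact absurd h1 (by simp)
  refine ⟨m, c₁, c₂, κ, hm, hc, hmε, hκ, hκC, hfin, fun hpos => ?_⟩
  have hp : 0 < (vt (M + 1) 1 1 1).toReal := ENNReal.toReal_pos hpos.ne' hfin
  have h2 := ENNReal.toReal_mono ENNReal.ofReal_ne_top h1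
  rw [ENNReal.toReal_mul, ENNReal.toReal_ofReal hE0.le, ENNReal.toReal_ofReal (Real.exp_pos _).le]
    at h2
  have h3 := Real.log_le_log (by positivity) h2
  rw [Real.log_exp, Real.log_mul hE0.ne' hp.ne', hE, Real.log_mul (by positivity) (by positivity),
    Real.log_exp, Real.log_pow] at h3
  have h4 : Real.log (2 / 3) = -Real.log (3 / 2) := by
    rw [← Real.log_inv]
    norm_num
  have h5 : ((2 * ((M + 1) ^ 2 - 1) : ℕ) : ℝ) ≤ 2 * ((M : ℝ) + 1) ^ 2 := by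
    have : (2 * ((M + 1) ^ 2 - 1) : ℕ) ≤ 2 * (M + 1) ^ 2 := by omega
    exact_mod_cast this
  rw [h4] at h3
  have hM' : (0:ℝ) < ((M : ℝ) + 1) ^ 2 := by positivity
  unfold kp
  rw [div_le_iff₀ hM']
  have h6 : ((2 * ((M + 1) ^ 2 - 1) : ℕ) : ℝ) * Real.log (3 / 2) ≤
      2 * ((M : ℝ) + 1) ^ 2 * Real.log (3 / 2) := by gcongr
  have h7 : (M : ℝ) ^ 2 * (κ - ar c₁ c₂ + ε) ≤ ((M : ℝ) + 1) ^ 2 * (κ - ar c₁ c₂ + 2 * ε) := by
    have h8 : (((M : ℝ) + 1) ^ 2 - (M : ℝ) ^ 2) * (-(κ - ar c₁ c₂ + ε)) ≤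
        (2 * ((M : ℝ) + 1)) * (C + 1) := by
      have := abs_le.mp hκC
      have h9 : -(κ - ar c₁ c₂ + ε) ≤ C + 1 := by linarith
      have h10 : ((M : ℝ) + 1) ^ 2 - (M : ℝ) ^ 2 ≤ 2 * ((M : ℝ) + 1) := by ring_nf; linarith
      have h11 : 0 ≤ ((M : ℝ) + 1) ^ 2 - (M : ℝ) ^ 2 := by
        ring_nf
        positivity
      calc (((M : ℝ) + 1) ^ 2 - (M : ℝ) ^ 2) * (-(κ - ar c₁ c₂ + ε)) ≤
          (((M : ℝ) + 1) ^ 2 - (M : ℝ) ^ 2) * (C + 1) := by gcongr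
        _ ≤ _ := by gcongr
    have h12 : (2 * ((M : ℝ) + 1)) * (C + 1) ≤ ((M : ℝ) + 1) ^ 2 * ε := by
      have : (2 * ((M : ℝ) + 1)) * (C + 1) = ((M : ℝ) + 1) ^ 2 * ((C + 1) * (2 / ((M : ℝ) + 1))) := by
        field_simp
      rw [this]
      gcongr
    linarith
  linarith

theorem torus_lower (htile : S_tile) (hiso : S_iso) (m : ℕ) (c₁ c₂ : ℂ) (κ ε : ℝ) (hm : 1 ≤ m)
    (hc : PosA c₁ c₂) (hε : 0 < ε) (hε1 : ε ≤ 1)
    (hmε : 2 / ((m : ℝ) + 1) * Real.log (16 / ε ^ 2) ≤ ε)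
    (hκ : ENNReal.ofReal (Real.exp (κ * ((m : ℝ) + 1) ^ 2)) ≤ vb m (aff c₁ c₂)) :
    ∀ᶠ M : ℕ in atTop, 0 < vt (M + 1) 1 1 1 ∧ (vt (M + 1) 1 1 1 ≠ ⊤ →
      κ - ar c₁ c₂ + 2 + 2 * Real.log (3 / 2) - 6 * ε ≤ kp M) := by
  have h := htile m c₁ c₂ κ ε ε hm hc hε hε1 hε hκ
  have har : 0 ≤ ar c₁ c₂ := by
    obtain ⟨h1, h2, h3⟩ := hc
    unfold ar
    linarith
  set t := (ar c₁ c₂ + 3 * ε) / 3 with ht
  have ht0 : 0 < t := by positivity
  have hsm : ∀ᶠ M : ℕ in atTop, -(ε) ≤ 2 * Real.log t / ((M : ℝ) + 1) ^ 2 := by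
    have h1 : Tendsto (fun M : ℕ => 2 * Real.log t / ((M : ℝ) + 1) ^ 2) atTop (𝓝 0) := by
      refine Tendsto.const_div_atTop ?_ _
      exact (tendsto_pow_atTop two_ne_zero).comp
        (tendsto_atTop_add_const_right _ _ tendsto_natCast_atTop_atTop)
    exact h1.eventually_const_le (by linarith)
  filter_upwards [(tendsto_add_atTop_nat 1).eventually h, hsm] with M hM hM2
  have h1 := hM
  obtain ⟨h2, h3⟩ := hiso (M + 1)
  have h4 := h1.trans (h2 _ _ _)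
  have e : (c₁.re + ε + ((conj om * c₂).re + ε) + ((conj (om - 1) * (c₂ - c₁)).re + ε)) / 3 = t := by
    rw [ht]
    unfold ar
    ring
  rw [e, h3 t ht0] at h4
  have hpos : 0 < vt (M + 1) 1 1 1 := by
    by_contra hcon
    have h0 : vt (M + 1) 1 1 1 = 0 := by simpa using hcon
    rw [h0, mul_zero] at h4
    simp only [nonpos_iff_eq_zero, ENNReal.ofReal_eq_zero] at h4
    exact absurd h4 (not_le.mpr (Real.exp_pos _))
  refine ⟨hpos, fun hfin => ?_⟩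
  have hp : 0 < (vt (M + 1) 1 1 1).toReal := ENNReal.toReal_pos hpos.ne' hfin
  have h5 := ENNReal.toReal_mono (ENNReal.mul_ne_top ENNReal.ofReal_ne_top hfin) h4
  rw [ENNReal.toReal_mul, ENNReal.toReal_ofReal (Real.exp_pos _).le,
    ENNReal.toReal_ofReal (by positivity)] at h5
  have h6 := Real.log_le_log (Real.exp_pos _) h5
  rw [Real.log_exp, Real.log_mul (by positivity) hp.ne', Real.log_pow] at h6
  have h7 : ((2 * ((M + 1) ^ 2 - 1) : ℕ) : ℝ) = 2 * ((M : ℝ) + 1) ^ 2 - 2 := by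
    have : 1 ≤ (M + 1) ^ 2 := Nat.one_le_pow _ _ (by omega)
    rw [Nat.cast_mul, Nat.cast_sub this]
    push_cast
    ring
  rw [h7] at h6
  push_cast at h6
  have hM' : (0:ℝ) < ((M : ℝ) + 1) ^ 2 := by positivity
  unfold kp
  rw [le_div_iff₀ hM']
  have h8 := two_sub_log (t := ar c₁ c₂ + 3 * ε) (by positivity)
  have h9 : Real.log t = Real.log (ar c₁ c₂ + 3 * ε) - Real.log 3 := by
    rw [ht, Real.log_div (by positivity) (by norm_num)]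
  have h10 : Real.log (3 / 2) = Real.log 3 - Real.log 2 := Real.log_div (by norm_num) (by norm_num)
  have h11 : κ - ar c₁ c₂ + 2 + 2 * Real.log (3 / 2) - 6 * ε ≤
      κ - 2 / ((m : ℝ) + 1) * Real.log (16 / ε ^ 2) - ε - 2 * Real.log t - ε := by
    rw [h9, h10]
    linarith
  rw [le_div_iff₀ hM'] at hM2
  nlinarith

/-- **The limit, with the constant.** -/
theorem main_const (hlin : S_lin) (hsq : S_sq) (hbox : S_box) (hlow : S_low) (hiso : S_iso)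
    (htile : S_tile) (htor : S_tor) :
    (∀ᶠ M : ℕ in atTop, 0 < vt (M + 1) 1 1 1 ∧ vt (M + 1) 1 1 1 ≠ ⊤) ∧
    ∃ κ : ℝ, Tendsto kp atTop (𝓝 κ) ∧ ∀ f : ℝ → ℝ, (∀ᶠ y in 𝓝[>] (0:ℝ), FE (v0 + y) (f y)) →
      Tendsto (fun y => f y + 2 * Real.log y) (𝓝[>] (0:ℝ)) (𝓝 (2 * Real.log 3 - κ)) := by
  obtain ⟨C, hC, hup⟩ := upper hlin hsq hbox
  obtain ⟨C₃, hC₃, htu⟩ := torus_upper hlin htor
  have hfin : ∀ᶠ M : ℕ in atTop, vt (M + 1) 1 1 1 ≠ ⊤ := by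
    filter_upwards [htu 1 one_pos le_rfl] with M ⟨_, _, _, _, _, _, _, _, _, h, _⟩
    exact h
  have hposv : ∀ᶠ M : ℕ in atTop, 0 < vt (M + 1) 1 1 1 := by
    obtain ⟨M, m, c₁, c₂, κ, hm, hc, hmε, hκ, -⟩ := (htu 1 one_pos le_rfl).exists
    filter_upwards [torus_lower htile hiso m c₁ c₂ κ 1 hm hc one_pos le_rfl hmε hκ] with M' hM'
    exact hM'.1
  refine ⟨hposv.and hfin, ?_⟩
  -- kp almost increases
  have key : ∀ ε : ℝ, 0 < ε → ε ≤ 1 → ∀ᶠ M : ℕ in atTop, ∃ β : ℝ, |β| ≤ C₃ ∧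
      kp M ≤ β + 2 + 2 * Real.log (3 / 2) + 2 * ε ∧
      (∀ᶠ M' : ℕ in atTop, β + 2 + 2 * Real.log (3 / 2) - 6 * ε ≤ kp M') ∧
      ∃ y₀ : ℝ, 0 < y₀ ∧ ∀ y, 0 < y → y < y₀ → ∀ f, FE (v0 + y) f →
        2 * Real.log y + 2 - 2 * Real.log 2 + β - 5 * ε ≤ -f := by
    intro ε hε hε1
    filter_upwards [htu ε hε hε1, hposv] with M ⟨m, c₁, c₂, κ, hm, hc, hmε, hκ, hκC, _, h⟩ hM
    refine ⟨κ - ar c₁ c₂, hκC, h hM, ?_, lower hlow m c₁ c₂ κ ε hm hc hε hε1 hmε hκ⟩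
    filter_upwards [torus_lower htile hiso m c₁ c₂ κ ε hm hc hε hε1 hmε hκ, hfin] with M' h1 h2
    exact h1.2 h2
  have hL0 : 0 < Real.log (3 / 2) := Real.log_pos (by norm_num)
  have hL1 : Real.log (3 / 2) < 1 := by
    have := Real.log_le_sub_one_of_pos (show (0:ℝ) < 3 / 2 by norm_num)
    linarith
  have hbdd : ∀ᶠ M : ℕ in atTop, |kp M| ≤ C₃ + 20 := by
    obtain ⟨M₁, β₁, hβ₁, -, h2, -⟩ := (key 1 one_pos le_rfl).exists
    filter_upwards [key 1 one_pos le_rfl, h2] with M ⟨β, hβ, h3, _⟩ h4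
    rw [abs_le] at hβ hβ₁ ⊢
    constructor <;> linarith [hβ.1, hβ.2, hβ₁.1, hβ₁.2]
  have hb1 : IsBoundedUnder (· ≤ ·) atTop kp :=
    ⟨C₃ + 20, by simpa using hbdd.mono fun y hy => (abs_le.mp hy).2⟩
  have hb2 : IsBoundedUnder (· ≥ ·) atTop kp :=
    ⟨-(C₃ + 20), by simpa using hbdd.mono fun y hy => (abs_le.mp hy).1⟩
  set κ := limsup kp atTop with hκ
  have hlim : Tendsto kp atTop (𝓝 κ) := by
    refine tendsto_of_le_liminf_of_limsup_le ?_ le_rfl hb1 hb2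
    refine le_of_forall_pos_le_add fun ε hε => ?_
    set ε' := min 1 (ε / 10) with hε'
    have h0 : 0 < ε' := by positivity
    have h1' : ε' ≤ 1 := min_le_left _ _
    have h2' : ε' ≤ ε / 10 := min_le_right _ _
    have h1 : ∃ᶠ M in atTop, κ - ε' < kp M := by
      refine frequently_lt_of_lt_limsup (hb2.isCoboundedUnder_le) ?_
      linarith
    obtain ⟨M, hM1, β, -, hM2, hM3, -⟩ := (h1.and_eventually (key ε' h0 h1')).exists
    have h3 : κ - ε ≤ liminf kp atTop := by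
      refine le_liminf_of_le (hb1.isCoboundedUnder_ge) ?_
      filter_upwards [hM3] with M' hM'
      linarith
    linarith
  refine ⟨κ, hlim, fun f hf => ?_⟩
  have e3 : Real.log (3 / 2) = Real.log 3 - Real.log 2 := Real.log_div (by norm_num) (by norm_num)
  rw [Metric.tendsto_nhds]
  intro ε hε
  set ε' := min 1 (ε / 40) with hε'
  have h0 : 0 < ε' := by positivity
  have h1' : ε' ≤ 1 := min_le_left _ _
  have h2' : ε' ≤ ε / 40 := min_le_right _ _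
  -- upper bound of G
  have hk : ∀ᶠ M : ℕ in atTop, κ - ε' < kp M := hlim.eventually_const_lt (by linarith)
  obtain ⟨M, ⟨β, -, hM2, -, y₀, hy₀, hM3⟩, hM4⟩ := ((key ε' h0 h1').and hk).exists
  obtain ⟨Y, hY, hup⟩ := hup ε' h0 h1'
  filter_upwards [hf, Ioo_mem_nhdsGT hY, Ioo_mem_nhdsGT hy₀] with y hy hyY hyy₀
  have g1 := hM3 y hyy₀.1 hyy₀.2 _ hy
  obtain ⟨m, c₁, c₂, κ', hm, hc, hmε, hκ', hκC, hup⟩ := hup y hyY.1 hyY.2
  have g2 := hup _ hy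
  have g3 : κ' - ar c₁ c₂ + 2 + 2 * Real.log (3 / 2) - 6 * ε' ≤ κ := by
    refine ge_of_tendsto hlim ?_
    filter_upwards [torus_lower htile hiso m c₁ c₂ κ' ε' hm hc h0 h1' hmε hκ', hfin] with M' h1 h2
    exact h1.2 h2
  rw [Real.dist_eq, abs_lt]
  constructor <;> linarith

end Pool.Agent.H96.CP
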