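import Pool.Agent.H96.CP.Stm2

/-!
# Project CP: convexity and the pressure (real analysis)
-/

set_option autoImplicit false

open Real Set MeasureTheory Metric Filter Topology
open scoped ENNReal Nat ComplexConjugate

namespace Pool.Agent.H96.CP

open Pool.Agent.H96.HD

/-- Convexity of the free energy, from `S_cvx` (midpoints) and monotonicity (`HD.side_ineq`: `f` is
strictly decreasing in `v`): dyadic combinations by induction, then approximation from the left. -/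
def S_cvxf : Prop := ∀ (a δ : ℝ) (f : ℝ → ℝ), 0 < a → 0 < δ →
  (∀ v ∈ Ioo (2 * √3 * a ^ 2) (2 * √3 * a ^ 2 + δ), IsFreeEnergy a v (f v)) →
  ConvexOn ℝ (Ioo (2 * √3 * a ^ 2) (2 * √3 * a ^ 2 + δ)) f

/-- Pressure and coexistence. (1) Mean pressures: compare the slope on `[v,v']` with the slopes on
`[v - η x, v]` and `[v', v' + η x']` (`x = v - v₀`, `x' = v' - v₀`, `η` small, then `δ` small such that
`F + 2 log` varies by at most `η²`). (2) An affine piece: compare the end points and the midpoint: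
`log ((x₁+x₂)²/(4 x₁ x₂)) ≤` small. -/
def S_pres : Prop := ∀ (F : ℝ → ℝ) (v₀ δ₀ a c : ℝ), 0 < δ₀ → 0 < a →
  ConvexOn ℝ (Ioo v₀ (v₀ + δ₀)) F →
  Tendsto (fun v => F v + 2 * Real.log ((v - v₀) / a)) (𝓝[>] v₀) (𝓝 c) →
  (∀ ε : ℝ, 0 < ε → ∃ δ : ℝ, 0 < δ ∧ ∀ v v' : ℝ, v₀ < v → v < v' → v' < v₀ + δ →
    (2 - ε) / (v' - v₀) ≤ (F v - F v') / (v' - v) ∧
    (F v - F v') / (v' - v) ≤ (2 + ε) / (v - v₀)) ∧
  ∀ ε : ℝ, 0 < ε → ∃ δ : ℝ, 0 < δ ∧ ∀ v₁ v₂ p b : ℝ, v₀ < v₁ → v₁ < v₂ → v₂ < v₀ + δ →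
    (∀ v ∈ Icc v₁ v₂, F v = b - p * v) → v₂ - v₀ ≤ (1 + ε) * (v₁ - v₀)

end Pool.Agent.H96.CP
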