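import Pool.Agent.H96.CP.AllA
import Pool.Agent.H96.CP.Fin2
import Pool.Agent.H96.CP.Stm4
import Pool.Agent.H53.CP.Iso
import Pool.Agent.H93.CP.Tile
import Pool.Agent.H52.CP.Tor
import Pool.Agent.H23.CP.Cvxf
import Pool.Agent.H15.CP.Pres

/-!
# The steps proved by the team, collected (second part: the torus, convexity, pressure)
-/

namespace Pool.Agent.H96.CP

theorem all_iso : S_iso := Pool.Agent.H53.CP.iso

theorem all_tile : S_tile := Pool.Agent.H93.CP.Tile.tile

theorem all_tor : S_tor := Pool.Agent.H52.CP.tor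

theorem all_cvxf : S_cvxf := Pool.Agent.H23.CP.t_cvxf

theorem all_pres : S_pres := Pool.Agent.H15.CP.pres

end Pool.Agent.H96.CP
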