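import Pool.Agent.H96.CP.Sq3
import Pool.Agent.H15.CP.Lin
import Pool.Agent.H23.CP.GridB
import Pool.Agent.H31.CP.Base
import Pool.Agent.H31.CP.Conv
import Pool.Agent.H52.CP.Block
import Pool.Agent.H52.CP.Box
import Pool.Agent.H53.CP.Crys
import Pool.Agent.H53.CP.Cvx
import Pool.Agent.H61.CP.Mean
import Pool.Agent.H61.CP.Fix
import Pool.Agent.H93.CP.Area
import Pool.Agent.H95.CP.Low

/-!
# The steps proved by the team, collected (first part: everything not on the torus)
-/

namespace Pool.Agent.H96.CP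

theorem all_lin : S_lin :=
  Pool.Agent.H15.CP.lin Pool.Agent.H61.CP.mean (Pool.Agent.H52.CP.block Pool.Agent.H31.CP.pred_thm)
    Pool.Agent.H23.CP.t_grid Pool.Agent.H93.CP.affine Pool.Agent.H93.CP.area

theorem all_sq : S_sq := sq Pool.Agent.H53.CP.crys Pool.Agent.H61.CP.fix

theorem all_box : S_box := Pool.Agent.H52.CP.box Pool.Agent.H31.CP.conv_thm

theorem all_low : S_low := Pool.Agent.H95.CP.low

end Pool.Agent.H96.CP
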