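import Pool.Agent.H96.CP.Stm2

/-!
# CP: local crystalline order near close packing (statements)

Goal: with probability `≥ 1 - exp (- c ε N)` the disks whose local defect exceeds `x^(1 - ε')`
(`x = v - v₀`) carry together at most the share `ε` of the free area `x N`; so for every
`λ ∈ [x^(1-ε'), 1]` all but `ε x N / λ` disks have exactly six neighbours, which form a regular hexagon up
to `λ`. (Every packing has this with `C` in place of `ε`.)

Proof: in the upper bound of the partition function count defects `> τ` only with the factor `1/2`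
(`ph`); this changes nothing, since a square with such a defect is negligible anyway.
-/

set_option autoImplicit false

open Real Set MeasureTheory Metric Filter Topology
open scoped ENNReal Nat ComplexConjugate

namespace Pool.Agent.H96.CP

open Pool.Agent.H96.HD

/-- the cost of a defect: defects larger than `τ` count half -/
noncomputable def ph (τ d : ℝ) : ℝ := if τ < d then d / 2 else d

open Classical in
/-- the cost of the points whose disk of radius two is in `Λ` (as `W`) -/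
noncomputable def Wp (τ : ℝ) (Λ : Set ℂ) {ι : Type*} [Fintype ι] (x : ι → ℂ) : ℝ :=
  ∑ i, if closedBall (x i) 2 ⊆ Λ then ph τ (dfc x i) else 0

/-- as `ZR`, with the weight `exp (-s * Wp)` -/
noncomputable def ZRp (s τ : ℝ) (Λ : Set ℂ) (k : ℕ) : ℝ≥0∞ :=
  ((k ! : ℕ) : ℝ≥0∞)⁻¹ * ∫⁻ x in {x : Fin k → ℂ | (∀ i, x i ∈ Λ) ∧ Sep x},
    ENNReal.ofReal (Real.exp (-(s * Wp τ Λ x)))

/-- As `S_conv` (`Pool.Agent.H31.CP.conv_thm`), with `ph τ (dfc x i)` in place of `dfc x i`
(`0 ≤ ph τ d` for `d ≥ 0`; the defects of separated points are nonnegative). -/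
def S_convp : Prop := ∀ (s τ : ℝ) (Λ₁ Λ₂ : Set ℂ), 0 ≤ s → 0 ≤ τ → MeasurableSet Λ₁ →
  MeasurableSet Λ₂ → Disjoint Λ₁ Λ₂ → ∀ N : ℕ, ZRp s τ (Λ₁ ∪ Λ₂) N ≤
    ∑ p ∈ Finset.HasAntidiagonal.antidiagonal N, ZRp s τ Λ₁ p.1 * ZRp s τ Λ₂ p.2

/-- the total of the large defects -/
noncomputable def Dl (τ : ℝ) {N : ℕ} (x : Fin N → ℂ) : ℝ :=
  ∑ i, if τ < defect x i then defect x i else 0

/-- As `S_box` (`Pool.Agent.H52.CP.box`), with the additional weight `exp (s Dl / 2)`. Proof: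
`s Dl / 2 = s ∑ defect - s ∑ ph τ (defect)` (`d - ph τ d = d/2` if `τ < d`, else `0`), the first sum is at
most `(L+2)² - N v0` (`HD.sum_defect_le'`), the second one is at least the sum of the `Wp` of the
squares. -/
def S_boxp : Prop := ∀ s τ M β δ : ℝ, 0 ≤ s → 0 ≤ τ → 1 ≤ M → 0 ≤ δ →
  (∀ k : ℕ, ZRp s τ (Qd M 0) k ≤ ENNReal.ofReal (Real.exp (k * β + δ))) → ∀ (K N : ℕ) (L : ℝ),
  0 ≤ L → L < K * M →
  ∫⁻ x in Kc N L, ENNReal.ofReal (Real.exp (s / 2 * Dl τ x)) ≤
    ENNReal.ofReal ((N ! : ℕ) * Real.exp (s * ((L + 2) ^ 2 - N * v0) + N * β +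
    (K : ℝ) ^ 2 * (δ + Real.log (4 * (M + 1) ^ 2 + 1))))

/-- From `S_sq`. Proof: if no point (whose disk of radius two is in the square) has a defect `> τ`,
then `Wp τ = W`: this part of `ZRp` is at most `ZR ≤ exp (k (β - 2 log s) + (ε/2) M²)`. Otherwise
`Wp τ ≥ τ / 2` (all terms are `≥ 0`): this part is at most `(M²)^k / k! · exp (- s τ / 2)`, and `0` if
`k > 4 (M+1)²` (see `Pool/Agent/H96/CP/Sq*.lean` and `H52/CP/Box.lean` for the bound of `k`); since
`s τ ≥ (log s)^10` and `k = O((log s)^8)`, it is at most half of the claim. -/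
def S_sqp : Prop := ∀ ε B : ℝ, 0 < ε → 0 ≤ B → ∀ᶠ s : ℝ in atTop, ∀ β : ℝ, |β| ≤ B →
  Zf (nn s) s ≤ ENNReal.ofReal (Real.exp ((nn s : ℝ) ^ 2 * β)) → ∀ (k : ℕ) (τ : ℝ),
  Real.log s ^ 10 ≤ s * τ → ZRp s τ (Qd (MM s) 0) k ≤
    ENNReal.ofReal (Real.exp (k * (β - 2 * Real.log s) + ε * MM s ^ 2))

/-- The disk `i` (contact distance `√3`) has exactly six neighbours, which form a regular hexagon up to
`t`; all other disks are at distance at least `1.6 √3`. -/
def Reg (t : ℝ) {N : ℕ} (x : Fin N → ℂ) (i : Fin N) : Prop :=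
  ∃ (j : Fin 6 → Fin N) (z : ℂ), Function.Injective j ∧ ‖z‖ = √3 ∧
    (∀ m : Fin 6, ‖x (j m) - x i - Complex.exp (m * (π / 3) * Complex.I) * z‖ ≤ t) ∧
    ∀ k : Fin N, k ≠ i → (∀ m, k ≠ j m) → 1.6 * √3 ≤ ‖x k - x i‖

/-- Small defects. Proof: `HD.stab`, `HD.exists_rot` / `HD.hexagon` (see `H96/HD/Struct.lean`): `nbr x i`
has six elements, all at `om^m (x j₀ - x i) + O(defect)`; different `m` (separation `≥ √3`), so all six
`m` occur; `‖x j₀ - x i‖ = √3 + O(defect)` (`π/6 - al` is at most `C1 defect`), `z` = its multiple of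
norm `√3`. Another point `p` with `√3 ≤ r = ‖p - x i‖ < 1.6 √3` would have distance
`√(r² - 3 r + 3) + O(t) < √3` from one of the six (the one within angle `π/6`). -/
def S_reg : Prop := ∃ C : ℝ, 1 ≤ C ∧ ∀ (N : ℕ) (L t : ℝ) (x : Fin N → ℂ) (i : Fin N), x ∈ Kc N L →
  C * defect x i ≤ t → t ≤ 1 → Reg t x i

end Pool.Agent.H96.CP
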