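import Pool.Agent.H31.CP.Conv
import Pool.Agent.H96.CP.Stm6

/-!
Project CP: the partition function of two disjoint regions, with the costs `ph τ` of the defects
(adapted from `Pool.Agent.H31.CP.Conv` by helper31).
-/

set_option autoImplicit false

open Real Set MeasureTheory Metric Filter Topology
open scoped ENNReal Nat

namespace Pool.Agent.H96.CP.Convp

open Pool.Agent.H96.CP Pool.Agent.H96.HD Pool.Agent.H31.CP

theorem ph_nonneg {τ d : ℝ} (h : 0 ≤ d) : 0 ≤ ph τ d := by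
  unfold ph
  split_ifs <;> linarith

theorem ph_le {τ d : ℝ} (h : 0 ≤ d) : ph τ d ≤ d := by
  unfold ph
  split_ifs <;> linarith

theorem Wp_nonneg {τ : ℝ} {Λ : Set ℂ} {ι : Type*} [Fintype ι] {x : ι → ℂ} (hx : Sep x) : 0 ≤ Wp τ Λ x := by
  classical
  unfold Wp
  refine Finset.sum_nonneg fun i _ => ?_
  split_ifs
  · exact ph_nonneg (dfc_nonneg hx i)
  · exact le_rfl

theorem Wp_le {τ : ℝ} {Λ : Set ℂ} {ι : Type*} [Fintype ι] {x : ι → ℂ} (hx : Sep x) :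
    Wp τ Λ x ≤ Fintype.card ι * (6 * phi (π / 6)) := by
  classical
  unfold Wp
  rw [← nsmul_eq_mul, ← Finset.card_univ, ← Finset.sum_const]
  refine Finset.sum_le_sum fun i _ => ?_
  split_ifs
  · exact (ph_le (dfc_nonneg hx i)).trans (dfc_le i)
  · have := phi_nonneg (α := π / 6) (by positivity)
    positivity

/-- **Superadditivity of the defects.** -/
theorem Wp_split {κ₁ κ₂ ι : Type*} [Fintype κ₁] [Fintype κ₂] [Fintype ι] (e : κ₁ ⊕ κ₂ ≃ ι)
    {τ : ℝ} {Λ₁ Λ₂ : Set ℂ} (hd : Disjoint Λ₁ Λ₂) {x : ι → ℂ} (hx : Sep x)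
    (h1 : ∀ a, x (e (Sum.inl a)) ∈ Λ₁) (h2 : ∀ b, x (e (Sum.inr b)) ∈ Λ₂) :
    Wp τ Λ₁ (fun a => x (e (Sum.inl a))) + Wp τ Λ₂ (fun b => x (e (Sum.inr b))) ≤ Wp τ (Λ₁ ∪ Λ₂) x := by
  classical
  unfold Wp
  rw [← e.sum_comp, Fintype.sum_sum_type]
  -- the defect of a point only depends on the near points
  have key1 : ∀ a, closedBall (x (e (Sum.inl a))) 2 ⊆ Λ₁ →
      dfc (fun a => x (e (Sum.inl a))) a = dfc x (e (Sum.inl a)) := by
    intro a ha
    unfold dfc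
    congr 1
    rw [Finset.sum_erase_eq_sub (Finset.mem_univ _), Finset.sum_erase_eq_sub (Finset.mem_univ _),
      ← e.sum_comp, Fintype.sum_sum_type]
    have h3 : ∑ b, phi (al (x (e (Sum.inr b)) - x (e (Sum.inl a)))) = 0 := by
      refine Finset.sum_eq_zero fun b _ => ?_
      have h4 : 2 ≤ ‖x (e (Sum.inr b)) - x (e (Sum.inl a))‖ := by
        by_contra hcon
        push Not at hcon
        have h5 : x (e (Sum.inr b)) ∈ Λ₁ := ha (by
          rw [mem_closedBall, dist_eq_norm]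
          exact hcon.le)
        exact Set.disjoint_left.1 hd h5 (h2 b)
      rw [al_eq_zero h4, phi_zero]
    rw [h3, add_zero]
  have key2 : ∀ b, closedBall (x (e (Sum.inr b))) 2 ⊆ Λ₂ →
      dfc (fun b => x (e (Sum.inr b))) b = dfc x (e (Sum.inr b)) := by
    intro b hb
    unfold dfc
    congr 1
    rw [Finset.sum_erase_eq_sub (Finset.mem_univ _), Finset.sum_erase_eq_sub (Finset.mem_univ _),
      ← e.sum_comp, Fintype.sum_sum_type]
    have h3 : ∑ a, phi (al (x (e (Sum.inl a)) - x (e (Sum.inr b)))) = 0 := by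
      refine Finset.sum_eq_zero fun a _ => ?_
      have h4 : 2 ≤ ‖x (e (Sum.inl a)) - x (e (Sum.inr b))‖ := by
        by_contra hcon
        push Not at hcon
        have h5 : x (e (Sum.inl a)) ∈ Λ₂ := hb (by
          rw [mem_closedBall, dist_eq_norm]
          exact hcon.le)
        exact Set.disjoint_left.1 hd (h1 a) h5
      rw [al_eq_zero h4, phi_zero]
    rw [h3, zero_add]
  refine add_le_add (Finset.sum_le_sum fun a _ => ?_) (Finset.sum_le_sum fun b _ => ?_)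
  · by_cases h : closedBall (x (e (Sum.inl a))) 2 ⊆ Λ₁
    · rw [if_pos h, if_pos (h.trans subset_union_left), key1 a h]
    · rw [if_neg h]
      split_ifs
      · exact ph_nonneg (dfc_nonneg hx _)
      · exact le_rfl
  · by_cases h : closedBall (x (e (Sum.inr b))) 2 ⊆ Λ₂
    · rw [if_pos h, if_pos (h.trans subset_union_right), key2 b h]
    · rw [if_neg h]
      split_ifs
      · exact ph_nonneg (dfc_nonneg hx _)
      · exact le_rfl

/-- the weight of a configuration -/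
noncomputable def FFp (s τ : ℝ) (ι : Type*) [Fintype ι] (Λ : Set ℂ) : (ι → ℂ) → ℝ≥0∞ :=
  (BB ι Λ).indicator fun x => ENNReal.ofReal (Real.exp (-(s * Wp τ Λ x)))

theorem ZRp_eq {s τ : ℝ} {Λ : Set ℂ} (hΛ : MeasurableSet Λ) (k : ℕ) :
    ZRp s τ Λ k = ((k ! : ℕ) : ℝ≥0∞)⁻¹ * ∫⁻ x, FFp s τ (Fin k) Λ x := by
  unfold ZRp FFp
  rw [lintegral_indicator (measurableSet_BB hΛ)]
  rfl

theorem integral_split {κ₁ κ₂ ι : Type*} [Fintype κ₁] [Fintype κ₂] [Fintype ι] (e : κ₁ ⊕ κ₂ ≃ ι)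
    {s τ : ℝ} (hs : 0 ≤ s) {Λ₁ Λ₂ : Set ℂ} (h1 : MeasurableSet Λ₁) (hd : Disjoint Λ₁ Λ₂)
    {S : Set (ι → ℂ)} (hS : MeasurableSet S) (hS1 : ∀ x ∈ S, ∀ a, x (e (Sum.inl a)) ∈ Λ₁)
    (hS2 : ∀ x ∈ S, ∀ a, x (e (Sum.inr a)) ∈ Λ₂) (hS3 : ∀ x ∈ S, Sep x) :
    ∫⁻ x in S, ENNReal.ofReal (Real.exp (-(s * Wp τ (Λ₁ ∪ Λ₂) x))) ≤
      (∫⁻ x, FFp s τ κ₁ Λ₁ x) * ∫⁻ x, FFp s τ κ₂ Λ₂ x := by
  rw [← lintegral_indicator hS, ← (measurePreserving_jn e).lintegral_comp_emb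
    (jnEquiv e).measurableEmbedding]
  refine le_trans (lintegral_mono (g := fun z : (κ₁ → ℂ) × (κ₂ → ℂ) =>
    FFp s τ κ₁ Λ₁ z.1 * FFp s τ κ₂ Λ₂ z.2) fun z => ?_) ?_
  · by_cases hz : jnEquiv e z ∈ S
    · have hsep : Sep (jn e z.1 z.2) := hS3 _ hz
      have hz1 : z.1 ∈ BB κ₁ Λ₁ := by
        refine ⟨fun a => ?_, fun a b hab => ?_⟩
        · have := hS1 _ hz a
          rwa [jnEquiv_apply, jn_inl] at this
        · have := hsep (e (Sum.inl a)) (e (Sum.inl b)) (by simpa using hab)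
          rwa [jn_inl, jn_inl] at this
      have hz2 : z.2 ∈ BB κ₂ Λ₂ := by
        refine ⟨fun a => ?_, fun a b hab => ?_⟩
        · have := hS2 _ hz a
          rwa [jnEquiv_apply, jn_inr] at this
        · have := hsep (e (Sum.inr a)) (e (Sum.inr b)) (by simpa using hab)
          rwa [jn_inr, jn_inr] at this
      show S.indicator _ (jnEquiv e z) ≤ FFp s τ κ₁ Λ₁ z.1 * FFp s τ κ₂ Λ₂ z.2
      unfold FFp
      rw [indicator_of_mem hz, indicator_of_mem hz1, indicator_of_mem hz2,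
        ← ENNReal.ofReal_mul (Real.exp_pos _).le, ← Real.exp_add]
      refine ENNReal.ofReal_le_ofReal (Real.exp_le_exp.2 ?_)
      have h := Wp_split (τ := τ) e hd (x := jn e z.1 z.2) hsep
        (fun a => by rw [jn_inl]; exact hz1.1 a) (fun b => by rw [jn_inr]; exact hz2.1 b)
      simp only [jn_inl, jn_inr] at h
      have h' := mul_le_mul_of_nonneg_left h hs
      rw [jnEquiv_apply]
      have e1 : (fun a => z.1 a) = z.1 := rfl
      have e2 : (fun a => z.2 a) = z.2 := rfl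
      rw [mul_add] at h'
      linarith
    · show S.indicator _ (jnEquiv e z) ≤ _
      rw [indicator_of_notMem hz]
      exact zero_le
  · rw [Measure.volume_eq_prod]
    refine lintegral_prod_le (measurableSet_BB h1)
      (ε := ENNReal.ofReal (Real.exp (-(s * (Fintype.card κ₁ * (6 * phi (π / 6))))))) ?_ ?_ ?_ ?_
    · rw [Ne, ENNReal.ofReal_eq_zero, not_le]
      exact Real.exp_pos _
    · intro x hx
      unfold FFp
      rw [indicator_of_mem hx]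
      refine ENNReal.ofReal_le_ofReal (Real.exp_le_exp.2 ?_)
      have := mul_le_mul_of_nonneg_left (Wp_le (τ := τ) (Λ := Λ₁) hx.2) hs
      linarith
    · intro x hx
      unfold FFp
      rw [indicator_of_notMem hx]
    · intro x
      unfold FFp
      by_cases hx : x ∈ BB κ₁ Λ₁
      · rw [indicator_of_mem hx]
        exact ENNReal.ofReal_ne_top
      · rw [indicator_of_notMem hx]
        exact ENNReal.zero_ne_top

theorem convp : S_convp := by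
  intro s τ Λ₁ Λ₂ hs _ h1 h2 hd N
  classical
  let I₁ : ℕ → ℝ≥0∞ := fun k => ∫⁻ x, FFp s τ (Fin k) Λ₁ x
  let I₂ : ℕ → ℝ≥0∞ := fun k => ∫⁻ x, FFp s τ (Fin k) Λ₂ x
  have hT : ∀ T : Finset (Fin N), ∫⁻ x in TT Λ₁ Λ₂ T,
      ENNReal.ofReal (Real.exp (-(s * Wp τ (Λ₁ ∪ Λ₂) x))) ≤ I₁ T.card * I₂ (N - T.card) := by
    intro T
    have hc : Tᶜ.card = N - T.card := by rw [Finset.card_compl, Fintype.card_fin]
    let e := finSumEquivOfFinset (s := T) rfl hc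
    refine integral_split e hs h1 hd (measurableSet_TT h1 h2 T) (fun x hx a => ?_)
      (fun x hx a => ?_) fun x hx => hx.2
    · have h3 := hx.1 (e (Sum.inl a))
      have h4 : e (Sum.inl a) ∈ T := by
        have h5 : e (Sum.inl a) = T.orderEmbOfFin rfl a := finSumEquivOfFinset_inl rfl hc a
        rw [h5]
        exact Finset.orderEmbOfFin_mem _ _ _
      rwa [if_pos h4] at h3
    · have h3 := hx.1 (e (Sum.inr a))
      have h4 : e (Sum.inr a) ∉ T := by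
        have h5 : e (Sum.inr a) = Tᶜ.orderEmbOfFin hc a := finSumEquivOfFinset_inr rfl hc a
        rw [h5]
        exact Finset.mem_compl.1 (Finset.orderEmbOfFin_mem _ _ _)
      rwa [if_neg h4] at h3
  have hmain : ∫⁻ x in BB (Fin N) (Λ₁ ∪ Λ₂), ENNReal.ofReal (Real.exp (-(s * Wp τ (Λ₁ ∪ Λ₂) x))) ≤
      ∑ T : Finset (Fin N), I₁ T.card * I₂ (N - T.card) := by
    refine (lintegral_mono_set (union_TT Λ₁ Λ₂)).trans ?_
    rw [lintegral_biUnion_finset]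
    · exact Finset.sum_le_sum fun T _ => hT T
    · intro S _ T _ hST
      exact disjoint_TT hd hST
    · exact fun T _ => measurableSet_TT h1 h2 T
  have hsum : ∑ T : Finset (Fin N), I₁ T.card * I₂ (N - T.card) =
      ∑ k ∈ Finset.range (N + 1), N.choose k • (I₁ k * I₂ (N - k)) := by
    have h3 := Finset.sum_powerset_apply_card (fun k => I₁ k * I₂ (N - k))
      (x := (Finset.univ : Finset (Fin N)))
    rw [Finset.powerset_univ, Finset.card_univ, Fintype.card_fin] at h3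
    exact h3
  have hZ : ZRp s τ (Λ₁ ∪ Λ₂) N = ((N ! : ℕ) : ℝ≥0∞)⁻¹ * ∫⁻ x in BB (Fin N) (Λ₁ ∪ Λ₂),
      ENNReal.ofReal (Real.exp (-(s * Wp τ (Λ₁ ∪ Λ₂) x))) := rfl
  rw [hZ, Finset.Nat.sum_antidiagonal_eq_sum_range_succ (fun a b => ZRp s τ Λ₁ a * ZRp s τ Λ₂ b)]
  refine (mul_le_mul_right hmain _).trans ?_
  rw [hsum, Finset.mul_sum]
  refine Finset.sum_le_sum fun k hk => ?_
  have hkN : k ≤ N := Nat.lt_succ_iff.1 (Finset.mem_range.1 hk)
  rw [ZRp_eq h1, ZRp_eq h2, nsmul_eq_mul]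
  have h3 : (N.choose k : ℝ≥0∞) * ((k ! : ℕ) : ℝ≥0∞) * (((N - k) ! : ℕ) : ℝ≥0∞) =
      ((N ! : ℕ) : ℝ≥0∞) := by
    exact_mod_cast Nat.choose_mul_factorial_mul_factorial hkN
  have hk0 : ((k ! : ℕ) : ℝ≥0∞) ≠ 0 := by exact_mod_cast (Nat.factorial_pos k).ne'
  have hN0 : ((N ! : ℕ) : ℝ≥0∞) ≠ 0 := by exact_mod_cast (Nat.factorial_pos N).ne'
  have hk1 : (((N - k) ! : ℕ) : ℝ≥0∞) ≠ 0 := by exact_mod_cast (Nat.factorial_pos (N - k)).ne'
  have hkT : ((k ! : ℕ) : ℝ≥0∞) ≠ ∞ := ENNReal.natCast_ne_top _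
  have hNT : ((N ! : ℕ) : ℝ≥0∞) ≠ ∞ := ENNReal.natCast_ne_top _
  have hk1T : (((N - k) ! : ℕ) : ℝ≥0∞) ≠ ∞ := ENNReal.natCast_ne_top _
  have h4 : ((N ! : ℕ) : ℝ≥0∞)⁻¹ * (N.choose k : ℝ≥0∞) =
      ((k ! : ℕ) : ℝ≥0∞)⁻¹ * (((N - k) ! : ℕ) : ℝ≥0∞)⁻¹ := by
    rw [← ENNReal.mul_inv (Or.inl hk0) (Or.inl hkT)]
    refine (ENNReal.eq_inv_of_mul_eq_one_left ?_)
    rw [mul_assoc, ← mul_assoc (N.choose k : ℝ≥0∞), h3]
    exact ENNReal.inv_mul_cancel hN0 hNT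
  calc ((N ! : ℕ) : ℝ≥0∞)⁻¹ * ((N.choose k : ℝ≥0∞) * (I₁ k * I₂ (N - k)))
      = ((N ! : ℕ) : ℝ≥0∞)⁻¹ * (N.choose k : ℝ≥0∞) * (I₁ k * I₂ (N - k)) := by rw [mul_assoc]
    _ = ((k ! : ℕ) : ℝ≥0∞)⁻¹ * (((N - k) ! : ℕ) : ℝ≥0∞)⁻¹ * (I₁ k * I₂ (N - k)) := by rw [h4]
    _ ≤ _ := by
      refine le_of_eq ?_
      ring

end Pool.Agent.H96.CP.Convp
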