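import Pool.Agent.H96.HD.Thermo

/-!
# Hard disks at close packing: definitions (project CP)

Units: two disks do not overlap if their centres have distance at least `√3`; area per disk at
close packing `v0 = 3 √3 / 2`.
-/

set_option autoImplicit false

open Real Set MeasureTheory Metric Filter Topology
open scoped ENNReal Nat ComplexConjugate

namespace Pool.Agent.H96.CP

open Pool.Agent.H96.HD

/-! ## The linear model -/

/-- `e^{iπ/3}` -/
noncomputable def om : ℂ := ⟨1 / 2, √3 / 2⟩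

/-- elongation of the edge `(i,j) - (i+1,j)` (direction `1`) -/
noncomputable def D0 (u : ℕ → ℕ → ℂ) (i j : ℕ) : ℝ := (u (i + 1) j - u i j).re

/-- elongation of the edge `(i,j) - (i,j+1)` (direction `om`) -/
noncomputable def D1 (u : ℕ → ℕ → ℂ) (i j : ℕ) : ℝ := (conj om * (u i (j + 1) - u i j)).re

/-- elongation of the edge `(i+1,j) - (i,j+1)` (direction `om - 1 = om²`) -/
noncomputable def D2 (u : ℕ → ℕ → ℂ) (i j : ℕ) : ℝ :=
  (conj (om - 1) * (u i (j + 1) - u (i + 1) j)).re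

/-- all edges of the parallelogram `[0,n]²` are elongated -/
def Pos (n : ℕ) (u : ℕ → ℕ → ℂ) : Prop :=
  (∀ i j, i < n → j ≤ n → 0 ≤ D0 u i j) ∧ (∀ i j, i ≤ n → j < n → 0 ≤ D1 u i j) ∧
    ∀ i j, i < n → j < n → 0 ≤ D2 u i j

/-- the sum of the elongations of all edges of `[0,n]²` -/
noncomputable def A (n : ℕ) (u : ℕ → ℕ → ℂ) : ℝ :=
  ∑ i ∈ Finset.range n, ∑ j ∈ Finset.range (n + 1), D0 u i j +
    ∑ i ∈ Finset.range (n + 1), ∑ j ∈ Finset.range n, D1 u i j +
    ∑ i ∈ Finset.range n, ∑ j ∈ Finset.range n, D2 u i j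

/-- extension by zero -/
noncomputable def ext (n : ℕ) (u : Fin (n + 1) × Fin (n + 1) → ℂ) : ℕ → ℕ → ℂ := fun i j =>
  if h : i ≤ n ∧ j ≤ n then u (⟨i, Nat.lt_succ_of_le h.1⟩, ⟨j, Nat.lt_succ_of_le h.2⟩) else 0

/-- the configurations of the linear model with `|u| ≤ r` -/
def U (n : ℕ) (r : ℝ) : Set (Fin (n + 1) × Fin (n + 1) → ℂ) :=
  {u | Pos n (ext n u) ∧ ∀ q, ‖u q‖ ≤ r}

/-- the partition function of the linear model with free boundary -/
noncomputable def Zf (n : ℕ) (r : ℝ) : ℝ≥0∞ :=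
  ∫⁻ u in U n r, ENNReal.ofReal (Real.exp (-A n (ext n u)))

/-- `b` with the values at the interior points `(i+1,j+1)`, `i,j < m`, of the block `[0,m+1]²`
replaced by `w` -/
noncomputable def glue (m : ℕ) (b : ℕ → ℕ → ℂ) (w : Fin m × Fin m → ℂ) : ℕ → ℕ → ℂ := fun i j =>
  if h : (1 ≤ i ∧ i ≤ m) ∧ 1 ≤ j ∧ j ≤ m then w (⟨i - 1, by omega⟩, ⟨j - 1, by omega⟩) else b i j

/-- the configurations of the interior of the block `[0,m+1]²` with boundary values `b` -/
def Kb (m : ℕ) (b : ℕ → ℕ → ℂ) : Set (Fin m × Fin m → ℂ) := {w | Pos (m + 1) (glue m b w)}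

/-- their volume -/
noncomputable def vb (m : ℕ) (b : ℕ → ℕ → ℂ) : ℝ≥0∞ := volume (Kb m b)

/-- translation -/
def sh (u : ℕ → ℕ → ℂ) (t : ℕ × ℕ) : ℕ → ℕ → ℂ := fun i j => u (t.1 + i) (t.2 + j)

/-- affine values -/
noncomputable def aff (c₁ c₂ : ℂ) : ℕ → ℕ → ℂ := fun i j => (i : ℂ) * c₁ + (j : ℂ) * c₂

/-- the excess area per site of the affine deformation: `D0 + D1 + D2` -/
noncomputable def ar (c₁ c₂ : ℂ) : ℝ := c₁.re + (conj om * c₂).re + (conj (om - 1) * (c₂ - c₁)).re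

/-- `aff c₁ c₂` elongates all edges -/
def PosA (c₁ c₂ : ℂ) : Prop :=
  0 ≤ c₁.re ∧ 0 ≤ (conj om * c₂).re ∧ 0 ≤ (conj (om - 1) * (c₂ - c₁)).re

/-- the positions of the blocks with offset `(s₁, s₂)` -/
def Tp (n m s₁ s₂ : ℕ) : Finset (ℕ × ℕ) :=
  (Finset.range (n + 1) ×ˢ Finset.range (n + 1)).filter fun t =>
    t.1 % (m + 1) = s₁ ∧ t.2 % (m + 1) = s₂ ∧ t.1 + (m + 1) ≤ n ∧ t.2 + (m + 1) ≤ n

/-- sum of the elongations of the edges based in the column `x` or in the row `x` -/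
noncomputable def LS (n : ℕ) (u : ℕ → ℕ → ℂ) (x : ℕ) : ℝ :=
  ∑ j ∈ Finset.range (n + 1), ((if x < n then D0 u x j else 0) + (if j < n then D1 u x j else 0) +
    (if x < n ∧ j < n then D2 u x j else 0)) +
  ∑ i ∈ Finset.range (n + 1), ((if i < n then D0 u i x else 0) + (if x < n then D1 u i x else 0) +
    (if i < n ∧ x < n then D2 u i x else 0))

/-! ## Configurations of disks -/

/-- mutual distances at least `√3` -/
def Sep {ι : Type*} (x : ι → ℂ) : Prop := ∀ i j, i ≠ j → √3 ≤ ‖x i - x j‖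

/-- the local defect of the point `i` (`HD.defect` for general index types) -/
noncomputable def dfc {ι : Type*} [Fintype ι] [DecidableEq ι] (x : ι → ℂ) (i : ι) : ℝ :=
  6 * phi (π / 6) - ∑ j ∈ Finset.univ.erase i, phi (al (x j - x i))

open Classical in
/-- the sum of the defects of the points whose disk of radius two is in `Λ` -/
noncomputable def W (Λ : Set ℂ) {ι : Type*} [Fintype ι] (x : ι → ℂ) : ℝ :=
  ∑ i, if closedBall (x i) 2 ⊆ Λ then dfc x i else 0

/-- partition function of `k` disks in `Λ`, with the weight `exp (-s * defects)` -/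
noncomputable def ZR (s : ℝ) (Λ : Set ℂ) (k : ℕ) : ℝ≥0∞ :=
  ((k ! : ℕ) : ℝ≥0∞)⁻¹ * ∫⁻ x in {x : Fin k → ℂ | (∀ i, x i ∈ Λ) ∧ Sep x},
    ENNReal.ofReal (Real.exp (-(s * W Λ x)))

/-- the half open square of side `M` with lower left corner `z` -/
def Qd (M : ℝ) (z : ℂ) : Set ℂ := {w | w.re ∈ Ico z.re (z.re + M) ∧ w.im ∈ Ico z.im (z.im + M)}

/-- the points of `[0,M]²` at distance at least `c` of the boundary -/
def inner (c M : ℝ) : Set ℂ := {w | w.re ∈ Icc c (M - c) ∧ w.im ∈ Icc c (M - c)}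

/-- the elongation gap of a pair of neighbours at difference `z` -/
noncomputable def gap (z : ℂ) : ℝ := phi (π / 6) - phi (al z)

/-- the lattice point `(a,b)` of the triangular lattice of spacing `√3`, rotated by `θ`, translated
by `z₀` -/
noncomputable def lat (z₀ : ℂ) (θ : ℝ) (a b : ℤ) : ℂ :=
  z₀ + (√3 : ℝ) * Complex.exp (θ * Complex.I) * (a + b * om)

end Pool.Agent.H96.CP
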