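import Pool.Agent.H96.CP.Stm2

/-!
# Project CP: assembly
-/

set_option autoImplicit false

open Real Set MeasureTheory Metric Filter Topology
open scoped ENNReal Nat ComplexConjugate

namespace Pool.Agent.H96.CP

open Pool.Agent.H96.HD Pool.Agent.K4H96.HS

/-- free energy per particle in the units -/
def FE (v f : ℝ) : Prop := ∀ (N : ℕ → ℕ) (L : ℕ → ℝ), Tendsto N atTop atTop →
    Tendsto L atTop atTop → Tendsto (fun k => L k ^ 2 / N k) atTop (𝓝 v) →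
    (∀ᶠ k in atTop, 0 < (volume (Kc (N k) (L k))).toReal) ∧
      Tendsto (fun k => Real.log ((volume (Kc (N k) (L k))).toReal / ((N k)! : ℕ)) / N k) atTop
        (𝓝 (-f))

theorem FE_of_free {a v f : ℝ} (ha : 0 < a) (h : IsFreeEnergy a v f) :
    FE (3 * v / (4 * a ^ 2)) (f + Real.log (4 * a ^ 2 / 3)) := by
  intro N L hN hL hLN
  have h3 : (0:ℝ) < √3 := by positivity
  have h33 : √3 ^ 2 = 3 := Real.sq_sqrt (by norm_num)
  have hc : 0 < 2 * a / √3 := by positivity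
  have hL' : Tendsto (fun k => 2 * a / √3 * L k) atTop atTop := hL.const_mul_atTop hc
  have hLN' : Tendsto (fun k => (2 * a / √3 * L k) ^ 2 / N k) atTop (𝓝 v) := by
    have h1 := hLN.const_mul (4 * a ^ 2 / 3)
    have e : 4 * a ^ 2 / 3 * (3 * v / (4 * a ^ 2)) = v := by field_simp
    rw [e] at h1
    refine h1.congr fun k => ?_
    rw [mul_pow, div_pow, h33]
    ring
  obtain ⟨hp, hl⟩ := h N _ hN hL' hLN'
  have hZ : ∀ k, Z a (2 * a / √3 * L k) (N k) =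
      (4 * a ^ 2 / 3) ^ (N k) * ((volume (Kc (N k) (L k))).toReal / ((N k)! : ℕ)) := by
    intro k
    rw [Z_eq, vol_conf_two (N k) ha, mul_div_cancel_left₀ _ hc.ne']
    ring
  constructor
  · filter_upwards [hp] with k hk
    rw [hZ k] at hk
    have h5 : (0:ℝ) < (4 * a ^ 2 / 3) ^ (N k) := by positivity
    have h6 := (mul_pos_iff_of_pos_left h5).mp hk
    have hf : (0:ℝ) < ((N k)! : ℕ) := by positivity
    exact (div_pos_iff_of_pos_right hf).mp h6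
  · have h7 := (hl.neg).sub_const (Real.log (4 * a ^ 2 / 3))
    rw [show -(f + Real.log (4 * a ^ 2 / 3)) = -f - Real.log (4 * a ^ 2 / 3) by ring]
    refine h7.congr' ?_
    filter_upwards [hp, hN.eventually_gt_atTop 0] with k hk hNk
    have hNk' : (0:ℝ) < N k := by exact_mod_cast hNk
    rw [hZ k] at hk ⊢
    have h5 : (0:ℝ) < (4 * a ^ 2 / 3) ^ (N k) := by positivity
    have h6 := (mul_pos_iff_of_pos_left h5).mp hk
    rw [Real.log_mul h5.ne' h6.ne', Real.log_pow]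
    field_simp
    ring

theorem FE_unique {v f f' : ℝ} (hv : 0 < v) (h : FE v f) (h' : FE v f') : f = f' := by
  obtain ⟨h1, h2, h3⟩ := seq_tendsto hv
  have e : Tendsto (fun k : ℕ => √(v * ((k + 1 : ℕ) : ℝ)) ^ 2 / ((k + 1 : ℕ) : ℝ)) atTop (𝓝 v) := by
    simp only [h3]
    exact tendsto_const_nhds
  have := tendsto_nhds_unique (h _ _ h1 h2 e).2 (h' _ _ h1 h2 e).2
  linarith

theorem two_sub_log {t : ℝ} (ht : 0 < t) : 2 - 2 * Real.log 2 ≤ t - 2 * Real.log t := by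
  have h := Real.log_le_sub_one_of_pos (show 0 < t / 2 by positivity)
  rw [Real.log_div ht.ne' two_ne_zero] at h
  linarith

theorem lower (hlow : S_low) (m : ℕ) (c₁ c₂ : ℂ) (κ ε : ℝ) (hm : 1 ≤ m) (hc : PosA c₁ c₂)
    (hε : 0 < ε) (hε1 : ε ≤ 1) (hmε : 2 / ((m : ℝ) + 1) * Real.log (16 / ε ^ 2) ≤ ε)
    (hκ : ENNReal.ofReal (Real.exp (κ * ((m : ℝ) + 1) ^ 2)) ≤ vb m (aff c₁ c₂)) :
    ∃ y₀ : ℝ, 0 < y₀ ∧ ∀ y, 0 < y → y < y₀ → ∀ f, FE (v0 + y) f →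
      2 * Real.log y + 2 - 2 * Real.log 2 + (κ - ar c₁ c₂) - 5 * ε ≤ -f := by
  obtain ⟨y₀, hy₀, H⟩ := hlow m c₁ c₂ κ ε ε hm hc hε hε1 hε hκ
  refine ⟨y₀, hy₀, fun y hy hyy f hf => ?_⟩
  have har : 0 ≤ ar c₁ c₂ := by
    obtain ⟨h1, h2, h3⟩ := hc
    unfold ar
    linarith
  have hv0 : 0 < v0 := by unfold v0; positivity
  have hv : 0 < v0 + y := by linarith
  set q : ℝ := 2 * Real.log (y / (ar c₁ c₂ + 3 * ε)) + κ -
      2 / ((m : ℝ) + 1) * Real.log (16 / ε ^ 2) - ε with hq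
  have hN : Tendsto (fun K : ℕ => K * (m + 1) ^ 2) atTop atTop :=
    Filter.tendsto_id.atTop_mul_const' (by positivity)
  have hL : Tendsto (fun K : ℕ => √((v0 + y) * ((K * (m + 1) ^ 2 : ℕ) : ℝ))) atTop atTop :=
    tendsto_sqrt_atTop.comp ((tendsto_natCast_atTop_atTop.comp hN).const_mul_atTop hv)
  have hLN : Tendsto (fun K : ℕ => √((v0 + y) * ((K * (m + 1) ^ 2 : ℕ) : ℝ)) ^ 2 /
      ((K * (m + 1) ^ 2 : ℕ) : ℝ)) atTop (𝓝 (v0 + y)) := by
    refine tendsto_const_nhds.congr' ?_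
    filter_upwards [eventually_gt_atTop 0] with K hK
    have : (0:ℝ) < ((K * (m + 1) ^ 2 : ℕ) : ℝ) := by
      have : 0 < K * (m + 1) ^ 2 := by positivity
      exact_mod_cast this
    rw [Real.sq_sqrt (by positivity)]
    field_simp
  obtain ⟨hpos, hlim⟩ := hf _ _ hN hL hLN
  have hev : ∀ᶠ K : ℕ in atTop, q ≤ Real.log ((volume (Kc (K * (m + 1) ^ 2)
      (√((v0 + y) * ((K * (m + 1) ^ 2 : ℕ) : ℝ))))).toReal / ((K * (m + 1) ^ 2)! : ℕ)) /
        ((K * (m + 1) ^ 2 : ℕ) : ℝ) := by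
    filter_upwards [H y hy hyy, hpos, eventually_gt_atTop 0] with K hK hKp hK0
    have hN' : (0:ℝ) < ((K * (m + 1) ^ 2 : ℕ) : ℝ) := by
      have : 0 < K * (m + 1) ^ 2 := by positivity
      exact_mod_cast this
    have hfac : (0:ℝ) < ((K * (m + 1) ^ 2)! : ℕ) := by positivity
    have h1 := hK _ rfl
    have h2 := ENNReal.toReal_mono (by
      intro h
      rw [h] at hKp
      simp at hKp) h1
    rw [ENNReal.toReal_ofReal (by positivity)] at h2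
    rw [le_div_iff₀ hN']
    have h3 : Real.exp (((K * (m + 1) ^ 2 : ℕ) : ℝ) * q) ≤
        (volume (Kc (K * (m + 1) ^ 2) (√((v0 + y) * ((K * (m + 1) ^ 2 : ℕ) : ℝ))))).toReal /
          ((K * (m + 1) ^ 2)! : ℕ) := by
      rw [le_div_iff₀ hfac, mul_comm]
      exact h2
    have h4 := Real.log_le_log (Real.exp_pos _) h3
    rw [Real.log_exp] at h4
    linarith
  have h5 := ge_of_tendsto hlim hev
  have h6 := two_sub_log (t := ar c₁ c₂ + 3 * ε) (by positivity)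
  have h7 : q = 2 * Real.log y - 2 * Real.log (ar c₁ c₂ + 3 * ε) + κ -
      2 / ((m : ℝ) + 1) * Real.log (16 / ε ^ 2) - ε := by
    rw [hq, Real.log_div hy.ne' (by positivity)]
    ring
  linarith

theorem upper (hlin : S_lin) (hsq : S_sq) (hbox : S_box) : ∃ C : ℝ, 1 ≤ C ∧ ∀ ε : ℝ, 0 < ε →
    ε ≤ 1 → ∃ Y : ℝ, 0 < Y ∧ ∀ y, 0 < y → y < Y → ∃ (m : ℕ) (c₁ c₂ : ℂ) (κ : ℝ), 1 ≤ m ∧
      PosA c₁ c₂ ∧ 2 / ((m : ℝ) + 1) * Real.log (16 / ε ^ 2) ≤ ε ∧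
      ENNReal.ofReal (Real.exp (κ * ((m : ℝ) + 1) ^ 2)) ≤ vb m (aff c₁ c₂) ∧
      |κ - ar c₁ c₂| ≤ C ∧ ∀ f, FE (v0 + y) f →
        -f ≤ 2 * Real.log y + 2 - 2 * Real.log 2 + (κ - ar c₁ c₂) + 20 * ε := by
  obtain ⟨C, hC, hlin⟩ := hlin
  refine ⟨C, hC, fun ε hε hε1 => ?_⟩
  obtain ⟨m, n₀, hm, hmε, hlin⟩ := hlin ε hε hε1
  have hsq' := hsq ε (C + 1) hε (by linarith)
  have hv0 : 0 < v0 := by unfold v0; positivity
  have hv03 : v0 ≤ 3 := by
    unfold v0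
    have : √3 ≤ 2 := by
      rw [Real.sqrt_le_left (by norm_num)]
      norm_num
    linarith
  have hlog := Real.tendsto_log_atTop
  have hM : Tendsto MM atTop atTop := (tendsto_pow_atTop (by norm_num)).comp hlog
  have hM2 : ∀ᶠ s in atTop, Real.log (4 * (MM s + 1) ^ 2 + 1) ≤ ε * MM s ^ 2 := by
    have h1 : ∀ᶠ M : ℝ in atTop, Real.log (4 * (M + 1) ^ 2 + 1) ≤ ε * M ^ 2 := by
      have h2 : Tendsto (fun M : ℝ => Real.log M / M) atTop (𝓝 0) :=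
        Real.isLittleO_log_id_atTop.tendsto_div_nhds_zero
      filter_upwards [h2.eventually_le_const (show (0:ℝ) < ε / 6 by positivity),
        eventually_ge_atTop (10:ℝ)] with M h3 h4
      have h5 : Real.log M ≤ ε / 6 * M := by
        rwa [div_le_iff₀ (by linarith)] at h3
      have h6 : 4 * (M + 1) ^ 2 + 1 ≤ M ^ 3 := by nlinarith [pow_pos (show 0 < M by linarith) 2]
      have h7 := Real.log_le_log (by positivity) h6
      rw [Real.log_pow] at h7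
      push_cast at h7
      nlinarith
    exact hM.eventually h1
  have hnn : Tendsto nn atTop atTop := by
    refine tendsto_nat_ceil_atTop.comp ?_
    exact (tendsto_pow_atTop (by norm_num)).comp hlog
  obtain ⟨s₁, hs₁⟩ := Filter.eventually_atTop.mp (hsq'.and (hM2.and ((hM.eventually_ge_atTop 1).and
    ((hnn.eventually_ge_atTop n₀).and (eventually_ge_atTop (1:ℝ))))))
  refine ⟨min 1 (2 / (max s₁ 1)), by positivity, fun y hy hyy => ?_⟩
  have hy1 : y < 1 := lt_of_lt_of_le hyy (min_le_left _ _)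
  have hy2 : y < 2 / (max s₁ 1) := lt_of_lt_of_le hyy (min_le_right _ _)
  set s := 2 / y with hs
  have hss : s₁ ≤ s := by
    rw [hs, le_div_iff₀ hy]
    rw [lt_div_iff₀ (by positivity)] at hy2
    have := le_max_left s₁ 1
    nlinarith
  obtain ⟨hq1, hq2, hq3, hq4, hq5⟩ := hs₁ s hss
  have hs0 : 0 < s := by linarith
  have hlogs : Real.log s ≤ √(nn s) := by
    have h1 : Real.log s ^ 2 ≤ (nn s : ℝ) := Nat.le_ceil _
    exact Real.le_sqrt_of_sq_le h1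
  obtain ⟨c₁, c₂, κ, hc, hκ, hκC, hZ⟩ := hlin (nn s) hq4 s hq5 hlogs
  refine ⟨m, c₁, c₂, κ, hm, hc, hmε, hκ, hκC, fun f hf => ?_⟩
  set M := MM s with hMd
  set β := κ - ar c₁ c₂ + ε with hβ
  have hβB : |β| ≤ C + 1 := by
    rw [abs_le] at hκC ⊢
    constructor <;> linarith [hκC.1, hκC.2]
  have hZR := hq1 β hβB hZ
  set Q := ε * M ^ 2 + Real.log (4 * (M + 1) ^ 2 + 1) with hQ
  have hQ2 : Q ≤ 2 * ε * M ^ 2 := by rw [hQ]; linarith
  have hQ0 : 0 ≤ Q := by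
    have h1 : 0 ≤ Real.log (4 * (M + 1) ^ 2 + 1) := Real.log_nonneg (by nlinarith [sq_nonneg (M + 1)])
    have h2 : 0 ≤ ε * M ^ 2 := by positivity
    linarith
  have hM0 : 0 < M := by linarith
  have hbox' := hbox s M (β - 2 * Real.log s) (ε * M ^ 2) hs0.le hq3 (by positivity) hZR
  have hv : 0 < v0 + y := by linarith
  obtain ⟨h1, h2, h3⟩ := seq_tendsto hv
  have hLN : Tendsto (fun k : ℕ => √((v0 + y) * ((k + 1 : ℕ) : ℝ)) ^ 2 / ((k + 1 : ℕ) : ℝ)) atTop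
      (𝓝 (v0 + y)) := by
    simp only [h3]
    exact tendsto_const_nhds
  obtain ⟨hpos, hlim⟩ := hf _ _ h1 h2 hLN
  -- the majorant
  have hev : ∀ᶠ k : ℕ in atTop, Real.log ((volume (Kc (k + 1)
      (√((v0 + y) * ((k + 1 : ℕ) : ℝ))))).toReal / ((k + 1)! : ℕ)) / ((k + 1 : ℕ) : ℝ) ≤
      s * ((√((v0 + y) * ((k + 1 : ℕ) : ℝ)) + 2) ^ 2 / ((k + 1 : ℕ) : ℝ) - v0) +
        (β - 2 * Real.log s) +
        (√((v0 + y) * ((k + 1 : ℕ) : ℝ)) / M + 1) ^ 2 / ((k + 1 : ℕ) : ℝ) * Q := by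
    filter_upwards [hpos] with k hk
    set L := √((v0 + y) * ((k + 1 : ℕ) : ℝ)) with hL
    have hL0 : 0 ≤ L := Real.sqrt_nonneg _
    set K := ⌊L / M⌋₊ + 1 with hK
    have hKL : L < K * M := by
      have := Nat.lt_floor_add_one (L / M)
      rw [div_lt_iff₀ hM0] at this
      rw [hK]
      push_cast
      exact this
    have hK2 : (K : ℝ) ≤ L / M + 1 := by
      rw [hK]
      push_cast
      have := Nat.floor_le (show 0 ≤ L / M by positivity)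
      linarith
    have hN' : (0:ℝ) < ((k + 1 : ℕ) : ℝ) := by positivity
    have hfac : (0:ℝ) < ((k + 1)! : ℕ) := by positivity
    have h4 := ENNReal.toReal_mono ENNReal.ofReal_ne_top (hbox' K (k + 1) L hL0 hKL)
    rw [ENNReal.toReal_ofReal (by positivity)] at h4
    have h5 : (volume (Kc (k + 1) L)).toReal / ((k + 1)! : ℕ) ≤
        Real.exp (s * ((L + 2) ^ 2 - ((k + 1 : ℕ) : ℝ) * v0) +
          ((k + 1 : ℕ) : ℝ) * (β - 2 * Real.log s) + (K : ℝ) ^ 2 * Q) := by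
      rw [div_le_iff₀ hfac, mul_comm]
      exact h4
    have h6 := Real.log_le_log (by positivity) h5
    rw [Real.log_exp] at h6
    rw [div_le_iff₀ hN']
    have h7 : (K : ℝ) ^ 2 * Q ≤ (L / M + 1) ^ 2 * Q := by gcongr
    have h8 : (s * ((L + 2) ^ 2 / ((k + 1 : ℕ) : ℝ) - v0) + (β - 2 * Real.log s) +
        (L / M + 1) ^ 2 / ((k + 1 : ℕ) : ℝ) * Q) * ((k + 1 : ℕ) : ℝ) =
        s * ((L + 2) ^ 2 - ((k + 1 : ℕ) : ℝ) * v0) +
          ((k + 1 : ℕ) : ℝ) * (β - 2 * Real.log s) + (L / M + 1) ^ 2 * Q := by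
      field_simp
    rw [h8]
    linarith
  have hsq : ∀ c d : ℝ, Tendsto (fun k : ℕ => (√((v0 + y) * ((k + 1 : ℕ) : ℝ)) * c + d) ^ 2 /
      ((k + 1 : ℕ) : ℝ)) atTop (𝓝 ((v0 + y) * c ^ 2)) := by
    intro c d
    have h4 : Tendsto (fun k : ℕ => d / √((k + 1 : ℕ) : ℝ)) atTop (𝓝 0) :=
      (tendsto_sqrt_atTop.comp (tendsto_natCast_atTop_atTop.comp h1)).const_div_atTop _
    have h5 := ((tendsto_const_nhds (x := √(v0 + y) * c)).add h4).pow 2
    rw [add_zero, mul_pow, Real.sq_sqrt hv.le] at h5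
    refine h5.congr fun k => ?_
    have hN' : (0:ℝ) < ((k + 1 : ℕ) : ℝ) := by positivity
    have hsN : 0 < √((k + 1 : ℕ) : ℝ) := Real.sqrt_pos.mpr hN'
    have e : ((k + 1 : ℕ) : ℝ) = √((k + 1 : ℕ) : ℝ) ^ 2 := (Real.sq_sqrt hN'.le).symm
    have e' : √((v0 + y) * ((k + 1 : ℕ) : ℝ)) = √(v0 + y) * √((k + 1 : ℕ) : ℝ) :=
      Real.sqrt_mul hv.le _
    rw [e']
    set S := √((k + 1 : ℕ) : ℝ) with hS
    rw [e]
    field_simp
  have hl1 := ((hsq 1 2).sub_const v0).const_mul s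
  have hl2 := (hsq (1 / M) 1).mul_const Q
  have hl3 := (hl1.add_const (β - 2 * Real.log s)).add hl2
  have h9 := le_of_tendsto_of_tendsto hlim hl3 (hev.mono fun k hk => by
    refine hk.trans (le_of_eq ?_)
    simp only [mul_one, mul_one_div])
  have e1 : s * ((v0 + y) * 1 ^ 2 - v0) = 2 := by
    rw [hs]
    field_simp
    ring
  have e2 : Real.log s = Real.log 2 - Real.log y := by rw [hs, Real.log_div two_ne_zero hy.ne']
  have e3 : (v0 + y) * (1 / M) ^ 2 * Q ≤ 8 * ε := by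
    have h10 : (v0 + y) * (1 / M) ^ 2 * Q ≤ (v0 + y) * (1 / M) ^ 2 * (2 * ε * M ^ 2) := by gcongr
    have h11 : (v0 + y) * (1 / M) ^ 2 * (2 * ε * M ^ 2) = (v0 + y) * (2 * ε) := by
      field_simp
    rw [h11] at h10
    nlinarith
  rw [e1, e2] at h9
  linarith

/-- a function which almost decreases converges -/
theorem exists_limit (G : ℝ → ℝ) (B : ℝ) (hB : ∀ᶠ y in 𝓝[>] (0:ℝ), |G y| ≤ B)
    (h : ∀ ε : ℝ, 0 < ε → ∀ᶠ y in 𝓝[>] (0:ℝ), ∀ᶠ y' in 𝓝[>] (0:ℝ), G y' ≤ G y + ε) :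
    ∃ c : ℝ, Tendsto G (𝓝[>] (0:ℝ)) (𝓝 c) := by
  have hb1 : IsBoundedUnder (· ≤ ·) (𝓝[>] (0:ℝ)) G :=
    ⟨B, by simpa using hB.mono fun y hy => (abs_le.mp hy).2⟩
  have hb2 : IsBoundedUnder (· ≥ ·) (𝓝[>] (0:ℝ)) G :=
    ⟨-B, by simpa using hB.mono fun y hy => (abs_le.mp hy).1⟩
  refine ⟨liminf G (𝓝[>] (0:ℝ)), tendsto_of_le_liminf_of_limsup_le le_rfl ?_ hb1 hb2⟩
  refine le_of_forall_pos_le_add fun ε hε => ?_
  have h1 : ∃ᶠ y in 𝓝[>] (0:ℝ), G y < liminf G (𝓝[>] (0:ℝ)) + ε / 2 :=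
    frequently_lt_of_liminf_lt (hb1.isCoboundedUnder_ge) (by linarith)
  obtain ⟨y, hy1, hy2⟩ := (h1.and_eventually (h (ε / 2) (by positivity))).exists
  refine limsup_le_of_le (hb2.isCoboundedUnder_le) ?_
  filter_upwards [hy2] with y' hy'
  linarith

/-- the limit in the units -/
theorem main_unit (hlin : S_lin) (hsq : S_sq) (hbox : S_box) (hlow : S_low) (f : ℝ → ℝ)
    (hf : ∀ᶠ y in 𝓝[>] (0:ℝ), FE (v0 + y) (f y)) :
    ∃ c : ℝ, Tendsto (fun y => f y + 2 * Real.log y) (𝓝[>] (0:ℝ)) (𝓝 c) := by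
  obtain ⟨C, hC, hup⟩ := upper hlin hsq hbox
  have key : ∀ ε : ℝ, 0 < ε → ε ≤ 1 → ∀ᶠ y in 𝓝[>] (0:ℝ), ∃ β : ℝ, |β| ≤ C ∧
      -(2 - 2 * Real.log 2) - β - 20 * ε ≤ f y + 2 * Real.log y ∧
      ∀ᶠ y' in 𝓝[>] (0:ℝ), f y' + 2 * Real.log y' ≤ -(2 - 2 * Real.log 2) - β + 5 * ε := by
    intro ε hε hε1
    obtain ⟨Y, hY, hup⟩ := hup ε hε hε1
    filter_upwards [hf, Ioo_mem_nhdsGT hY] with y hy hyY
    obtain ⟨m, c₁, c₂, κ, hm, hc, hmε, hκ, hκC, hup⟩ := hup y hyY.1 hyY.2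
    refine ⟨κ - ar c₁ c₂, hκC, by linarith [hup _ hy], ?_⟩
    obtain ⟨y₀, hy₀, hlo⟩ := lower hlow m c₁ c₂ κ ε hm hc hε hε1 hmε hκ
    filter_upwards [hf, Ioo_mem_nhdsGT hy₀] with y' hy' hyY'
    linarith [hlo y' hyY'.1 hyY'.2 _ hy']
  refine exists_limit _ (C + 30) ?_ fun ε hε => ?_
  · have h1 := key 1 one_pos le_rfl
    obtain ⟨y₁, β₁, hβ₁, -, h2⟩ := h1.exists
    have hl0 : 0 < Real.log 2 := Real.log_pos (by norm_num)
    have hl1 : Real.log 2 < 1 := by linarith [Real.log_two_lt_d9]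
    filter_upwards [h1, h2] with y ⟨β, hβ, h3, _⟩ h4
    rw [abs_le] at hβ hβ₁ ⊢
    constructor <;> linarith [hβ.1, hβ.2, hβ₁.1, hβ₁.2]
  · set ε' := min 1 (ε / 25) with hε'
    have h0 : 0 < ε' := by positivity
    have h1 : ε' ≤ 1 := min_le_left _ _
    have h2 : ε' ≤ ε / 25 := min_le_right _ _
    filter_upwards [key ε' h0 h1] with y ⟨β, hβ, h3, h4⟩
    filter_upwards [h4] with y' h5
    linarith

end Pool.Agent.H96.CP
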