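import Pool.Agent.H96.CP.Fin
import Pool.Agent.H96.CP.Stm6

/-!
# Project CP: local crystalline order, assembly in the units
-/

set_option autoImplicit false

open Real Set MeasureTheory Metric Filter Topology
open scoped ENNReal Nat ComplexConjugate

namespace Pool.Agent.H96.CP

open Pool.Agent.H96.HD Pool.Agent.K4H96.HS

theorem upperp (hlin : S_lin) (hsqp : S_sqp) (hboxp : S_boxp) : ∀ ε : ℝ, 0 < ε →
    ε ≤ 1 → ∃ Y : ℝ, 0 < Y ∧ ∀ y, 0 < y → y < Y → ∃ (m : ℕ) (c₁ c₂ : ℂ) (κ : ℝ), 1 ≤ m ∧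
      PosA c₁ c₂ ∧ 2 / ((m : ℝ) + 1) * Real.log (16 / ε ^ 2) ≤ ε ∧
      ENNReal.ofReal (Real.exp (κ * ((m : ℝ) + 1) ^ 2)) ≤ vb m (aff c₁ c₂) ∧
      ∀ τ : ℝ, 0 ≤ τ → Real.log (2 / y) ^ 10 ≤ 2 / y * τ → ∀ (N : ℕ → ℕ) (L : ℕ → ℝ),
        Tendsto N atTop atTop → Tendsto L atTop atTop →
        Tendsto (fun k => L k ^ 2 / N k) atTop (𝓝 (v0 + y)) → ∀ᶠ k in atTop,
        ∫⁻ x in Kc (N k) (L k), ENNReal.ofReal (Real.exp (2 / y / 2 * Dl τ x)) ≤
          ENNReal.ofReal (((N k)! : ℕ) * Real.exp (N k * (2 * Real.log y + 2 - 2 * Real.log 2 +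
            (κ - ar c₁ c₂) + 20 * ε))) := by
  obtain ⟨C, hC, hlin⟩ := hlin
  intro ε hε hε1
  obtain ⟨m, n₀, hm, hmε, hlin⟩ := hlin ε hε hε1
  have hsq' := hsqp ε (C + 1) hε (by linarith)
  have hv0 : 0 < v0 := by unfold v0; positivity
  have hv03 : v0 ≤ 3 := by
    unfold v0
    have : √3 ≤ 2 := by
      rw [Real.sqrt_le_left (by norm_num)]
      norm_num
    linarith
  have hlog := Real.tendsto_log_atTop
  have hM : Tendsto MM atTop atTop := (tendsto_pow_atTop (by norm_num)).comp hlog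
  have hM2 : ∀ᶠ s in atTop, Real.log (4 * (MM s + 1) ^ 2 + 1) ≤ ε * MM s ^ 2 := by
    have h1 : ∀ᶠ M : ℝ in atTop, Real.log (4 * (M + 1) ^ 2 + 1) ≤ ε * M ^ 2 := by
      have h2 : Tendsto (fun M : ℝ => Real.log M / M) atTop (𝓝 0) :=
        Real.isLittleO_log_id_atTop.tendsto_div_nhds_zero
      filter_upwards [h2.eventually_le_const (show (0:ℝ) < ε / 6 by positivity),
        eventually_ge_atTop (10:ℝ)] with M h3 h4
      have h5 : Real.log M ≤ ε / 6 * M := by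
        rwa [div_le_iff₀ (by linarith)] at h3
      have h6 : 4 * (M + 1) ^ 2 + 1 ≤ M ^ 3 := by nlinarith [pow_pos (show 0 < M by linarith) 2]
      have h7 := Real.log_le_log (by positivity) h6
      rw [Real.log_pow] at h7
      push_cast at h7
      nlinarith
    exact hM.eventually h1
  have hnn : Tendsto nn atTop atTop := by
    refine tendsto_nat_ceil_atTop.comp ?_
    exact (tendsto_pow_atTop (by norm_num)).comp hlog
  obtain ⟨s₁, hs₁⟩ := Filter.eventually_atTop.mp (hsq'.and (hM2.and ((hM.eventually_ge_atTop 1).and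
    ((hnn.eventually_ge_atTop n₀).and (eventually_ge_atTop (1:ℝ))))))
  refine ⟨min 1 (2 / (max s₁ 1)), by positivity, fun y hy hyy => ?_⟩
  have hy1 : y < 1 := lt_of_lt_of_le hyy (min_le_left _ _)
  have hy2 : y < 2 / (max s₁ 1) := lt_of_lt_of_le hyy (min_le_right _ _)
  set s := 2 / y with hs
  have hss : s₁ ≤ s := by
    rw [hs, le_div_iff₀ hy]
    rw [lt_div_iff₀ (by positivity)] at hy2
    have := le_max_left s₁ 1
    nlinarith
  obtain ⟨hq1, hq2, hq3, hq4, hq5⟩ := hs₁ s hss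
  have hs0 : 0 < s := by linarith
  have hlogs : Real.log s ≤ √(nn s) := by
    have h1 : Real.log s ^ 2 ≤ (nn s : ℝ) := Nat.le_ceil _
    exact Real.le_sqrt_of_sq_le h1
  obtain ⟨c₁, c₂, κ, hc, hκ, hκC, hZ⟩ := hlin (nn s) hq4 s hq5 hlogs
  refine ⟨m, c₁, c₂, κ, hm, hc, hmε, hκ, fun τ hτ0 hτ N L hN hL hLN => ?_⟩
  set M := MM s with hMd
  set β := κ - ar c₁ c₂ + ε with hβ
  have hβB : |β| ≤ C + 1 := by
    rw [abs_le] at hκC ⊢
    constructor <;> linarith [hκC.1, hκC.2]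
  have hZR := fun k => hq1 β hβB hZ k τ hτ
  set Q := ε * M ^ 2 + Real.log (4 * (M + 1) ^ 2 + 1) with hQ
  have hQ2 : Q ≤ 2 * ε * M ^ 2 := by rw [hQ]; linarith
  have hQ0 : 0 ≤ Q := by
    have h1 : 0 ≤ Real.log (4 * (M + 1) ^ 2 + 1) := Real.log_nonneg (by nlinarith [sq_nonneg (M + 1)])
    have h2 : 0 ≤ ε * M ^ 2 := by positivity
    linarith
  have hM0 : 0 < M := by linarith
  have hbox' := hboxp s τ M (β - 2 * Real.log s) (ε * M ^ 2) hs0.le hτ0 hq3 (by positivity) hZR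
  have hv : 0 < v0 + y := by linarith
  have hN0 : ∀ᶠ k in atTop, 0 < N k := hN.eventually_gt_atTop 0
  -- limits
  have hsqr : Tendsto (fun k => L k / √(N k)) atTop (𝓝 √(v0 + y)) := by
    have h1 := (Real.continuous_sqrt.tendsto (v0 + y)).comp hLN
    refine h1.congr' ?_
    filter_upwards [hL.eventually_ge_atTop 0] with k hk
    simp only [Function.comp_apply]
    rw [Real.sqrt_div (sq_nonneg _), Real.sqrt_sq hk]
  have hsN : Tendsto (fun k => √(N k : ℝ)) atTop atTop :=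
    tendsto_sqrt_atTop.comp (tendsto_natCast_atTop_atTop.comp hN)
  have hsq : ∀ c d : ℝ, Tendsto (fun k => (L k * c + d) ^ 2 / (N k : ℝ)) atTop
      (𝓝 ((v0 + y) * c ^ 2)) := by
    intro c d
    have h4 : Tendsto (fun k => d / √(N k : ℝ)) atTop (𝓝 0) := hsN.const_div_atTop _
    have h5 := ((hsqr.mul_const c).add h4).pow 2
    rw [add_zero, mul_pow, Real.sq_sqrt hv.le] at h5
    refine h5.congr' ?_
    filter_upwards [hN0] with k hk
    have hN' : (0:ℝ) < N k := by exact_mod_cast hk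
    have hsN' : 0 < √(N k : ℝ) := Real.sqrt_pos.mpr hN'
    have e : (N k : ℝ) = √(N k : ℝ) ^ 2 := (Real.sq_sqrt hN'.le).symm
    set S := √(N k : ℝ) with hS
    rw [e]
    field_simp
  have hl1 := ((hsq 1 2).sub_const v0).const_mul s
  have hl2 := (hsq (1 / M) 1).mul_const Q
  have hl3 := (hl1.add_const (β - 2 * Real.log s)).add hl2
  have e1 : s * ((v0 + y) * 1 ^ 2 - v0) = 2 := by
    rw [hs]
    field_simp
    ring
  have e2 : Real.log s = Real.log 2 - Real.log y := by rw [hs, Real.log_div two_ne_zero hy.ne']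
  have e3 : (v0 + y) * (1 / M) ^ 2 * Q ≤ 8 * ε := by
    have h10 : (v0 + y) * (1 / M) ^ 2 * Q ≤ (v0 + y) * (1 / M) ^ 2 * (2 * ε * M ^ 2) := by gcongr
    have h11 : (v0 + y) * (1 / M) ^ 2 * (2 * ε * M ^ 2) = (v0 + y) * (2 * ε) := by
      field_simp
    rw [h11] at h10
    nlinarith
  rw [e1, e2] at hl3
  have hl4 := hl3.eventually_le_const (show 2 + (β - 2 * (Real.log 2 - Real.log y)) +
      (v0 + y) * (1 / M) ^ 2 * Q < 2 * Real.log y + 2 - 2 * Real.log 2 + (κ - ar c₁ c₂) + 20 * ε by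
    rw [hβ]
    linarith)
  filter_upwards [hl4, hN0, hL.eventually_ge_atTop 0] with k hk hNk hLk
  have hN' : (0:ℝ) < N k := by exact_mod_cast hNk
  set K := ⌊L k / M⌋₊ + 1 with hK
  have hKL : L k < K * M := by
    have := Nat.lt_floor_add_one (L k / M)
    rw [div_lt_iff₀ hM0] at this
    rw [hK]
    push_cast
    exact this
  have hK2 : (K : ℝ) ≤ L k / M + 1 := by
    rw [hK]
    push_cast
    have := Nat.floor_le (show 0 ≤ L k / M by positivity)
    linarith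
  refine (hbox' K (N k) (L k) hLk hKL).trans (ENNReal.ofReal_le_ofReal ?_)
  have hfac : (0:ℝ) ≤ ((N k)! : ℕ) := by positivity
  refine mul_le_mul_of_nonneg_left (Real.exp_le_exp.mpr ?_) hfac
  have h7 : (K : ℝ) ^ 2 * Q ≤ (L k / M + 1) ^ 2 * Q := by gcongr
  have h8 : (s * ((L k * 1 + 2) ^ 2 / (N k : ℝ) - v0) + (β - 2 * (Real.log 2 - Real.log y)) +
      (L k * (1 / M) + 1) ^ 2 / (N k : ℝ) * Q) * (N k : ℝ) =
      s * ((L k + 2) ^ 2 - (N k : ℝ) * v0) +
        (N k : ℝ) * (β - 2 * (Real.log 2 - Real.log y)) + (L k / M + 1) ^ 2 * Q := by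
    field_simp
  have h9 := mul_le_mul_of_nonneg_right hk hN'.le
  rw [h8] at h9
  rw [e2]
  linarith

/-- the limit of `f + 2 log`, with existence -/
theorem limit_unit (hlin : S_lin) (hsq : S_sq) (hbox : S_box) (hlow : S_low)
    (hex : ∀ y : ℝ, 0 < y → ∃ f, FE (v0 + y) f) :
    ∃ (f : ℝ → ℝ) (c : ℝ), (∀ y, 0 < y → FE (v0 + y) (f y)) ∧
      Tendsto (fun y => f y + 2 * Real.log y) (𝓝[>] (0:ℝ)) (𝓝 c) := by
  choose! f hf using hex
  obtain ⟨c, hc⟩ := main_unit hlin hsq hbox hlow f (by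
    filter_upwards [self_mem_nhdsWithin] with y hy using hf y hy)
  exact ⟨f, c, hf, hc⟩

theorem continuous_defect {N : ℕ} (i : Fin N) : Continuous fun x : Fin N → ℂ => defect x i := by
  unfold defect al phi
  fun_prop

theorem measurable_Dl (τ : ℝ) (N : ℕ) : Measurable fun x : Fin N → ℂ => Dl τ x := by
  unfold Dl
  refine Finset.measurable_sum _ fun i _ => Measurable.ite ?_ (continuous_defect i).measurable
    measurable_const
  exact measurableSet_lt measurable_const (continuous_defect i).measurable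

/-- **Large defects are rare**, in the units. -/
theorem rare_unit (hlin : S_lin) (hsq : S_sq) (hbox : S_box) (hlow : S_low)
    (hex : ∀ y : ℝ, 0 < y → ∃ f, FE (v0 + y) f) (hsqp : S_sqp) (hboxp : S_boxp) :
    ∀ η : ℝ, 0 < η → η ≤ 1 → ∃ Y : ℝ, 0 < Y ∧ ∀ y, 0 < y → y < Y → ∀ τ : ℝ, 0 ≤ τ →
      Real.log (2 / y) ^ 10 ≤ 2 / y * τ → ∀ (N : ℕ → ℕ) (L : ℕ → ℝ),
        Tendsto N atTop atTop → Tendsto L atTop atTop →
        Tendsto (fun k => L k ^ 2 / N k) atTop (𝓝 (v0 + y)) → ∀ᶠ k in atTop,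
        0 < volume (Kc (N k) (L k)) ∧
        volume {x | x ∈ Kc (N k) (L k) ∧ η * y * N k ≤ Dl τ x} ≤
          ENNReal.ofReal (Real.exp (-(η / 2 * N k))) * volume (Kc (N k) (L k)) := by
  intro η hη hη1
  obtain ⟨f, c, hf, hc⟩ := limit_unit hlin hsq hbox hlow hex
  set ε := η / 60 with hε
  have hε0 : 0 < ε := by positivity
  have hε1 : ε ≤ 1 := by linarith
  obtain ⟨Y, hY, hup⟩ := upperp hlin hsqp hboxp ε hε0 hε1
  have hev := hc.eventually (Ioo_mem_nhds (show c - ε < c by linarith) (show c < c + ε by linarith))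
  obtain ⟨Y', hY', hY'2⟩ := (mem_nhdsGT_iff_exists_Ioo_subset).mp hev
  refine ⟨min Y Y', lt_min hY hY', fun y hy hyy τ hτ0 hτ N L hN hL hLN => ?_⟩
  have hyY : y < Y := lt_of_lt_of_le hyy (min_le_left _ _)
  have hyY' : y < Y' := lt_of_lt_of_le hyy (min_le_right _ _)
  obtain ⟨m, c₁, c₂, κ, hm, hcc, hmε, hκ, hup⟩ := hup y hy hyY
  have hfy : f y + 2 * Real.log y < c + ε := (hY'2 ⟨hy, hyY'⟩).2
  -- the constant
  obtain ⟨y₀, hy₀, hlo⟩ := lower hlow m c₁ c₂ κ ε hm hcc hε0 hε1 hmε hκ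
  have hβ : (κ - ar c₁ c₂) + 2 - 2 * Real.log 2 ≤ -c + 5 * ε := by
    have h1 : ∀ᶠ y' in 𝓝[>] (0:ℝ), f y' + 2 * Real.log y' ≤
        -((κ - ar c₁ c₂) + 2 - 2 * Real.log 2) + 5 * ε := by
      filter_upwards [Ioo_mem_nhdsGT hy₀] with y' hy'
      linarith [hlo y' hy'.1 hy'.2 _ (hf y' hy'.1)]
    have := le_of_tendsto hc h1
    linarith
  obtain ⟨hpos, hlim⟩ := hf y hy N L hN hL hLN
  have hl := hlim.eventually_const_le (show -f y - ε < -f y by linarith)
  filter_upwards [hup τ hτ0 hτ N L hN hL hLN, hpos, hl, hN.eventually_gt_atTop 0] with k h1 h2 h3 h4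
  have hN' : (0:ℝ) < N k := by exact_mod_cast h4
  have hfac : (0:ℝ) < ((N k)! : ℕ) := by positivity
  set V := volume (Kc (N k) (L k)) with hV
  have hVtop : V ≠ ⊤ := fun h => by rw [h] at h2; simp at h2
  have hV0 : 0 < V := by
    rcases eq_or_ne V 0 with h | h
    · rw [h] at h2; simp at h2
    · exact pos_iff_ne_zero.mpr h
  refine ⟨hV0, ?_⟩
  -- lower bound of `V`
  rw [le_div_iff₀ hN'] at h3
  have h5 : ((N k)! : ℕ) * Real.exp (N k * (-f y - ε)) ≤ V.toReal := by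
    have h6 : Real.exp (N k * (-f y - ε)) ≤ V.toReal / ((N k)! : ℕ) := by
      rw [← Real.le_log_iff_exp_le (by positivity)]
      linarith
    rw [le_div_iff₀ hfac] at h6
    linarith
  -- Markov
  set B := {x | x ∈ Kc (N k) (L k) ∧ η * y * N k ≤ Dl τ x} with hB
  have h7 : ENNReal.ofReal (Real.exp (η * N k)) * volume B ≤
      ∫⁻ x in Kc (N k) (L k), ENNReal.ofReal (Real.exp (2 / y / 2 * Dl τ x)) := by
    have h8 : Measurable fun x : Fin (N k) → ℂ =>
        ENNReal.ofReal (Real.exp (2 / y / 2 * Dl τ x)) :=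
      (Real.measurable_exp.comp ((measurable_Dl τ (N k)).const_mul _)).ennreal_ofReal
    rw [← setLIntegral_const]
    refine le_trans ?_ (lintegral_mono_set (show B ⊆ Kc (N k) (L k) from fun x hx => hx.1))
    refine setLIntegral_mono h8 ?_
    rintro x ⟨hx1, hx2⟩
    refine ENNReal.ofReal_le_ofReal (Real.exp_le_exp.mpr ?_)
    have : 2 / y / 2 * (η * y * N k) = η * N k := by field_simp
    rw [← this]
    gcongr
  have h9 := h7.trans h1
  -- compare
  have h10 : ((N k)! : ℕ) * Real.exp (N k * (2 * Real.log y + 2 - 2 * Real.log 2 +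
      (κ - ar c₁ c₂) + 20 * ε)) ≤ Real.exp (η / 2 * N k) * V.toReal := by
    refine le_trans ?_ (mul_le_mul_of_nonneg_left h5 (Real.exp_nonneg _))
    rw [mul_left_comm, ← Real.exp_add]
    refine mul_le_mul_of_nonneg_left (Real.exp_le_exp.mpr ?_) hfac.le
    have h11 : 2 * Real.log y + 2 - 2 * Real.log 2 + (κ - ar c₁ c₂) + 20 * ε ≤
        η / 2 + (-f y - ε) := by
      rw [hε] at *
      linarith
    nlinarith
  have h12 : ENNReal.ofReal (Real.exp (η * N k)) * volume B ≤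
      ENNReal.ofReal (Real.exp (η / 2 * N k)) * V := by
    refine h9.trans ((ENNReal.ofReal_le_ofReal h10).trans (le_of_eq ?_))
    rw [ENNReal.ofReal_mul (Real.exp_nonneg _), ENNReal.ofReal_toReal hVtop]
  have h13 : volume B ≤ (ENNReal.ofReal (Real.exp (η * N k)))⁻¹ *
      (ENNReal.ofReal (Real.exp (η / 2 * N k)) * V) := by
    rw [← ENNReal.mul_le_iff_le_inv (by
      simp only [ne_eq, ENNReal.ofReal_eq_zero, not_le]; positivity) ENNReal.ofReal_ne_top]
    exact h12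
  refine h13.trans (le_of_eq ?_)
  rw [← mul_assoc, ← ENNReal.ofReal_inv_of_pos (Real.exp_pos _), ← Real.exp_neg,
    ← ENNReal.ofReal_mul (Real.exp_nonneg _), ← Real.exp_add]
  congr 3
  ring

end Pool.Agent.H96.CP
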