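import Pool.Agent.H96.CP.Fin3

/-!
# Project CP: local crystalline order, scaling
-/

set_option autoImplicit false

open Real Set MeasureTheory Metric Filter Topology
open scoped ENNReal Nat ComplexConjugate Pointwise

namespace Pool.Agent.H96.CP

open Pool.Agent.H96.HD

/-- configurations of `N` disks of radius `a` with centres in `[0, L]²` -/
def Cf2 (a L : ℝ) (N : ℕ) : Set (Fin N → ℂ) :=
  {x | (∀ i, (x i).re ∈ Icc 0 L ∧ (x i).im ∈ Icc 0 L) ∧ ∀ i j, i ≠ j → 2 * a ≤ ‖x i - x j‖}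

/-- hexagonal neighbourhood up to `t a` -/
def Rg (a t : ℝ) {N : ℕ} (x : Fin N → ℂ) (i : Fin N) : Prop :=
  ∃ (j : Fin 6 → Fin N) (z : ℂ), Function.Injective j ∧ ‖z‖ = 2 * a ∧
    (∀ m : Fin 6, ‖x (j m) - x i - Complex.exp (m * (π / 3) * Complex.I) * z‖ ≤ t * a) ∧
    ∀ k : Fin N, k ≠ i → (∀ m, k ≠ j m) → 3.2 * a ≤ ‖x k - x i‖

open Classical in
/-- the number of the disks without such a neighbourhood -/
noncomputable def irr (a t : ℝ) {N : ℕ} (x : Fin N → ℂ) : ℕ :=
  (Finset.univ.filter fun i => ¬ Rg a t x i).card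

theorem log_small (C ε : ℝ) (hC : 1 ≤ C) (hε : 0 < ε) (hε1 : ε < 1) :
    ∀ᶠ y in 𝓝[>] (0:ℝ), Real.log (2 / y) ^ 10 ≤
      2 / y * (√3 / 2 * (4 / 3 * y) ^ (1 - ε) / C) := by
  have h1 : ∀ᶠ s : ℝ in atTop, Real.log s ^ 10 ≤ √3 / 2 / C * s ^ ε := by
    have h2 := (isLittleO_log_rpow_rpow_atTop (10:ℝ) hε).bound
      (show (0:ℝ) < √3 / 2 / C by positivity)
    filter_upwards [h2, eventually_ge_atTop (1:ℝ)] with s h3 h4
    have h5 : 0 ≤ Real.log s := Real.log_nonneg h4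
    rw [Real.norm_of_nonneg (by positivity), Real.norm_of_nonneg (by positivity)] at h3
    have h6 : Real.log s ^ (10:ℝ) = Real.log s ^ 10 := by
      rw [← Real.rpow_natCast]
      norm_num
    rwa [h6] at h3
  have h2 : Tendsto (fun y : ℝ => 2 / y) (𝓝[>] (0:ℝ)) atTop := by
    simp only [div_eq_mul_inv]
    exact tendsto_inv_nhdsGT_zero.const_mul_atTop two_pos
  filter_upwards [h2.eventually h1, self_mem_nhdsWithin, Ioo_mem_nhdsGT (show (0:ℝ) < 1 by norm_num)]
    with y h3 hy hy1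
  have hy0 : (0:ℝ) < y := hy
  refine h3.trans ?_
  have h4 : (2 / y) ^ ε ≤ 2 / y * (4 / 3 * y) ^ (1 - ε) := by
    have h5 : (2 / y) ^ ε = 2 / y * (2 / y) ^ (-(1 - ε)) := by
      rw [← Real.rpow_one_add' (by positivity) (by linarith)]
      congr 1
      ring
    rw [h5]
    refine mul_le_mul_of_nonneg_left ?_ (by positivity)
    rw [Real.rpow_neg (by positivity), ← Real.inv_rpow (by positivity)]
    refine Real.rpow_le_rpow (by positivity) ?_ (by linarith)
    rw [inv_div]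
    linarith
  calc √3 / 2 / C * (2 / y) ^ ε ≤ √3 / 2 / C * (2 / y * (4 / 3 * y) ^ (1 - ε)) := by gcongr
    _ = 2 / y * (√3 / 2 * (4 / 3 * y) ^ (1 - ε) / C) := by ring

theorem order (hlin : S_lin) (hsq : S_sq) (hbox : S_box) (hlow : S_low)
    (hex : ∀ y : ℝ, 0 < y → ∃ f, FE (v0 + y) f) (hsqp : S_sqp) (hboxp : S_boxp) (hreg : S_reg) :
    ∃ c : ℝ, 0 < c ∧ ∀ ε : ℝ, 0 < ε → ε < 1 → ∃ δ : ℝ, 0 < δ ∧ ∀ a v : ℝ, 0 < a →
      2 * √3 * a ^ 2 < v → v < 2 * √3 * a ^ 2 + δ * a ^ 2 → ∀ (N : ℕ → ℕ) (L : ℕ → ℝ),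
      Tendsto N atTop atTop → Tendsto L atTop atTop →
      Tendsto (fun k => L k ^ 2 / N k) atTop (𝓝 v) → ∀ᶠ k in atTop,
      0 < volume (Cf2 a (L k) (N k)) ∧
      volume {x ∈ Cf2 a (L k) (N k) | ∃ t : ℝ, ((v - 2 * √3 * a ^ 2) / a ^ 2) ^ (1 - ε) ≤ t ∧
        t ≤ 1 ∧ ε * ((v - 2 * √3 * a ^ 2) / a ^ 2) * N k < t * irr a t x} ≤
        ENNReal.ofReal (Real.exp (-(c * ε * N k))) * volume (Cf2 a (L k) (N k)) := by
  obtain ⟨C, hC, hreg⟩ := hreg
  have hC0 : 0 < C := by linarith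
  refine ⟨1 / (2 * C), by positivity, fun ε hε hε1 => ?_⟩
  have hη : 0 < ε / C := by positivity
  have hη1 : ε / C ≤ 1 := by
    rw [div_le_one hC0]
    linarith
  obtain ⟨Y, hY, hrare⟩ := rare_unit hlin hsq hbox hlow hex hsqp hboxp (ε / C) hη hη1
  obtain ⟨Y', hY', hY'2⟩ := (mem_nhdsGT_iff_exists_Ioo_subset).mp (log_small C ε hC hε hε1)
  refine ⟨min (4 / 3 * Y) (4 / 3 * Y'), by
    have : 0 < Y' := hY'
    positivity, fun a v ha hv hvδ N L hN hL hLN => ?_⟩
  set ξ := (v - 2 * √3 * a ^ 2) / a ^ 2 with hξ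
  have ha2 : 0 < a ^ 2 := by positivity
  have hξ0 : 0 < ξ := div_pos (by linarith) ha2
  have hξδ : ξ < min (4 / 3 * Y) (4 / 3 * Y') := by
    rw [hξ, div_lt_iff₀ ha2]
    linarith
  set y := 3 / 4 * ξ with hy
  have hy0 : 0 < y := by positivity
  have hyY : y < Y := by
    have := lt_of_lt_of_le hξδ (min_le_left _ _)
    linarith
  have hyY' : y < Y' := by
    have := lt_of_lt_of_le hξδ (min_le_right _ _)
    linarith
  have hξy : ξ = 4 / 3 * y := by rw [hy]; ring
  set τ := √3 / 2 * (4 / 3 * y) ^ (1 - ε) / C with hτ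
  have hτ0 : 0 ≤ τ := by positivity
  have hlog := hY'2 ⟨hy0, hyY'⟩
  have h3 : (0:ℝ) < √3 := by positivity
  have h33 : √3 * √3 = 3 := Real.mul_self_sqrt (by norm_num)
  have h33' : √3 ^ 2 = 3 := Real.sq_sqrt (by norm_num)
  set r := 2 * a / √3 with hr
  have hr0 : 0 < r := by positivity
  have hr2 : r ^ 2 = 4 / 3 * a ^ 2 := by
    rw [hr, div_pow, h33']
    ring
  have hr3 : r * √3 = 2 * a := by
    rw [hr]
    field_simp
  have hL' : Tendsto (fun k => L k / r) atTop atTop := hL.atTop_div_const hr0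
  have hLN' : Tendsto (fun k => (L k / r) ^ 2 / N k) atTop (𝓝 (v0 + y)) := by
    have h1 := hLN.div_const (r ^ 2)
    have e : v / r ^ 2 = v0 + y := by
      have h5 : v = ξ * a ^ 2 + 2 * √3 * a ^ 2 := by
        rw [hξ]
        field_simp
        ring
      rw [hr2, h5, hy]
      unfold v0
      field_simp
      ring
    rw [e] at h1
    refine h1.congr fun k => ?_
    have e3 : (L k / r) ^ 2 = L k ^ 2 / r ^ 2 := div_pow _ _ _
    rw [e3, div_right_comm]
  have hrk := hrare y hy0 hyY τ hτ0 hlog N (fun k => L k / r) hN hL' hLN'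
  filter_upwards [hrk] with k hk
  set n := N k with hn
  set ℓ := L k with hℓ
  set E := ENNReal.ofReal |r ^ Module.finrank ℝ (Fin n → ℂ)| with hE
  have hE0 : E ≠ 0 := by
    rw [hE, ne_eq, ENNReal.ofReal_eq_zero, not_le]
    positivity
  have hscale : ∀ S : Set (Fin n → ℂ), volume S = E * volume {x : Fin n → ℂ | r • x ∈ S} := by
    intro S
    rw [hE, ← Measure.addHaar_smul]
    congr 1
    ext x
    rw [Set.mem_smul_set_iff_inv_smul_mem₀ hr0.ne', mem_ofPred_eq, smul_inv_smul₀ hr0.ne']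
  have hK : {x : Fin n → ℂ | r • x ∈ Cf2 a ℓ n} = Kc n (ℓ / r) := by
    ext x
    simp only [Cf2, Kc, Sq, mem_ofPred_eq, Pi.smul_apply, mem_Icc, Complex.real_smul,
      Complex.re_ofReal_mul, Complex.im_ofReal_mul]
    have e1 : ∀ u : ℝ, 0 ≤ r * u ∧ r * u ≤ ℓ ↔ 0 ≤ u ∧ u ≤ ℓ / r := by
      intro u
      rw [le_div_iff₀ hr0, mul_comm u r, mul_nonneg_iff_of_pos_left hr0]
    have e2 : ∀ i j, 2 * a ≤ ‖(r : ℂ) * x i - (r : ℂ) * x j‖ ↔ √3 ≤ ‖x i - x j‖ := by
      intro i j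
      rw [← mul_sub, norm_mul, Complex.norm_real, Real.norm_of_nonneg hr0.le, ← hr3,
        mul_le_mul_iff_right₀ hr0]
    simp only [e1, e2]
  rw [hscale (Cf2 a ℓ n), hK]
  refine ⟨?_, ?_⟩
  · exact ENNReal.mul_pos hE0 hk.1.ne'
  rw [hscale {x ∈ Cf2 a ℓ n | _}, mul_left_comm]
  gcongr
  refine (measure_mono ?_).trans (hk.2.trans (le_of_eq ?_))
  swap
  · congr 3
    field_simp
  intro x hx
  obtain ⟨hx1, t, ht1, ht2, ht3⟩ := hx
  have hx2 : x ∈ Kc n (ℓ / r) := by
    rw [← hK]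
    exact hx1
  refine ⟨hx2, ?_⟩
  have ht0 : 0 < t := lt_of_lt_of_le (by positivity) ht1
  -- irregular disks have large defects
  have hirr : ∀ i, ¬ Rg a t (r • x) i → √3 / 2 * t / C < defect x i := by
    intro i hi
    by_contra hcon
    push Not at hcon
    apply hi
    have h5 : C * defect x i ≤ √3 / 2 * t := by
      rw [le_div_iff₀ hC0] at hcon
      linarith
    have h6 : √3 / 2 * t ≤ 1 := by
      have : √3 ≤ 2 := by nlinarith
      nlinarith
    obtain ⟨j, z, hj, hz, h7, h8⟩ := hreg n (ℓ / r) (√3 / 2 * t) x i hx2 h5 h6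
    refine ⟨j, r * z, hj, ?_, fun m => ?_, fun k hk hkj => ?_⟩
    · rw [norm_mul, Complex.norm_real, Real.norm_of_nonneg hr0.le, hz, hr3]
    · have e : (r • x) (j m) - (r • x) i - Complex.exp (m * (π / 3) * Complex.I) * (r * z) =
          r * (x (j m) - x i - Complex.exp (m * (π / 3) * Complex.I) * z) := by
        simp only [Pi.smul_apply, Complex.real_smul]
        ring
      rw [e, norm_mul, Complex.norm_real, Real.norm_of_nonneg hr0.le]
      calc r * _ ≤ r * (√3 / 2 * t) := by gcongr; exact h7 m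
        _ = t * a := by
          rw [show r * (√3 / 2 * t) = r * √3 * (t / 2) by ring, hr3]
          ring
    · have e : (r • x) k - (r • x) i = r * (x k - x i) := by
        simp only [Pi.smul_apply, Complex.real_smul]
        ring
      rw [e, norm_mul, Complex.norm_real, Real.norm_of_nonneg hr0.le]
      calc 3.2 * a = r * (1.6 * √3) := by
            rw [show r * (1.6 * √3) = 1.6 * (r * √3) by ring, hr3]
            ring
        _ ≤ _ := by gcongr; exact h8 k hk hkj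
  have hDl : (irr a t (r • x) : ℝ) * (√3 / 2 * t / C) ≤ Dl τ x := by
    classical
    unfold Dl irr
    rw [← nsmul_eq_mul, ← Finset.sum_const]
    have hτt : τ ≤ √3 / 2 * t / C := by
      rw [hτ]
      gcongr
      rw [← hξy]
      exact ht1
    calc ∑ i ∈ Finset.univ.filter (fun i => ¬ Rg a t (r • x) i), √3 / 2 * t / C
        ≤ ∑ i ∈ Finset.univ.filter (fun i => ¬ Rg a t (r • x) i),
          (if τ < defect x i then defect x i else 0) := by
          refine Finset.sum_le_sum fun i hi => ?_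
          have h9 := hirr i (Finset.mem_filter.mp hi).2
          rw [if_pos (lt_of_le_of_lt hτt h9)]
          exact h9.le
      _ ≤ ∑ i, (if τ < defect x i then defect x i else 0) := by
          refine Finset.sum_le_univ_sum_of_nonneg fun i => ?_
          split_ifs with h
          · exact hτ0.trans h.le
          · exact le_rfl
  refine le_trans ?_ hDl
  have h10 : ε * ξ * n ≤ t * irr a t (r • x) := ht3.le
  have h11 : (irr a t (r • x) : ℝ) * (√3 / 2 * t / C) = √3 / 2 / C * (t * irr a t (r • x)) := by ring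
  rw [h11]
  have h12 : ε / C * y * n ≤ √3 / 2 / C * (ε * ξ * n) := by
    rw [hξy]
    have h13 : (1:ℝ) ≤ √3 / 2 * (4 / 3) := by nlinarith
    have h14 : √3 / 2 / C * (ε * (4 / 3 * y) * n) = (√3 / 2 * (4 / 3)) * (ε / C * y * n) := by ring
    rw [h14]
    exact le_mul_of_one_le_left (by positivity) h13
  exact h12.trans (by gcongr)

end Pool.Agent.H96.CP
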