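import Pool.Agent.H96.CP.HoleFin
import Pool.Agent.H61.CP.Cheb

/-!
# Project CP3: adding disks one by one
-/

set_option autoImplicit false

open Real Set MeasureTheory Metric Filter Topology
open scoped ENNReal Nat ComplexConjugate

namespace Pool.Agent.H96.CP

/-- as long as the area of the new discs of exclusion is less than the hole area, one can add disks -/
theorem greedy {a L : ℝ} (ha : 0 < a) {N : ℕ} (x : Fin N → ℂ) :
    ∀ n : ℕ, (n : ℝ) * (4 * π * a ^ 2) ≤ FA a L x →
      ∃ y : Fin n → ℂ, y ∈ CC a L (Fin n) ∧ ∀ i j, 2 * a ≤ ‖y j - x i‖ := by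
  have hC : 0 < 4 * π * a ^ 2 := by positivity
  intro n
  induction n with
  | zero => intro _; exact ⟨fun i => i.elim0, ⟨fun i => i.elim0, fun i => i.elim0⟩, fun _ j => j.elim0⟩
  | succ n ih =>
    intro hn
    push_cast at hn
    obtain ⟨y, hy, hyx⟩ := ih (by nlinarith)
    obtain ⟨z, hz, hzy⟩ : ∃ z ∈ AA a L x, ∀ j, 2 * a ≤ ‖z - y j‖ := by
      by_contra hcon
      push Not at hcon
      have hsub : AA a L x ⊆ ⋃ j, ball (y j) (2 * a) := by
        intro z hz
        obtain ⟨j, hj⟩ := hcon z hz
        exact mem_iUnion.mpr ⟨j, by rwa [mem_ball, dist_eq_norm]⟩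
      have hb : ∀ j : Fin n, volume (ball (y j) (2 * a)) = ENNReal.ofReal (4 * π * a ^ 2) := by
        intro j
        rw [Complex.volume_ball]
        rw [show (NNReal.pi : ℝ≥0∞) = ENNReal.ofReal π from
            (ENNReal.ofReal_eq_coe_nnreal pi_pos.le).symm,
          ← ENNReal.ofReal_pow (by positivity), ← ENNReal.ofReal_mul (by positivity)]
        congr 1
        ring
      have h1 : volume (AA a L x) ≤ ENNReal.ofReal (n * (4 * π * a ^ 2)) := by
        refine (measure_mono hsub).trans ((measure_iUnion_fintype_le _ _).trans ?_)
        simp_rw [hb]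
        rw [Finset.sum_const, Finset.card_univ, Fintype.card_fin, nsmul_eq_mul,
          ENNReal.ofReal_mul (p := (n : ℝ)) (by positivity), ENNReal.ofReal_natCast]
      have h2 : FA a L x ≤ n * (4 * π * a ^ 2) := by
        have := ENNReal.toReal_mono ENNReal.ofReal_ne_top h1
        rwa [ENNReal.toReal_ofReal (by positivity)] at this
      linarith
    refine ⟨Fin.snoc y z, ⟨?_, ?_⟩, ?_⟩
    · intro i
      induction i using Fin.lastCases with
      | last => simpa using hz.1
      | cast i => simpa using hy.1 i
    · intro i j hij
      induction i using Fin.lastCases with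
      | last =>
        induction j using Fin.lastCases with
        | last => exact absurd rfl hij
        | cast j => simpa using hzy j
      | cast i =>
        induction j using Fin.lastCases with
        | last => simpa [norm_sub_rev] using hzy i
        | cast j => simpa using hy.2 i j (fun h => hij (by rw [h]))
    · intro i j
      induction j using Fin.lastCases with
      | last => simpa using hz.2 i
      | cast j => simpa using hyx i j

end Pool.Agent.H96.CP
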