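import Pool.Agent.H96.CP.Self
import Pool.Agent.H61.CP.Ratio
import Pool.Agent.H61.CP.CVZ

/-!
# Project CP3: typical configurations
-/

set_option autoImplicit false

open Real Set MeasureTheory Metric Filter Topology
open scoped ENNReal Nat ComplexConjugate

namespace Pool.Agent.H96.CP

open Pool.Agent.H96.HD

/-- the mean of the available area -/
theorem mean_FA (a L : ℝ) (N : ℕ) : ∫ x in CC a L (Fin N), FA a L x = CV a L (N + 1) := by
  have h1 := fub a L N 1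
  have hm : Measurable (fun x : Fin N → ℂ => volume (Prod.mk x ⁻¹' TT a L N 1)) :=
    measurable_measure_prodMk_left (TT_meas a L N 1)
  simp_rw [one_eq] at h1 hm
  have hfin : ∀ x : Fin N → ℂ, volume (AA a L x) < ∞ := by
    intro x
    have h2 : AA a L x ⊆ closedBall 0 (2 * |L|) := by
      intro y hy
      rw [mem_closedBall, dist_zero_right]
      obtain ⟨⟨h2, h3⟩, -⟩ := hy
      refine (Complex.norm_le_abs_re_add_abs_im _).trans ?_
      rw [abs_of_nonneg h2.1, abs_of_nonneg h3.1]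
      have := le_abs_self L
      linarith [h2.2, h3.2]
    exact (measure_mono h2).trans_lt measure_closedBall_lt_top
  unfold CV
  rw [h1, ← integral_toReal hm.aemeasurable (Eventually.of_forall hfin)]
  rfl

/-- the bad configurations are rare -/
theorem bad_small (hR : S_ratio) (hV : S_CVZ) (hch : S_cheb) {a v : ℝ} {f : ℝ → ℝ} (ha : 0 < a)
    (hv : 2 * √3 * a ^ 2 < v)
    (hfe : ∀ v : ℝ, 2 * √3 * a ^ 2 < v → IsFreeEnergy a v (f v))
    (hcvx : ConvexOn ℝ (Ioi (2 * √3 * a ^ 2)) f)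
    {N : ℕ → ℕ} {L : ℕ → ℝ} (hN : Tendsto N atTop atTop) (hL : Tendsto L atTop atTop)
    (hLN : Tendsto (fun k => L k ^ 2 / N k) atTop (𝓝 v)) {ε τ : ℝ} (hε : 0 < ε) (hτ : 0 < τ) :
    ∀ᶠ k in atTop, 0 < CV a (L k) (N k) ∧ 0 < CV a (L k) (N k + 1) ∧
      (volume {x : Fin (N k) → ℂ | x ∈ CC a (L k) (Fin (N k)) ∧
        ε * (CV a (L k) (N k + 1) / CV a (L k) (N k)) ≤
          |FA a (L k) x - CV a (L k) (N k + 1) / CV a (L k) (N k)|}).toReal ≤
        τ * CV a (L k) (N k) := by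
  obtain ⟨q, hq, hql⟩ := exists_q hR hV ha hv hfe hcvx
  have h1 := self hR hV f a v (τ * ε ^ 2 / 2) ha hv (by positivity) hfe hcvx N L hN hL hLN
  have hC : 0 < 4 * π * a ^ 2 := by positivity
  have hLsq : Tendsto (fun k => L k ^ 2) atTop atTop := (tendsto_pow_atTop two_ne_zero).comp hL
  filter_upwards [h1, hql N L hN hL hLN, hL.eventually_gt_atTop 0,
    hLsq.eventually_ge_atTop (4 * π * a ^ 2 / (q * (τ * ε ^ 2 / 2)))] with k g1 g2 g3 g4
  obtain ⟨c0, c1, c2⟩ := g1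
  refine ⟨c0, c1, ?_⟩
  have hc := hch a (L k) ε (N k) ha g3.le hε c0
  set V := (volume {x : Fin (N k) → ℂ | x ∈ CC a (L k) (Fin (N k)) ∧
        ε * (CV a (L k) (N k + 1) / CV a (L k) (N k)) ≤
          |FA a (L k) x - CV a (L k) (N k + 1) / CV a (L k) (N k)|}).toReal
  set A := CV a (L k) (N k)
  set B := CV a (L k) (N k + 1)
  set D := CV a (L k) (N k + 2)
  rw [div_le_iff₀ (by positivity)] at g4
  -- `C A ≤ (τ ε² / 2) B`
  have h5 : 4 * π * a ^ 2 * A ≤ τ * ε ^ 2 / 2 * B := by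
    have e1 : 4 * π * a ^ 2 * A ≤ L k ^ 2 * (q * (τ * ε ^ 2 / 2)) * A :=
      mul_le_mul_of_nonneg_right g4 c0.le
    have e2 : τ * ε ^ 2 / 2 * (q * L k ^ 2 * A) ≤ τ * ε ^ 2 / 2 * B :=
      mul_le_mul_of_nonneg_left g2.2 (by positivity)
    linarith
  have hεB : 0 < (ε * (B / A)) ^ 2 := by positivity
  have h6 : (D + 4 * π * a ^ 2 * B - B ^ 2 / A) ≤ τ * A * (ε * (B / A)) ^ 2 := by
    have e3 : τ * A * (ε * (B / A)) ^ 2 = τ * ε ^ 2 * B ^ 2 / A := by
      field_simp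
    rw [e3, ← sub_nonneg]
    have e4 : τ * ε ^ 2 * B ^ 2 / A - (D + 4 * π * a ^ 2 * B - B ^ 2 / A) =
        (((1 + τ * ε ^ 2 / 2) * B ^ 2 - D * A) + (τ * ε ^ 2 / 2 * B - 4 * π * a ^ 2 * A) * B) / A := by
      field_simp
      ring
    rw [e4]
    exact div_nonneg (add_nonneg (by linarith) (mul_nonneg (by linarith) c1.le)) c0.le
  exact le_of_mul_le_mul_right (hc.trans h6) hεB

/-- events containing the complement of the bad event have probability tending to one -/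
theorem prob_tendsto {a : ℝ} {N : ℕ → ℕ} {L : ℕ → ℝ}
    (E : ∀ k : ℕ, Set (Fin (N k) → ℂ))
    (h : ∀ τ : ℝ, 0 < τ → ∀ᶠ k in atTop, 0 < CV a (L k) (N k) ∧
      (volume (CC a (L k) (Fin (N k)) \ E k)).toReal ≤ τ * CV a (L k) (N k)) :
    Tendsto (fun k => (volume (CC a (L k) (Fin (N k)) ∩ E k)).toReal /
      (volume (CC a (L k) (Fin (N k)))).toReal) atTop (𝓝 1) := by
  rw [Metric.tendsto_atTop']
  intro τ hτ
  obtain ⟨n, hn⟩ := eventually_atTop.mp (h (τ / 2) (half_pos hτ))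
  refine ⟨n, fun k hk => ?_⟩
  obtain ⟨h1, h2⟩ := hn k hk.le
  have hf := CC_fin a (L k) (N k)
  have h3 : (volume (CC a (L k) (Fin (N k)))).toReal ≤
      (volume (CC a (L k) (Fin (N k)) ∩ E k)).toReal +
        (volume (CC a (L k) (Fin (N k)) \ E k)).toReal := by
    rw [← ENNReal.toReal_add (measure_ne_top_of_subset inter_subset_left hf)
      (measure_ne_top_of_subset diff_subset hf)]
    refine ENNReal.toReal_mono ?_ ?_
    · exact ENNReal.add_ne_top.mpr ⟨measure_ne_top_of_subset inter_subset_left hf,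
        measure_ne_top_of_subset diff_subset hf⟩
    · refine le_trans (measure_mono ?_) (measure_union_le _ _)
      rw [inter_union_diff]
  have h4 : (volume (CC a (L k) (Fin (N k)) ∩ E k)).toReal ≤
      (volume (CC a (L k) (Fin (N k)))).toReal :=
    ENNReal.toReal_mono hf (measure_mono inter_subset_left)
  change 0 < (volume (CC a (L k) (Fin (N k)))).toReal at h1
  change _ ≤ τ / 2 * (volume (CC a (L k) (Fin (N k)))).toReal at h2
  rw [Real.dist_eq, abs_sub_comm, abs_of_nonneg (sub_nonneg.mpr ((div_le_one h1).mpr h4)),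
    one_sub_div h1.ne', div_lt_iff₀ h1]
  nlinarith

/-- self-averaging -/
theorem typ1 (hR : S_ratio) (hV : S_CVZ) (hch : S_cheb) {a v : ℝ} {f : ℝ → ℝ} (ha : 0 < a)
    (hv : 2 * √3 * a ^ 2 < v)
    (hfe : ∀ v : ℝ, 2 * √3 * a ^ 2 < v → IsFreeEnergy a v (f v))
    (hcvx : ConvexOn ℝ (Ioi (2 * √3 * a ^ 2)) f)
    {N : ℕ → ℕ} {L : ℕ → ℝ} (hN : Tendsto N atTop atTop) (hL : Tendsto L atTop atTop)
    (hLN : Tendsto (fun k => L k ^ 2 / N k) atTop (𝓝 v)) {ε : ℝ} (hε : 0 < ε) :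
    Tendsto (fun k => (volume (CC a (L k) (Fin (N k)) ∩ {x | |FA a (L k) x /
      (CV a (L k) (N k + 1) / CV a (L k) (N k)) - 1| ≤ ε})).toReal /
      (volume (CC a (L k) (Fin (N k)))).toReal) atTop (𝓝 1) := by
  refine prob_tendsto (fun k => {x | |FA a (L k) x /
      (CV a (L k) (N k + 1) / CV a (L k) (N k)) - 1| ≤ ε}) ?_
  intro τ hτ
  filter_upwards [bad_small hR hV hch ha hv hfe hcvx hN hL hLN hε hτ] with k hk
  obtain ⟨h1, h2, h3⟩ := hk
  refine ⟨h1, le_trans ?_ h3⟩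
  refine ENNReal.toReal_mono ?_ (measure_mono ?_)
  · exact measure_ne_top_of_subset (fun x hx => hx.1) (CC_fin a (L k) (N k))
  · rintro x ⟨hx1, hx2⟩
    refine ⟨hx1, ?_⟩
    have hm : 0 < CV a (L k) (N k + 1) / CV a (L k) (N k) := div_pos h2 h1
    have hx3 : ε < |FA a (L k) x / (CV a (L k) (N k + 1) / CV a (L k) (N k)) - 1| := not_le.mp hx2
    rw [div_sub_one hm.ne', abs_div, abs_of_pos hm, lt_div_iff₀ hm] at hx3
    exact hx3.le

/-- typical configurations near close packing -/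
theorem typ2 (hR : S_ratio) (hV : S_CVZ) (hch : S_cheb) {a c : ℝ} {f : ℝ → ℝ} (ha : 0 < a)
    (hfe : ∀ v : ℝ, 2 * √3 * a ^ 2 < v → IsFreeEnergy a v (f v))
    (hcvx : ConvexOn ℝ (Ioi (2 * √3 * a ^ 2)) f)
    (hlim : Tendsto (fun v => f v + 2 * Real.log ((v - 2 * √3 * a ^ 2) / a))
      (𝓝[>] (2 * √3 * a ^ 2)) (𝓝 c)) {ε : ℝ} (hε : 0 < ε) :
    ∃ δ : ℝ, 0 < δ ∧ ∀ v : ℝ, 2 * √3 * a ^ 2 < v → v < 2 * √3 * a ^ 2 + δ →
    ∀ (N : ℕ → ℕ) (L : ℕ → ℝ), Tendsto N atTop atTop → Tendsto L atTop atTop →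
    Tendsto (fun k => L k ^ 2 / N k) atTop (𝓝 v) →
    Tendsto (fun k => (volume (CC a (L k) (Fin (N k)) ∩ {x |
      Real.exp (-(4 * √3 * a ^ 2 + ε) / (v - 2 * √3 * a ^ 2)) ≤ FA a (L k) x / L k ^ 2 ∧
      FA a (L k) x / L k ^ 2 ≤ Real.exp (-(4 * √3 * a ^ 2 - ε) / (v - 2 * √3 * a ^ 2))})).toReal /
      (volume (CC a (L k) (Fin (N k)))).toReal) atTop (𝓝 1) := by
  obtain ⟨δ, hδ, hS⟩ := holes hR hV f a c ha hfe (hcvx.subset Ioo_subset_Ioi_self (convex_Ioo _ _))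
    hlim (ε / 2) (half_pos hε)
  set v0 := 2 * √3 * a ^ 2 with hv0
  refine ⟨min δ (ε / 4), by positivity, ?_⟩
  intro v hv hvδ N L hN hL hLN
  have hx : 0 < v - v0 := by linarith
  have hd1 : v < v0 + δ := lt_of_lt_of_le hvδ (by linarith [min_le_left δ (ε / 4)])
  have hd2 : v - v0 < ε / 4 := by linarith [min_le_right δ (ε / 4)]
  have hS' := hS v hv hd1 N L hN hL hLN
  refine prob_tendsto (fun k => {x | Real.exp (-(4 * √3 * a ^ 2 + ε) / (v - v0)) ≤ FA a (L k) x / L k ^ 2 ∧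
      FA a (L k) x / L k ^ 2 ≤ Real.exp (-(4 * √3 * a ^ 2 - ε) / (v - v0))}) ?_
  intro τ hτ
  have he2 : 2 ≤ ε / 2 / (v - v0) := by
    rw [le_div_iff₀ hx]
    linarith
  have hexp2 : 2 ≤ Real.exp (ε / 2 / (v - v0)) := by
    have := Real.add_one_le_exp (ε / 2 / (v - v0))
    linarith
  have hE1 : Real.exp (-(4 * √3 * a ^ 2 + ε) / (v - v0)) ≤
      Real.exp (-(4 * √3 * a ^ 2 + ε / 2) / (v - v0)) / 2 := by
    rw [le_div_iff₀ two_pos]
    have e : -(4 * √3 * a ^ 2 + ε / 2) / (v - v0) =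
        -(4 * √3 * a ^ 2 + ε) / (v - v0) + ε / 2 / (v - v0) := by ring
    rw [e, Real.exp_add]
    exact mul_le_mul_of_nonneg_left hexp2 (Real.exp_pos _).le
  have hE2 : Real.exp (-(4 * √3 * a ^ 2 - ε / 2) / (v - v0)) * 2 ≤
      Real.exp (-(4 * √3 * a ^ 2 - ε) / (v - v0)) := by
    have e : -(4 * √3 * a ^ 2 - ε) / (v - v0) =
        -(4 * √3 * a ^ 2 - ε / 2) / (v - v0) + ε / 2 / (v - v0) := by ring
    rw [e, Real.exp_add]
    exact mul_le_mul_of_nonneg_left hexp2 (Real.exp_pos _).le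
  filter_upwards [bad_small hR hV hch ha hv hfe hcvx hN hL hLN (half_pos one_pos) hτ, hS',
    hL.eventually_gt_atTop 0] with k hk hk' hLk
  obtain ⟨h1, h2, h3⟩ := hk
  obtain ⟨-, s1, s2⟩ := hk'
  refine ⟨h1, le_trans ?_ h3⟩
  refine ENNReal.toReal_mono ?_ (measure_mono ?_)
  · exact measure_ne_top_of_subset (fun x hx => hx.1) (CC_fin a (L k) (N k))
  · rintro x ⟨hx1, hx2⟩
    refine ⟨hx1, ?_⟩
    by_contra hcon
    rw [not_le] at hcon
    apply hx2
    set m := CV a (L k) (N k + 1) / CV a (L k) (N k) with hm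
    have hL2 : 0 < L k ^ 2 := by positivity
    have hme : CV a (L k) (N k + 1) / (L k ^ 2 * CV a (L k) (N k)) = m / L k ^ 2 := by
      rw [hm, div_div, mul_comm (CV a (L k) (N k))]
    rw [hme] at s1 s2
    obtain ⟨c1, c2⟩ := abs_lt.mp hcon
    constructor
    · refine (hE1.trans (div_le_div_of_nonneg_right s1 two_pos.le)).trans ?_
      rw [div_div, mul_comm, ← div_div]
      exact div_le_div_of_nonneg_right (by linarith) hL2.le
    · refine le_trans ?_ ((mul_le_mul_of_nonneg_right s2 two_pos.le).trans hE2)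
      rw [div_mul_eq_mul_div]
      exact div_le_div_of_nonneg_right (by linarith [div_pos h2 h1]) hL2.le

/-- uniformity for `o(N)` further disks -/
theorem unif {a v lo hi : ℝ} {N m : ℕ → ℕ} {L : ℕ → ℝ}
    (H : ∀ (N : ℕ → ℕ) (L : ℕ → ℝ), Tendsto N atTop atTop → Tendsto L atTop atTop →
      Tendsto (fun k => L k ^ 2 / N k) atTop (𝓝 v) → ∀ᶠ k in atTop,
        0 < CV a (L k) (N k) ∧ lo ≤ CV a (L k) (N k + 1) / (L k ^ 2 * CV a (L k) (N k)) ∧
        CV a (L k) (N k + 1) / (L k ^ 2 * CV a (L k) (N k)) ≤ hi)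
    (hN : Tendsto N atTop atTop) (hL : Tendsto L atTop atTop)
    (hLN : Tendsto (fun k => L k ^ 2 / N k) atTop (𝓝 v))
    (hm : Tendsto (fun k => (m k : ℝ) / N k) atTop (𝓝 0)) :
    ∀ᶠ k in atTop, ∀ j ≤ m k, 0 < CV a (L k) (N k + j) ∧
      lo ≤ CV a (L k) (N k + j + 1) / (L k ^ 2 * CV a (L k) (N k + j)) ∧
        CV a (L k) (N k + j + 1) / (L k ^ 2 * CV a (L k) (N k + j)) ≤ hi := by
  classical
  set P : ℕ → ℕ → Prop := fun k n => 0 < CV a (L k) n ∧
      lo ≤ CV a (L k) (n + 1) / (L k ^ 2 * CV a (L k) n) ∧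
        CV a (L k) (n + 1) / (L k ^ 2 * CV a (L k) n) ≤ hi with hP
  have hex : ∀ k, ∃ i ≤ m k, (∃ j ≤ m k, ¬ P k (N k + j)) → ¬ P k (N k + i) := by
    intro k
    by_cases h : ∃ j ≤ m k, ¬ P k (N k + j)
    · obtain ⟨j, hj, hj'⟩ := h
      exact ⟨j, hj, fun _ => hj'⟩
    · exact ⟨0, Nat.zero_le _, fun h' => absurd h' h⟩
  choose i hi1 hi2 using hex
  have hNr : Tendsto (fun k => (N k : ℝ)) atTop atTop := tendsto_natCast_atTop_atTop.comp hN
  have hn : Tendsto (fun k => N k + i k) atTop atTop :=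
    tendsto_atTop_mono (fun k => Nat.le_add_right _ _) hN
  have hiN : Tendsto (fun k => (i k : ℝ) / N k) atTop (𝓝 0) := by
    refine squeeze_zero (fun k => by positivity) (fun k => ?_) hm
    exact div_le_div_of_nonneg_right (by exact_mod_cast hi1 k) (Nat.cast_nonneg _)
  have hLn : Tendsto (fun k => L k ^ 2 / ((N k + i k : ℕ) : ℝ)) atTop (𝓝 v) := by
    have h1 := hLN.div (hiN.const_add 1) (by norm_num)
    rw [add_zero, div_one] at h1
    refine h1.congr' ?_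
    filter_upwards [hNr.eventually_gt_atTop 0] with k hk
    simp only [Pi.div_apply]
    push_cast
    field_simp
  filter_upwards [H _ L hn hL hLn] with k hk j hj
  by_contra hcon
  exact hi2 k ⟨j, hj, hcon⟩ hk

theorem prod_bounds {a L lo hi : ℝ} {N m : ℕ} (hL : 0 < L) (hlo : 0 ≤ lo)
    (h : ∀ j ≤ m, 0 < CV a L (N + j) ∧
      lo ≤ CV a L (N + j + 1) / (L ^ 2 * CV a L (N + j)) ∧
        CV a L (N + j + 1) / (L ^ 2 * CV a L (N + j)) ≤ hi) :
    ∀ j ≤ m, lo ^ j ≤ CV a L (N + j) / (L ^ (2 * j) * CV a L N) ∧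
      CV a L (N + j) / (L ^ (2 * j) * CV a L N) ≤ hi ^ j := by
  have h0 := (h 0 (Nat.zero_le _)).1
  rw [add_zero] at h0
  intro j
  induction j with
  | zero => intro _; simp [h0.ne']
  | succ j ih =>
    intro hj
    obtain ⟨i1, i2⟩ := ih (by omega)
    obtain ⟨g0, g1, g2⟩ := h j (by omega)
    have e : CV a L (N + (j + 1)) / (L ^ (2 * (j + 1)) * CV a L N) =
        CV a L (N + j) / (L ^ (2 * j) * CV a L N) *
          (CV a L (N + j + 1) / (L ^ 2 * CV a L (N + j))) := by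
      rw [← add_assoc, mul_add, pow_add]
      field_simp
    have hx : 0 ≤ CV a L (N + j) / (L ^ (2 * j) * CV a L N) := by positivity
    rw [e, pow_succ, pow_succ]
    exact ⟨mul_le_mul i1 g1 hlo hx, mul_le_mul i2 g2 (hlo.trans g1) (hx.trans i2)⟩

end Pool.Agent.H96.CP
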