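import Pool.Agent.H96.CP.Lim
import Pool.Agent.H96.CP.HoleFin
import Pool.Agent.H61.CP.Cheb

/-!
# Project CP3: the law of the holes
-/

set_option autoImplicit false

open Real Set MeasureTheory Metric Filter Topology
open scoped ENNReal Nat ComplexConjugate

namespace Pool.Agent.H96.CP

open Pool.Agent.H96.HD

/-- the law of large numbers -/
theorem lln (hR : S_ratio) (hV : S_CVZ) (hch : S_cheb) {a v h : ℝ} {f : ℝ → ℝ} (ha : 0 < a)
    (hv : 2 * √3 * a ^ 2 < v)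
    (hfe : ∀ v : ℝ, 2 * √3 * a ^ 2 < v → IsFreeEnergy a v (f v))
    (hcvx : ConvexOn ℝ (Ioi (2 * √3 * a ^ 2)) f) (hh : 0 < h)
    {N : ℕ → ℕ} {L : ℕ → ℝ} (hN : Tendsto N atTop atTop) (hL : Tendsto L atTop atTop)
    (hLN : Tendsto (fun k => L k ^ 2 / N k) atTop (𝓝 v))
    (hlim : Tendsto (fun k => CV a (L k) (N k + 1) / (L k ^ 2 * CV a (L k) (N k))) atTop (𝓝 h))
    {ε : ℝ} (hε : 0 < ε) :
    Tendsto (fun k => (volume (CC a (L k) (Fin (N k)) ∩ {x | |FA a (L k) x / L k ^ 2 - h| ≤ ε})).toReal /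
      (volume (CC a (L k) (Fin (N k)))).toReal) atTop (𝓝 1) := by
  refine prob_tendsto (fun k => {x | |FA a (L k) x / L k ^ 2 - h| ≤ ε}) ?_
  intro τ hτ
  have hm1 : ∀ᶠ k in atTop,
      CV a (L k) (N k + 1) / (L k ^ 2 * CV a (L k) (N k)) < 2 * h :=
    hlim.eventually_lt_const (by linarith)
  have hm2 : ∀ᶠ k in atTop,
      |CV a (L k) (N k + 1) / (L k ^ 2 * CV a (L k) (N k)) - h| < ε / 2 := by
    have := Metric.tendsto_atTop.mp hlim (ε / 2) (half_pos hε)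
    obtain ⟨n, hn⟩ := this
    filter_upwards [eventually_ge_atTop n] with k hk
    have := hn k hk
    rwa [Real.dist_eq] at this
  filter_upwards [bad_small hR hV hch ha hv hfe hcvx hN hL hLN (show 0 < ε / (4 * h) by positivity) hτ,
    hm1, hm2, hL.eventually_gt_atTop 0] with k hk g1 g2 hLk
  obtain ⟨h1, h2, h3⟩ := hk
  refine ⟨h1, le_trans ?_ h3⟩
  refine ENNReal.toReal_mono ?_ (measure_mono ?_)
  · exact measure_ne_top_of_subset (fun x hx => hx.1) (CC_fin a (L k) (N k))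
  · rintro x ⟨hx1, hx2⟩
    refine ⟨hx1, ?_⟩
    by_contra hcon
    rw [not_le] at hcon
    apply hx2
    set m := CV a (L k) (N k + 1) / CV a (L k) (N k) with hm
    have hL2 : 0 < L k ^ 2 := by positivity
    have hme : CV a (L k) (N k + 1) / (L k ^ 2 * CV a (L k) (N k)) = m / L k ^ 2 := by
      rw [hm, div_div, mul_comm (CV a (L k) (N k))]
    rw [hme] at g1 g2
    have e1 : |FA a (L k) x / L k ^ 2 - m / L k ^ 2| ≤ ε / 2 := by
      rw [← sub_div, abs_div, abs_of_pos hL2]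
      have e2 : |FA a (L k) x - m| / L k ^ 2 ≤ ε / (4 * h) * (m / L k ^ 2) := by
        rw [mul_div_assoc']
        exact div_le_div_of_nonneg_right hcon.le hL2.le
      have e3 : ε / (4 * h) * (m / L k ^ 2) ≤ ε / (4 * h) * (2 * h) :=
        mul_le_mul_of_nonneg_left g1.le (by positivity)
      have e4 : ε / (4 * h) * (2 * h) = ε / 2 := by
        field_simp
        norm_num
      linarith
    have e5 : FA a (L k) x / L k ^ 2 - h =
        (FA a (L k) x / L k ^ 2 - m / L k ^ 2) + (m / L k ^ 2 - h) := by ring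
    change |FA a (L k) x / L k ^ 2 - h| ≤ ε
    rw [e5]
    refine (abs_add_le _ _).trans ?_
    linarith

/-- adding `m = o(N)` disks -/
theorem addm {a v h : ℝ} (hh : 0 < h)
    (H : ∀ (N : ℕ → ℕ) (L : ℕ → ℝ), Tendsto N atTop atTop → Tendsto L atTop atTop →
      Tendsto (fun k => L k ^ 2 / N k) atTop (𝓝 v) →
      (∀ᶠ k in atTop, 0 < CV a (L k) (N k)) ∧
      Tendsto (fun k => CV a (L k) (N k + 1) / (L k ^ 2 * CV a (L k) (N k))) atTop (𝓝 h))
    {N m : ℕ → ℕ} {L : ℕ → ℝ}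
    (hN : Tendsto N atTop atTop) (hL : Tendsto L atTop atTop)
    (hLN : Tendsto (fun k => L k ^ 2 / N k) atTop (𝓝 v))
    (hm : Tendsto (fun k => (m k : ℝ) / N k) atTop (𝓝 0)) {ε : ℝ} (hε : 0 < ε) (hε1 : ε < 1) :
    ∀ᶠ k in atTop, ((1 - ε) * h) ^ m k ≤
        CV a (L k) (N k + m k) / (L k ^ (2 * m k) * CV a (L k) (N k)) ∧
      CV a (L k) (N k + m k) / (L k ^ (2 * m k) * CV a (L k) (N k)) ≤ ((1 + ε) * h) ^ m k := by
  have h1 := unif (a := a) (v := v) (lo := (1 - ε) * h) (hi := (1 + ε) * h) (N := N) (m := m) (L := L)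
    (by
      intro N L hN hL hLN
      obtain ⟨g1, g2⟩ := H N L hN hL hLN
      filter_upwards [g1, g2.eventually_const_lt (show (1 - ε) * h < h by nlinarith),
        g2.eventually_lt_const (show h < (1 + ε) * h by nlinarith)] with k c1 c2 c3
      exact ⟨c1, c2.le, c3.le⟩) hN hL hLN hm
  filter_upwards [h1, hL.eventually_gt_atTop 0] with k hk hLk
  exact prod_bounds hLk (mul_nonneg (by linarith) hh.le) hk (m k) le_rfl

/-- the law -/
theorem law {a c : ℝ} {f : ℝ → ℝ} (ha : 0 < a)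
    (hfe : ∀ v : ℝ, 2 * √3 * a ^ 2 < v → IsFreeEnergy a v (f v))
    (hcvx : ConvexOn ℝ (Ioi (2 * √3 * a ^ 2)) f)
    (hlim : Tendsto (fun v => f v + 2 * Real.log ((v - 2 * √3 * a ^ 2) / a))
      (𝓝[>] (2 * √3 * a ^ 2)) (𝓝 c)) :
    ∃ h : ℝ → ℝ, (∀ v : ℝ, 2 * √3 * a ^ 2 < v → 0 < h v ∧
      ∀ (N : ℕ → ℕ) (L : ℕ → ℝ), Tendsto N atTop atTop → Tendsto L atTop atTop →
      Tendsto (fun k => L k ^ 2 / N k) atTop (𝓝 v) →
      (∀ ε : ℝ, 0 < ε → Tendsto (fun k => (volume (CC a (L k) (Fin (N k)) ∩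
        {x | |FA a (L k) x / L k ^ 2 - h v| ≤ ε})).toReal /
          (volume (CC a (L k) (Fin (N k)))).toReal) atTop (𝓝 1)) ∧
      ∀ m : ℕ → ℕ, Tendsto (fun k => (m k : ℝ) / N k) atTop (𝓝 0) → ∀ ε : ℝ, 0 < ε → ε < 1 →
        ∀ᶠ k in atTop, ((1 - ε) * h v) ^ m k ≤
            CV a (L k) (N k + m k) / (L k ^ (2 * m k) * CV a (L k) (N k)) ∧
          CV a (L k) (N k + m k) / (L k ^ (2 * m k) * CV a (L k) (N k)) ≤
            ((1 + ε) * h v) ^ m k) ∧
    Tendsto (fun v => (v - 2 * √3 * a ^ 2) * Real.log (h v)) (𝓝[>] (2 * √3 * a ^ 2))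
      (𝓝 (-(4 * √3 * a ^ 2))) := by
  have hR := ratio
  have hV := cvz
  have hv00 : 0 < 2 * √3 * a ^ 2 := by positivity
  choose! g hg using fun (v : ℝ) (hv : 2 * √3 * a ^ 2 < v) => subgrad hv hcvx
  set h : ℝ → ℝ := fun v => Real.exp (-f v + v * g v) / v with hh
  have hpos : ∀ v : ℝ, 2 * √3 * a ^ 2 < v → 0 < h v := fun v hv =>
    div_pos (Real.exp_pos _) (hv00.trans hv)
  have hl : ∀ v : ℝ, 2 * √3 * a ^ 2 < v → ∀ (N : ℕ → ℕ) (L : ℕ → ℝ), Tendsto N atTop atTop →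
      Tendsto L atTop atTop → Tendsto (fun k => L k ^ 2 / N k) atTop (𝓝 v) →
      (∀ᶠ k in atTop, 0 < CV a (L k) (N k)) ∧
      Tendsto (fun k => CV a (L k) (N k + 1) / (L k ^ 2 * CV a (L k) (N k))) atTop (𝓝 (h v)) := by
    intro v hv N L hN hL hLN
    refine ⟨?_, lim_ratio hR hV ha hv hfe (hg v hv) hN hL hLN⟩
    filter_upwards [(hfe v hv N L hN hL hLN).1] with k hk
    rw [hV a _ _ ha]
    positivity
  refine ⟨h, ?_, ?_⟩
  · intro v hv
    refine ⟨hpos v hv, fun N L hN hL hLN => ⟨fun ε hε => ?_, fun m hm ε hε hε1 => ?_⟩⟩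
    · exact lln hR hV cheb ha hv hfe hcvx (hpos v hv) hN hL hLN (hl v hv N L hN hL hLN).2 hε
    · exact addm (hpos v hv) (hl v hv) hN hL hLN hm hε hε1
  · rw [Metric.tendsto_nhdsWithin_nhds]
    intro ε hε
    obtain ⟨δ, hδ, hS⟩ := holes hR hV f a c ha hfe
      (hcvx.subset Ioo_subset_Ioi_self (convex_Ioo _ _)) hlim (ε / 2) (half_pos hε)
    refine ⟨δ, hδ, fun v hv hvd => ?_⟩
    have hv' : 2 * √3 * a ^ 2 < v := hv
    have hvpos : 0 < v := hv00.trans hv'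
    have hx : 0 < v - 2 * √3 * a ^ 2 := by linarith
    have hvδ : v < 2 * √3 * a ^ 2 + δ := by
      rw [Real.dist_eq, abs_of_pos hx] at hvd
      linarith
    have hN : Tendsto (fun k : ℕ => k + 1) atTop atTop := tendsto_add_atTop_nat 1
    have hL : Tendsto (fun k : ℕ => √(v * ((k : ℝ) + 1))) atTop atTop := by
      refine Real.tendsto_sqrt_atTop.comp ?_
      exact (tendsto_atTop_add_const_right _ 1 tendsto_natCast_atTop_atTop).const_mul_atTop hvpos
    have hLN : Tendsto (fun k : ℕ => √(v * ((k : ℝ) + 1)) ^ 2 / ((k + 1 : ℕ) : ℝ)) atTop (𝓝 v) := by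
      refine tendsto_const_nhds.congr fun k => ?_
      rw [Real.sq_sqrt (by positivity)]
      push_cast
      field_simp
    have h1 := hS v hv' hvδ (fun k => k + 1) (fun k => √(v * ((k : ℝ) + 1))) hN hL hLN
    have h2 := (hl v hv' (fun k => k + 1) (fun k => √(v * ((k : ℝ) + 1))) hN hL hLN).2
    have h3 : Real.exp (-(4 * √3 * a ^ 2 + ε / 2) / (v - 2 * √3 * a ^ 2)) ≤ h v :=
      ge_of_tendsto h2 (h1.mono fun k hk => hk.2.1)
    have h4 : h v ≤ Real.exp (-(4 * √3 * a ^ 2 - ε / 2) / (v - 2 * √3 * a ^ 2)) :=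
      le_of_tendsto h2 (h1.mono fun k hk => hk.2.2)
    have h5 := (Real.le_log_iff_exp_le (hpos v hv')).mpr h3
    have h6 := (Real.log_le_iff_le_exp (hpos v hv')).mpr h4
    rw [div_le_iff₀ hx] at h5
    rw [le_div_iff₀ hx] at h6
    rw [Real.dist_eq, abs_lt]
    constructor <;> linarith

end Pool.Agent.H96.CP
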