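import Pool.Agent.H96.CP.Stm7
import Pool.Agent.H96.CP.All

/-!
# Project CP3: the probability of holes, final step
-/

set_option autoImplicit false

open Real Set MeasureTheory Metric Filter Topology
open scoped ENNReal Nat ComplexConjugate

namespace Pool.Agent.H96.CP

open Pool.Agent.H96.HD

theorem CV_nonneg (a L : ℝ) (n : ℕ) : 0 ≤ CV a L n := ENNReal.toReal_nonneg

theorem fac_le (n k : ℕ) : (n + k)! ≤ n ! * (n + k) ^ k := by
  induction k with
  | zero => simp
  | succ k ih =>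
    rw [← Nat.add_assoc, Nat.factorial_succ, pow_succ]
    calc (n + k + 1) * (n + k)! ≤ (n + k + 1) * (n ! * (n + k) ^ k) := Nat.mul_le_mul_left _ ih
      _ ≤ (n + k + 1) * (n ! * (n + k + 1) ^ k) :=
          Nat.mul_le_mul_left _ (Nat.mul_le_mul_left _ (Nat.pow_le_pow_left (by omega) k))
      _ = _ := by ring

section
variable {a L : ℝ}

theorem r_step (hR : S_ratio) (ha : 0 < a) (hL : 0 ≤ L) {j : ℕ} (h0 : 0 < CV a L j)
    (h1 : 0 < CV a L (j + 1)) :
    CV a L (j + 1) / CV a L j ≤ CV a L (j + 2) / CV a L (j + 1) + 4 * π * a ^ 2 := by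
  have h := hR a L j ha hL
  rw [div_add' _ _ _ h1.ne', div_le_div_iff₀ h0 h1]
  nlinarith

theorem up_chain (hR : S_ratio) (ha : 0 < a) (hL : 0 ≤ L) {t : ℝ} {N k : ℕ} (ht : 0 < t)
    (h0 : 0 < CV a L N) (hr : t ≤ CV a L (N + 1) / CV a L N) (hk : k * (4 * π * a ^ 2) ≤ t / 2) :
    ∀ j ≤ k, 0 < CV a L (N + j) ∧ t - j * (4 * π * a ^ 2) ≤ CV a L (N + j + 1) / CV a L (N + j) := by
  intro j
  induction j with
  | zero => intro _; simpa using ⟨h0, hr⟩
  | succ j ih =>
    intro hj
    obtain ⟨p, q⟩ := ih (by omega)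
    have hC : 0 < 4 * π * a ^ 2 := by positivity
    have hjk : (j : ℝ) * (4 * π * a ^ 2) ≤ k * (4 * π * a ^ 2) :=
      mul_le_mul_of_nonneg_right (by exact_mod_cast (by omega : j ≤ k)) hC.le
    have q1 : 0 < CV a L (N + j + 1) / CV a L (N + j) := by linarith
    have q2 : 0 < CV a L (N + j + 1) := (div_pos_iff_of_pos_right p).mp q1
    refine ⟨q2, ?_⟩
    have h := r_step hR ha hL p q2
    push_cast
    have e : N + (j + 1) + 1 = N + j + 2 := by ring
    have e' : N + (j + 1) = N + j + 1 := by ring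
    rw [e, e']
    linarith

theorem up_prod (hR : S_ratio) (ha : 0 < a) (hL : 0 ≤ L) {t : ℝ} {N k : ℕ} (ht : 0 < t)
    (h0 : 0 < CV a L N) (hr : t ≤ CV a L (N + 1) / CV a L N) (hk : k * (4 * π * a ^ 2) ≤ t / 2) :
    ∀ j ≤ k, 0 < CV a L (N + j) ∧
      Real.log (CV a L N) + j * Real.log (t / 2) ≤ Real.log (CV a L (N + j)) := by
  have hc := up_chain hR ha hL ht h0 hr hk
  have hC : 0 < 4 * π * a ^ 2 := by positivity
  intro j
  induction j with
  | zero => intro _; simpa using h0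
  | succ j ih =>
    intro hj
    obtain ⟨p, q⟩ := ih (by omega)
    obtain ⟨p1, q1⟩ := hc j (by omega)
    obtain ⟨p2, -⟩ := hc (j + 1) hj
    refine ⟨p2, ?_⟩
    have hjk : (j : ℝ) * (4 * π * a ^ 2) ≤ k * (4 * π * a ^ 2) :=
      mul_le_mul_of_nonneg_right (by exact_mod_cast (by omega : j ≤ k)) hC.le
    have q2 : t / 2 ≤ CV a L (N + j + 1) / CV a L (N + j) := by linarith
    have e' : N + (j + 1) = N + j + 1 := by ring
    rw [e'] at p2 ⊢
    have q3 := Real.log_le_log (by positivity) q2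
    rw [Real.log_div p2.ne' p.ne'] at q3
    push_cast
    linarith

theorem CV_pos_of (hR : S_ratio) (ha : 0 < a) (hL : 0 ≤ L) {j : ℕ} (h : 0 < CV a L (j + 1)) :
    0 < CV a L j := by
  rcases (CV_nonneg a L j).eq_or_lt with h1 | h1
  · have := hR a L j ha hL
    rw [← h1, zero_mul] at this
    nlinarith
  · exact h1

theorem low_chain (hR : S_ratio) (ha : 0 < a) (hL : 0 ≤ L) {t : ℝ} {N k : ℕ} (hkN : k ≤ N)
    (h0 : 0 < CV a L N) (hr : CV a L (N + 1) / CV a L N ≤ t) (ht : 0 < t)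
    (hk : k * (4 * π * a ^ 2) ≤ t) :
    ∀ j ≤ k, 0 < CV a L (N - j) ∧ CV a L (N - j + 1) / CV a L (N - j) ≤ t + j * (4 * π * a ^ 2) ∧
      Real.log (CV a L N) ≤ Real.log (CV a L (N - j)) + j * Real.log (2 * t) := by
  have hC : 0 < 4 * π * a ^ 2 := by positivity
  intro j
  induction j with
  | zero => intro _; simpa using ⟨h0, hr⟩
  | succ j ih =>
    intro hj
    obtain ⟨p, q, s⟩ := ih (by omega)
    obtain ⟨M, hM⟩ : ∃ M, N - j = M + 1 := ⟨N - j - 1, by omega⟩
    have hM' : N - (j + 1) = M := by omega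
    rw [hM] at p q s
    rw [hM']
    have p' := CV_pos_of hR ha hL p
    have h := r_step hR ha hL p' p
    have hjk : ((j : ℝ) + 1) * (4 * π * a ^ 2) ≤ k * (4 * π * a ^ 2) :=
      mul_le_mul_of_nonneg_right (by exact_mod_cast hj) hC.le
    have h2 : CV a L (M + 1) / CV a L M ≤ t + (j + 1) * (4 * π * a ^ 2) := by
      have e : M + 1 + 1 = M + 2 := by ring
      rw [e] at q
      linarith
    refine ⟨p', by push_cast; exact h2, ?_⟩
    have h3 : CV a L (M + 1) / CV a L M ≤ 2 * t := by linarith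
    have h4 := Real.log_le_log (div_pos p p') h3
    rw [Real.log_div p.ne' p'.ne'] at h4
    push_cast
    linarith

end

/-- the sequences of the windows -/
theorem window {a v s : ℝ} {f : ℝ → ℝ} (hs : 0 < 1 + s)
    (h1 : IsFreeEnergy a v (f v)) (h2 : IsFreeEnergy a (v / (1 + s)) (f (v / (1 + s))))
    {N N' : ℕ → ℕ} {L : ℕ → ℝ} (hN : Tendsto N atTop atTop) (hL : Tendsto L atTop atTop)
    (hLN : Tendsto (fun k => L k ^ 2 / N k) atTop (𝓝 v))
    (hN' : Tendsto (fun k => (N' k : ℝ) / N k) atTop (𝓝 (1 + s))) :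
    (∀ᶠ k in atTop, 0 < Z a (L k) (N k)) ∧ (∀ᶠ k in atTop, 0 < Z a (L k) (N' k)) ∧
    Tendsto (fun k => (Real.log (Z a (L k) (N' k)) - Real.log (Z a (L k) (N k))) / N k) atTop
      (𝓝 (-((1 + s) * f (v / (1 + s))) + f v)) := by
  have hNr : Tendsto (fun k => (N k : ℝ)) atTop atTop := tendsto_natCast_atTop_atTop.comp hN
  have hN'r : Tendsto (fun k => (N' k : ℝ)) atTop atTop := by
    have h3 := hN'.pos_mul_atTop hs hNr
    refine h3.congr' ?_
    filter_upwards [hNr.eventually_gt_atTop 0] with k hk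
    field_simp
  have hN'' : Tendsto N' atTop atTop := tendsto_natCast_atTop_iff.mp hN'r
  have hLN' : Tendsto (fun k => L k ^ 2 / N' k) atTop (𝓝 (v / (1 + s))) := by
    refine (hLN.div hN' hs.ne').congr' ?_
    filter_upwards [hNr.eventually_gt_atTop 0, hN'r.eventually_gt_atTop 0] with k hk hk'
    simp only [Pi.div_apply]
    field_simp
  obtain ⟨p1, q1⟩ := h1 N L hN hL hLN
  obtain ⟨p2, q2⟩ := h2 N' L hN'' hL hLN'
  refine ⟨p1, p2, ?_⟩
  have h4 := ((hN'.mul q2).neg).add q1
  refine h4.congr' ?_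
  filter_upwards [hNr.eventually_gt_atTop 0, hN'r.eventually_gt_atTop 0] with k hk hk'
  field_simp
  ring

theorem fl_tendsto {N : ℕ → ℕ} (hN : Tendsto N atTop atTop) {η : ℝ} (hη : 0 ≤ η) :
    Tendsto (fun k => ((⌊η * N k⌋₊ : ℕ) : ℝ) / N k) atTop (𝓝 η) :=
  (tendsto_nat_floor_mul_div_atTop hη).comp (tendsto_natCast_atTop_atTop.comp hN)

theorem hole_up (hR : S_ratio) (hV : S_CVZ) {a d v v' q : ℝ} {f : ℝ → ℝ} (ha : 0 < a)
    (hfe : ∀ v : ℝ, 2 * √3 * a ^ 2 < v → IsFreeEnergy a v (f v))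
    (hcvx : ConvexOn ℝ (Ioo (2 * √3 * a ^ 2) (2 * √3 * a ^ 2 + d)) f)
    (hv : 2 * √3 * a ^ 2 < v) (hvv : v < v') (hv' : v' < 2 * √3 * a ^ 2 + d) (hq : 0 < q)
    (hlog : -(f v + v * ((f v - f v') / (v' - v))) < Real.log (q * (2 * √3 * a ^ 2) / 4))
    {N : ℕ → ℕ} {L : ℕ → ℝ} (hN : Tendsto N atTop atTop) (hL : Tendsto L atTop atTop)
    (hLN : Tendsto (fun k => L k ^ 2 / N k) atTop (𝓝 v)) :
    ∀ᶠ k in atTop, 0 < CV a (L k) (N k) ∧
      CV a (L k) (N k + 1) ≤ q * L k ^ 2 * CV a (L k) (N k) := by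
  set v0 := 2 * √3 * a ^ 2 with hv0def
  have hv0 : 0 < v0 := by positivity
  have hvpos : 0 < v := hv0.trans hv
  have hC : 0 < 4 * π * a ^ 2 := by positivity
  set η := min (q * v0 / (2 * (4 * π * a ^ 2))) (min 1 ((v - v0) / (2 * v0))) with hη
  have hη0 : 0 < η := by
    refine lt_min (by positivity) (lt_min one_pos (div_pos (by linarith) (by positivity)))
  have hη1 : η ≤ 1 := (min_le_right _ _).trans (min_le_left _ _)
  have hη2 : η * (2 * v0) ≤ v - v0 := by
    have : η ≤ (v - v0) / (2 * v0) := (min_le_right _ _).trans (min_le_right _ _)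
    rwa [le_div_iff₀ (by positivity)] at this
  have hη3 : η * (2 * (4 * π * a ^ 2)) ≤ q * v0 := by
    have : η ≤ q * v0 / (2 * (4 * π * a ^ 2)) := min_le_left _ _
    rwa [le_div_iff₀ (by positivity)] at this
  have hv1 : v0 < v / (1 + η) := by
    rw [lt_div_iff₀ (by linarith)]
    nlinarith
  have hv1' : v / (1 + η) < v := by
    rw [div_lt_iff₀ (by linarith)]
    nlinarith
  have hNr : Tendsto (fun k => (N k : ℝ)) atTop atTop := tendsto_natCast_atTop_atTop.comp hN
  set K : ℕ → ℕ := fun k => ⌊η * N k⌋₊ with hK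
  have hKN : Tendsto (fun k => (K k : ℝ) / N k) atTop (𝓝 η) := fl_tendsto hN hη0.le
  have hN' : Tendsto (fun k => ((N k + K k : ℕ) : ℝ) / N k) atTop (𝓝 (1 + η)) := by
    refine (hKN.const_add 1).congr' ?_
    filter_upwards [hNr.eventually_gt_atTop 0] with k hk
    push_cast
    field_simp
  obtain ⟨p1, p2, hw⟩ := window (a := a) (v := v) (s := η) (f := f) (by linarith)
    (hfe v hv) (hfe _ hv1) hN hL hLN hN'
  have hpos : ∀ᶠ k in atTop, 0 < CV a (L k) (N k) := by
    filter_upwards [p1] with k hk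
    rw [hV a _ _ ha]
    positivity
  have hbig : ∀ᶠ k in atTop, v0 * N k ≤ L k ^ 2 := by
    filter_upwards [hLN.eventually_const_lt hv, hNr.eventually_gt_atTop 0] with k h1 h2
    rw [lt_div_iff₀ h2] at h1
    exact h1.le
  by_contra hcon
  have hfr : ∃ᶠ k in atTop, q * L k ^ 2 * CV a (L k) (N k) < CV a (L k) (N k + 1) := by
    intro h
    apply hcon
    filter_upwards [hpos, h] with k h1 h2
    exact ⟨h1, not_lt.mp h2⟩
  have hfr2 : ∃ᶠ k in atTop, Real.log (q * v0 / 4) ≤ Real.log (q * v0 / 4) ∧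
      (K k : ℝ) / N k * Real.log (q * v0 / 4) ≤
        (Real.log (Z a (L k) (N k + K k)) - Real.log (Z a (L k) (N k))) / N k := by
    refine (hfr.and_eventually (hpos.and (p1.and (p2.and (hbig.and ((hNr.eventually_ge_atTop 1).and
      (hL.eventually_gt_atTop 0))))))).mono ?_
    rintro k ⟨h1, h2, h3, h4, h5, h6, h7⟩
    refine ⟨le_rfl, ?_⟩
    have hNpos : (0:ℝ) < N k := by linarith
    have ht : 0 < q * L k ^ 2 := by positivity
    have hr : q * L k ^ 2 ≤ CV a (L k) (N k + 1) / CV a (L k) (N k) := by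
      rw [le_div_iff₀ h2]
      exact h1.le
    have hKle : (K k : ℝ) ≤ η * N k := Nat.floor_le (by positivity)
    have hk : (K k : ℝ) * (4 * π * a ^ 2) ≤ q * L k ^ 2 / 2 := by
      have e1 : (K k : ℝ) * (4 * π * a ^ 2) ≤ η * N k * (4 * π * a ^ 2) :=
        mul_le_mul_of_nonneg_right hKle hC.le
      have e2 : η * (2 * (4 * π * a ^ 2)) * N k ≤ q * v0 * N k :=
        mul_le_mul_of_nonneg_right hη3 hNpos.le
      have e3 : q * (v0 * N k) ≤ q * L k ^ 2 := mul_le_mul_of_nonneg_left h5 hq.le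
      linarith
    obtain ⟨c1, c2⟩ := up_prod hR ha h7.le ht h2 hr hk (K k) le_rfl
    have hf1 : Real.log (CV a (L k) (N k)) = Real.log ((N k)! : ℝ) + Real.log (Z a (L k) (N k)) := by
      rw [hV a _ _ ha, Real.log_mul (by positivity) h3.ne']
    have hf2 : Real.log (CV a (L k) (N k + K k)) =
        Real.log ((N k + K k)! : ℝ) + Real.log (Z a (L k) (N k + K k)) := by
      rw [hV a _ _ ha, Real.log_mul (by positivity) h4.ne']
    have hNK : (0:ℝ) < (N k : ℝ) + K k := by positivity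
    have hfac : Real.log ((N k + K k)! : ℝ) ≤
        Real.log ((N k)! : ℝ) + K k * Real.log ((N k : ℝ) + K k) := by
      rw [← Real.log_pow, ← Real.log_mul (by positivity) (by positivity)]
      apply Real.log_le_log (by positivity)
      exact_mod_cast fac_le (N k) (K k)
    have hq4 : Real.log (q * v0 / 4) ≤ Real.log (q * L k ^ 2 / 2) - Real.log ((N k : ℝ) + K k) := by
      rw [← Real.log_div (by positivity) hNK.ne']
      apply Real.log_le_log (by positivity)
      rw [le_div_iff₀ hNK]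
      have e3 : q * (v0 * N k) ≤ q * L k ^ 2 := mul_le_mul_of_nonneg_left h5 hq.le
      have e4 : (N k : ℝ) + K k ≤ 2 * N k := by nlinarith
      have e5 : q * v0 / 4 * ((N k : ℝ) + K k) ≤ q * v0 / 4 * (2 * N k) :=
        mul_le_mul_of_nonneg_left e4 (by positivity)
      linarith
    have hKq := mul_le_mul_of_nonneg_left hq4 (Nat.cast_nonneg (α := ℝ) (K k))
    rw [div_mul_eq_mul_div]
    apply div_le_div_of_nonneg_right _ hNpos.le
    linarith
  have hlim := hw.sub (hKN.mul_const (Real.log (q * v0 / 4)))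
  have hge : 0 ≤ -((1 + η) * f (v / (1 + η))) + f v - η * Real.log (q * v0 / 4) :=
    ge_of_tendsto_of_frequently hlim (hfr2.mono fun k hk => sub_nonneg.mpr hk.2)
  have hs := hcvx.slope_mono_adjacent (x := v / (1 + η)) (y := v) (z := v')
    ⟨hv1, by linarith⟩ ⟨by linarith, hv'⟩ hv1' hvv
  set P := (f v - f v') / (v' - v) with hP
  have hPe : (f v' - f v) / (v' - v) = -P := by
    rw [hP, ← neg_div]
    ring
  rw [hPe, div_le_iff₀ (by linarith)] at hs
  have hvη : (1 + η) * (v - v / (1 + η)) = η * v := by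
    field_simp
    ring
  have h8 : (1 + η) * (f v - f (v / (1 + η))) ≤ -(P * (η * v)) := by
    have := mul_le_mul_of_nonneg_left hs (show 0 ≤ 1 + η by linarith)
    have e : (1 + η) * (-P * (v - v / (1 + η))) = -(P * ((1 + η) * (v - v / (1 + η)))) := by ring
    rw [e, hvη] at this
    exact this
  have h9 : η * (-(f v + v * P)) < η * Real.log (q * v0 / 4) := mul_lt_mul_of_pos_left hlog hη0
  nlinarith

theorem hole_low (hR : S_ratio) (hV : S_CVZ) {a d v v' q : ℝ} {f : ℝ → ℝ} (ha : 0 < a)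
    (hfe : ∀ v : ℝ, 2 * √3 * a ^ 2 < v → IsFreeEnergy a v (f v))
    (hcvx : ConvexOn ℝ (Ioo (2 * √3 * a ^ 2) (2 * √3 * a ^ 2 + d)) f)
    (hv : 2 * √3 * a ^ 2 < v') (hvv : v' < v) (hv' : v < 2 * √3 * a ^ 2 + d) (hq : 0 < q)
    (hlog : Real.log (4 * (2 * √3 * a ^ 2 + d) * q) < -(f v + v * ((f v' - f v) / (v - v'))))
    {N : ℕ → ℕ} {L : ℕ → ℝ} (hN : Tendsto N atTop atTop) (hL : Tendsto L atTop atTop)
    (hLN : Tendsto (fun k => L k ^ 2 / N k) atTop (𝓝 v)) :
    ∀ᶠ k in atTop, 0 < CV a (L k) (N k) ∧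
      q * L k ^ 2 * CV a (L k) (N k) ≤ CV a (L k) (N k + 1) := by
  set v0 := 2 * √3 * a ^ 2 with hv0def
  have hv0 : 0 < v0 := by positivity
  have hvpos : 0 < v := hv0.trans (hv.trans hvv)
  have hva : 0 < v0 + d := by linarith
  have hC : 0 < 4 * π * a ^ 2 := by positivity
  set η := min (q * v0 / (4 * π * a ^ 2)) (min (1 / 2) ((v0 + d - v) / (v0 + d) / 2)) with hη
  have hη0 : 0 < η := by
    refine lt_min (by positivity) (lt_min (by norm_num) ?_)
    exact div_pos (div_pos (by linarith) hva) two_pos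
  have hη1 : η ≤ 1 / 2 := (min_le_right _ _).trans (min_le_left _ _)
  have hη2 : η * 2 * (v0 + d) ≤ v0 + d - v := by
    have : η ≤ (v0 + d - v) / (v0 + d) / 2 := (min_le_right _ _).trans (min_le_right _ _)
    rwa [le_div_iff₀ two_pos, le_div_iff₀ hva] at this
  have hη3 : η * (4 * π * a ^ 2) ≤ q * v0 := by
    have : η ≤ q * v0 / (4 * π * a ^ 2) := min_le_left _ _
    rwa [le_div_iff₀ (by positivity)] at this
  have h1η : 0 < 1 - η := by linarith
  have hv1 : v / (1 - η) < v0 + d := by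
    rw [div_lt_iff₀ h1η]
    nlinarith
  have hv1' : v < v / (1 - η) := by
    rw [lt_div_iff₀ h1η]
    nlinarith
  have hNr : Tendsto (fun k => (N k : ℝ)) atTop atTop := tendsto_natCast_atTop_atTop.comp hN
  set K : ℕ → ℕ := fun k => ⌊η * N k⌋₊ with hK
  have hKN : Tendsto (fun k => (K k : ℝ) / N k) atTop (𝓝 η) := fl_tendsto hN hη0.le
  have hKle : ∀ k, (K k : ℝ) ≤ η * N k := fun k => Nat.floor_le (by positivity)
  have hKN' : ∀ k, K k ≤ N k := by
    intro k
    have h1 : (K k : ℝ) ≤ N k := (hKle k).trans (by nlinarith [Nat.cast_nonneg (α := ℝ) (N k)])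
    exact_mod_cast h1
  have hN' : Tendsto (fun k => ((N k - K k : ℕ) : ℝ) / N k) atTop (𝓝 (1 + -η)) := by
    refine (hKN.neg.const_add 1).congr' ?_
    filter_upwards [hNr.eventually_gt_atTop 0] with k hk
    rw [Nat.cast_sub (hKN' k)]
    field_simp
    ring
  have hs1 : v / (1 + -η) = v / (1 - η) := by rw [← sub_eq_add_neg]
  obtain ⟨p1, p2, hw⟩ := window (a := a) (v := v) (s := -η) (f := f) (by linarith)
    (hfe v (hv.trans hvv)) (by rw [hs1]; exact hfe _ (by linarith)) hN hL hLN hN'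
  rw [hs1] at hw
  have hpos : ∀ᶠ k in atTop, 0 < CV a (L k) (N k) := by
    filter_upwards [p1] with k hk
    rw [hV a _ _ ha]
    positivity
  have hbig : ∀ᶠ k in atTop, v0 * N k ≤ L k ^ 2 := by
    filter_upwards [hLN.eventually_const_lt (hv.trans hvv), hNr.eventually_gt_atTop 0] with k h1 h2
    rw [lt_div_iff₀ h2] at h1
    exact h1.le
  have hsmall : ∀ᶠ k in atTop, L k ^ 2 ≤ (v0 + d) * N k := by
    filter_upwards [hLN.eventually_lt_const hv',
      hNr.eventually_gt_atTop 0] with k h1 h2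
    rw [div_lt_iff₀ h2] at h1
    exact h1.le
  by_contra hcon
  have hfr : ∃ᶠ k in atTop, CV a (L k) (N k + 1) < q * L k ^ 2 * CV a (L k) (N k) := by
    intro h
    apply hcon
    filter_upwards [hpos, h] with k h1 h2
    exact ⟨h1, not_lt.mp h2⟩
  have hfr2 : ∃ᶠ k in atTop, -((K k : ℝ) / N k * Real.log (4 * (v0 + d) * q)) ≤
        (Real.log (Z a (L k) (N k - K k)) - Real.log (Z a (L k) (N k))) / N k := by
    refine (hfr.and_eventually (hpos.and (p1.and (p2.and (hbig.and (hsmall.and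
      ((hNr.eventually_ge_atTop 1).and (hL.eventually_gt_atTop 0)))))))).mono ?_
    rintro k ⟨h1, h2, h3, h4, h5, h5', h6, h7⟩
    have hNpos : (0:ℝ) < N k := by linarith
    have ht : 0 < q * L k ^ 2 := by positivity
    have hr : CV a (L k) (N k + 1) / CV a (L k) (N k) ≤ q * L k ^ 2 := by
      rw [div_le_iff₀ h2]
      exact h1.le
    have hk : (K k : ℝ) * (4 * π * a ^ 2) ≤ q * L k ^ 2 := by
      have e1 : (K k : ℝ) * (4 * π * a ^ 2) ≤ η * N k * (4 * π * a ^ 2) :=
        mul_le_mul_of_nonneg_right (hKle k) hC.le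
      have e2 : η * (4 * π * a ^ 2) * N k ≤ q * v0 * N k :=
        mul_le_mul_of_nonneg_right hη3 hNpos.le
      have e3 : q * (v0 * N k) ≤ q * L k ^ 2 := mul_le_mul_of_nonneg_left h5 hq.le
      linarith
    obtain ⟨c1, -, c2⟩ := low_chain hR ha h7.le (hKN' k) h2 hr ht hk (K k) le_rfl
    have hf1 : Real.log (CV a (L k) (N k)) = Real.log ((N k)! : ℝ) + Real.log (Z a (L k) (N k)) := by
      rw [hV a _ _ ha, Real.log_mul (by positivity) h3.ne']
    have hf2 : Real.log (CV a (L k) (N k - K k)) =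
        Real.log ((N k - K k)! : ℝ) + Real.log (Z a (L k) (N k - K k)) := by
      rw [hV a _ _ ha, Real.log_mul (by positivity) h4.ne']
    have hNKe : ((N k - K k : ℕ) : ℝ) = (N k : ℝ) - K k := Nat.cast_sub (hKN' k)
    have hNK2 : (N k : ℝ) / 2 ≤ (N k : ℝ) - K k := by
      have := hKle k
      nlinarith
    have hNK : (0:ℝ) < (N k : ℝ) - K k := by linarith
    have hfac : Real.log ((N k - K k)! : ℝ) + K k * Real.log ((N k : ℝ) - K k) ≤
        Real.log ((N k)! : ℝ) := by
      rw [← hNKe, ← Real.log_pow, ← Real.log_mul (by positivity) (by rw [hNKe]; positivity)]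
      apply Real.log_le_log (by rw [hNKe]; positivity)
      have h8 := Nat.factorial_mul_pow_sub_le_factorial (Nat.sub_le (N k) (K k))
      rw [Nat.sub_sub_self (hKN' k)] at h8
      exact_mod_cast h8
    have hq4 : Real.log (2 * (q * L k ^ 2)) - Real.log ((N k : ℝ) - K k) ≤
        Real.log (4 * (v0 + d) * q) := by
      rw [← Real.log_div (by positivity) hNK.ne']
      apply Real.log_le_log (by positivity)
      rw [div_le_iff₀ hNK]
      have e3 : q * L k ^ 2 ≤ q * ((v0 + d) * N k) := mul_le_mul_of_nonneg_left h5' hq.le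
      have e5 : 4 * (v0 + d) * q * ((N k : ℝ) / 2) ≤ 4 * (v0 + d) * q * ((N k : ℝ) - K k) :=
        mul_le_mul_of_nonneg_left hNK2 (by positivity)
      linarith
    have hKq := mul_le_mul_of_nonneg_left hq4 (Nat.cast_nonneg (α := ℝ) (K k))
    rw [div_mul_eq_mul_div, ← neg_div]
    apply div_le_div_of_nonneg_right _ hNpos.le
    linarith
  have hlim := hw.sub (hKN.mul_const (Real.log (4 * (v0 + d) * q))).neg
  have hge : 0 ≤ -((1 + -η) * f (v / (1 - η))) + f v - -(η * Real.log (4 * (v0 + d) * q)) :=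
    ge_of_tendsto_of_frequently hlim (hfr2.mono fun k hk => sub_nonneg.mpr hk)
  have hs := hcvx.slope_mono_adjacent (x := v') (y := v) (z := v / (1 - η))
    ⟨hv, by linarith⟩ ⟨by linarith, hv1⟩ hvv hv1'
  set Q := (f v' - f v) / (v - v') with hQ
  have hQe : (f v - f v') / (v - v') = -Q := by
    rw [hQ, ← neg_div]
    ring
  rw [hQe, le_div_iff₀ (by linarith)] at hs
  have hvη : (1 - η) * (v / (1 - η) - v) = η * v := by
    field_simp
    ring
  have h8 : -(Q * (η * v)) ≤ (1 - η) * (f (v / (1 - η)) - f v) := by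
    have := mul_le_mul_of_nonneg_left hs h1η.le
    have e : (1 - η) * (-Q * (v / (1 - η) - v)) = -(Q * ((1 - η) * (v / (1 - η) - v))) := by ring
    rw [e, hvη] at this
    exact this
  have h9 : η * Real.log (4 * (v0 + d) * q) < η * (-(f v + v * Q)) := mul_lt_mul_of_pos_left hlog hη0
  nlinarith

theorem xf_tendsto {a c v0 : ℝ} {f : ℝ → ℝ} (ha : 0 < a)
    (hlim : Tendsto (fun v => f v + 2 * Real.log ((v - v0) / a)) (𝓝[>] v0) (𝓝 c)) :
    Tendsto (fun v => (v - v0) * f v) (𝓝[>] v0) (𝓝 0) := by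
  have h1 : Tendsto (fun v : ℝ => v - v0) (𝓝[>] v0) (𝓝 0) := by
    have : Tendsto (fun v : ℝ => v - v0) (𝓝 v0) (𝓝 (v0 - v0)) :=
      (continuous_id.sub continuous_const).tendsto v0
    rw [sub_self] at this
    exact this.mono_left nhdsWithin_le_nhds
  have h2 : Tendsto (fun v : ℝ => 2 * a * ((v - v0) / a * Real.log ((v - v0) / a))) (𝓝[>] v0)
      (𝓝 0) := by
    have h3 : Tendsto (fun v : ℝ => (v - v0) / a) (𝓝[>] v0) (𝓝 0) := by
      simpa using h1.div_const a
    have h4 := (Real.continuous_mul_log.tendsto 0).comp h3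
    simpa using h4.const_mul (2 * a)
  have h5 := (h1.mul hlim).sub h2
  simp only [zero_mul, sub_zero] at h5
  refine h5.congr fun v => ?_
  field_simp
  ring

/-- the final step -/
theorem holes (hR : S_ratio) (hV : S_CVZ) : S_holes := by
  intro f a c ha hfe hcvx hlim ε hε
  set v0 := 2 * √3 * a ^ 2 with hv0def
  have hv0 : 0 < v0 := by positivity
  have ha2 : 0 < a ^ 2 := by positivity
  set e := min (1 / 4) (ε / (16 * v0)) with he
  have he0 : 0 < e := lt_min (by norm_num) (by positivity)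
  have he1 : e ≤ 1 / 4 := min_le_left _ _
  have he2 : 16 * (v0 * e) ≤ ε := by
    have : e ≤ ε / (16 * v0) := min_le_right _ _
    rw [le_div_iff₀ (by positivity)] at this
    linarith
  obtain ⟨δ₁, hδ₁, hp⟩ := (all_pres f v0 (a ^ 2) a c ha2 ha hcvx hlim).1 e he0
  have hx : Tendsto (fun v : ℝ => v - v0) (𝓝[>] v0) (𝓝 0) := by
    have : Tendsto (fun v : ℝ => v - v0) (𝓝 v0) (𝓝 (v0 - v0)) :=
      (continuous_id.sub continuous_const).tendsto v0
    rw [sub_self] at this
    exact this.mono_left nhdsWithin_le_nhds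
  have hxf := xf_tendsto ha hlim
  have hA : Tendsto (fun v => -((v - v0) * f v) - (v - v0) * Real.log (v0 / 4)) (𝓝[>] v0) (𝓝 0) := by
    simpa using hxf.neg.sub (hx.mul_const (Real.log (v0 / 4)))
  have hB : Tendsto (fun v => (v - v0) * f v + (v - v0) * (Real.log (4 * (v0 + a ^ 2)) + 3)) (𝓝[>] v0) (𝓝 0) := by
    simpa using hxf.add (hx.mul_const (Real.log (4 * (v0 + a ^ 2)) + 3))
  have hev : ∀ᶠ v in 𝓝[>] v0, v - v0 < min (δ₁ / 2) (a ^ 2 / 2) ∧
      -((v - v0) * f v) - (v - v0) * Real.log (v0 / 4) < ε / 4 ∧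
      (v - v0) * f v + (v - v0) * (Real.log (4 * (v0 + a ^ 2)) + 3) < ε / 4 := by
    filter_upwards [hx.eventually_lt_const (show (0:ℝ) < min (δ₁ / 2) (a ^ 2 / 2) by positivity),
      hA.eventually_lt_const (show (0:ℝ) < ε / 4 by positivity),
      hB.eventually_lt_const (show (0:ℝ) < ε / 4 by positivity)] with v h1 h2 h3
    exact ⟨h1, h2, h3⟩
  obtain ⟨w, hw, hsub⟩ := mem_nhdsGT_iff_exists_Ioo_subset.mp hev
  have hw' : v0 < w := hw
  refine ⟨w - v0, by linarith, ?_⟩
  intro v hv hvw N L hN hL hLN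
  obtain ⟨g1, g2, g3⟩ := hsub (show v ∈ Ioo v0 w from ⟨hv, by linarith⟩)
  set x := v - v0 with hxdef
  have hx0 : 0 < x := by linarith
  have gd : x < δ₁ / 2 := g1.trans_le (min_le_left _ _)
  have ga : x < a ^ 2 / 2 := g1.trans_le (min_le_right _ _)
  have hvx : v = v0 + x := by linarith
  have hex : 0 < e * x := by positivity
  have hex1 : e * x ≤ x / 4 := by nlinarith
  -- the upper bound
  have up := hole_up (v' := v + e * x) (q := Real.exp (-(4 * √3 * a ^ 2 - ε) / x)) hR hV ha hfe hcvx hv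
    (by linarith) (by linarith) (Real.exp_pos _) (by
      have hp1 := (hp v (v + e * x) hv (by linarith) (by linarith)).1
      set P := (f v - f (v + e * x)) / (v + e * x - v)
      have e1 : v + e * x - v0 = (1 + e) * x := by linarith
      rw [e1] at hp1
      have h2v : 4 * √3 * a ^ 2 = 2 * v0 := by rw [hv0def]; ring
      rw [h2v, mul_div_assoc, Real.log_mul (Real.exp_pos _).ne' (by positivity), Real.log_exp]
      have hP : (2 - 3 * e) / x ≤ P := by
        refine le_trans ?_ hp1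
        rw [div_le_div_iff₀ hx0 (by positivity)]
        have : (2 - 3 * e) * (1 + e) ≤ 2 - e := by nlinarith
        nlinarith
      have hPx : 2 - 3 * e ≤ P * x := by rwa [div_le_iff₀ hx0] at hP
      have hP0 : 0 ≤ P := le_trans (by apply div_nonneg; linarith; exact hx0.le) hP
      have h3 : v0 * (2 - 3 * e) ≤ v * P * x := by
        have h4 : v0 * (2 - 3 * e) ≤ v0 * (P * x) := mul_le_mul_of_nonneg_left hPx hv0.le
        have h5 : v0 * (P * x) ≤ v * (P * x) := mul_le_mul_of_nonneg_right hv.le (by positivity)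
        linarith
      have h6 : x * (-(f v + v * P)) < x * (-(2 * v0 - ε) / x + Real.log (v0 / 4)) := by
        have h7 : x * (-(2 * v0 - ε) / x + Real.log (v0 / 4)) =
            -(2 * v0 - ε) + x * Real.log (v0 / 4) := by
          field_simp
        rw [h7]
        linarith
      exact lt_of_mul_lt_mul_left h6 hx0.le) hN hL hLN
  -- the lower bound
  have low := hole_low (v' := v - e * x) (q := Real.exp (-(4 * √3 * a ^ 2 + ε) / x)) hR hV ha hfe hcvx
    (by linarith) (by linarith) (by linarith) (Real.exp_pos _) (by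
      have hp1 := (hp (v - e * x) v (by linarith) (by linarith) (by linarith)).2
      set Q := (f (v - e * x) - f v) / (v - (v - e * x))
      have e1 : v - e * x - v0 = (1 - e) * x := by linarith
      rw [e1] at hp1
      have h2v : 4 * √3 * a ^ 2 = 2 * v0 := by rw [hv0def]; ring
      rw [h2v, Real.log_mul (by positivity) (Real.exp_pos _).ne', Real.log_exp]
      have hQ : Q ≤ (2 + 4 * e) / x := by
        refine le_trans hp1 ?_
        have h1e : 0 < 1 - e := by linarith
        rw [div_le_div_iff₀ (by positivity) hx0]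
        have : 2 + e ≤ (2 + 4 * e) * (1 - e) := by nlinarith
        nlinarith
      have hQx : Q * x ≤ 2 + 4 * e := by rwa [le_div_iff₀ hx0] at hQ
      have h3 : v * Q * x ≤ v * (2 + 4 * e) := by
        rw [mul_assoc]
        exact mul_le_mul_of_nonneg_left hQx (by linarith)
      have h4 : v * (2 + 4 * e) ≤ 2 * v0 + 4 * (v0 * e) + 3 * x := by
        rw [hvx]
        nlinarith
      have h6 : x * (Real.log (4 * (v0 + a ^ 2)) + -(2 * v0 + ε) / x) < x * (-(f v + v * Q)) := by
        have h7 : x * (Real.log (4 * (v0 + a ^ 2)) + -(2 * v0 + ε) / x) =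
            x * Real.log (4 * (v0 + a ^ 2)) - (2 * v0 + ε) := by
          field_simp
          ring
        rw [h7]
        linarith
      exact lt_of_mul_lt_mul_left h6 hx0.le) hN hL hLN
  filter_upwards [up, low, hL.eventually_gt_atTop 0] with k h1 h2 h3
  have hLk : 0 < L k ^ 2 * CV a (L k) (N k) := mul_pos (by positivity) h1.1
  refine ⟨h1.1, ?_, ?_⟩
  · rw [le_div_iff₀ hLk]
    linarith [h2.2]
  · rw [div_le_iff₀ hLk]
    linarith [h1.2]

end Pool.Agent.H96.CP
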