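import Pool.Agent.H96.CP.Self

/-!
# Project CP3: the limit of the probability of a hole, at all densities
-/

set_option autoImplicit false

open Real Set MeasureTheory Metric Filter Topology
open scoped ENNReal Nat ComplexConjugate

namespace Pool.Agent.H96.CP

open Pool.Agent.H96.HD

theorem subgrad {v0 v : ℝ} {f : ℝ → ℝ} (hv : v0 < v) (hcvx : ConvexOn ℝ (Ioi v0) f) :
    ∃ g : ℝ, ∀ w : ℝ, v0 < w → f v + g * (w - v) ≤ f w := by
  have hvi : v ∈ interior (Ioi v0) := by rw [interior_Ioi]; exact hv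
  refine ⟨derivWithin f (Ioi v) v, fun w hw => ?_⟩
  rcases lt_trichotomy w v with h | h | h
  · have h1 := hcvx.slope_le_leftDeriv_of_mem_interior (show w ∈ Ioi v0 from hw) hvi h
    have h2 := hcvx.leftDeriv_le_rightDeriv_of_mem_interior hvi
    have h3 := h1.trans h2
    rw [slope_def_field, div_le_iff₀ (by linarith)] at h3
    linarith
  · rw [h]
    linarith
  · have h1 := hcvx.rightDeriv_le_slope_of_mem_interior hvi (show w ∈ Ioi v0 from hw) h
    rw [slope_def_field, le_div_iff₀ (by linarith)] at h1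
    linarith

theorem lim_up (hR : S_ratio) (hV : S_CVZ) {a v g q : ℝ} {f : ℝ → ℝ} (ha : 0 < a)
    (hv : 2 * √3 * a ^ 2 < v)
    (hfe : ∀ v : ℝ, 2 * √3 * a ^ 2 < v → IsFreeEnergy a v (f v))
    (hg : ∀ w : ℝ, 2 * √3 * a ^ 2 < w → f v + g * (w - v) ≤ f w)
    (hq : Real.exp (-f v + v * g) / v < q)
    {N : ℕ → ℕ} {L : ℕ → ℝ} (hN : Tendsto N atTop atTop) (hL : Tendsto L atTop atTop)
    (hLN : Tendsto (fun k => L k ^ 2 / N k) atTop (𝓝 v)) :
    ∀ᶠ k in atTop, 0 < CV a (L k) (N k) ∧
      CV a (L k) (N k + 1) ≤ q * L k ^ 2 * CV a (L k) (N k) := by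
  set v0 := 2 * √3 * a ^ 2 with hv0def
  have hv0 : 0 < v0 := by positivity
  have hvpos : 0 < v := hv0.trans hv
  have hC : 0 < 4 * π * a ^ 2 := by positivity
  set H := Real.exp (-f v + v * g) / v with hH
  have hH0 : 0 < H := by positivity
  obtain ⟨q1, hq1, hq2⟩ := exists_between hq
  have hq10 : 0 < q1 := hH0.trans hq1
  obtain ⟨η, hη0, hη1, hη2, hη3, hη4⟩ : ∃ η : ℝ, 0 < η ∧ η ≤ 1 ∧ η * (2 * v0) ≤ v - v0 ∧
      η * (4 * π * a ^ 2) ≤ (q - q1) * v0 ∧ η * (2 * H) ≤ q1 - H := by
    refine ⟨min (min 1 ((v - v0) / (2 * v0))) (min ((q - q1) * v0 / (4 * π * a ^ 2))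
      ((q1 - H) / (2 * H))), ?_, ?_, ?_, ?_, ?_⟩
    · exact lt_min (lt_min one_pos (div_pos (by linarith) (by positivity)))
        (lt_min (div_pos (mul_pos (by linarith) hv0) hC) (div_pos (by linarith) (by positivity)))
    · exact (min_le_left _ _).trans (min_le_left _ _)
    · rw [← le_div_iff₀ (by positivity)]
      exact (min_le_left _ _).trans (min_le_right _ _)
    · rw [← le_div_iff₀ hC]
      exact (min_le_right _ _).trans (min_le_left _ _)
    · rw [← le_div_iff₀ (by positivity)]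
      exact (min_le_right _ _).trans (min_le_right _ _)
  have hv1 : v0 < v / (1 + η) := by
    rw [lt_div_iff₀ (by linarith)]
    nlinarith
  have hNr : Tendsto (fun k => (N k : ℝ)) atTop atTop := tendsto_natCast_atTop_atTop.comp hN
  set K : ℕ → ℕ := fun k => ⌊η * N k⌋₊ with hK
  have hKN : Tendsto (fun k => (K k : ℝ) / N k) atTop (𝓝 η) := fl_tendsto hN hη0.le
  have hN' : Tendsto (fun k => ((N k + K k : ℕ) : ℝ) / N k) atTop (𝓝 (1 + η)) := by
    refine (hKN.const_add 1).congr' ?_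
    filter_upwards [hNr.eventually_gt_atTop 0] with k hk
    push_cast
    field_simp
  obtain ⟨p1, p2, hw⟩ := window (a := a) (v := v) (s := η) (f := f) (by linarith)
    (hfe v hv) (hfe _ hv1) hN hL hLN hN'
  have hpos : ∀ᶠ k in atTop, 0 < CV a (L k) (N k) := by
    filter_upwards [p1] with k hk
    rw [hV a _ _ ha]
    positivity
  have hbig : ∀ᶠ k in atTop, v0 * N k ≤ L k ^ 2 := by
    filter_upwards [hLN.eventually_const_lt hv, hNr.eventually_gt_atTop 0] with k h1 h2
    rw [lt_div_iff₀ h2] at h1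
    exact h1.le
  by_contra hcon
  have hfr : ∃ᶠ k in atTop, q * L k ^ 2 * CV a (L k) (N k) < CV a (L k) (N k + 1) := by
    intro h
    apply hcon
    filter_upwards [hpos, h] with k h1 h2
    exact ⟨h1, not_lt.mp h2⟩
  have hlogt : Tendsto (fun k => Real.log (q1 * ((L k ^ 2 / N k) / (((N k + K k : ℕ) : ℝ) / N k))))
      atTop (𝓝 (Real.log (q1 * (v / (1 + η))))) :=
    ((hLN.div hN' (by linarith)).const_mul q1).log (by positivity)
  have hfr2 : ∃ᶠ k in atTop, 0 ≤
      (Real.log (Z a (L k) (N k + K k)) - Real.log (Z a (L k) (N k))) / N k -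
      (K k : ℝ) / N k * Real.log (q1 * ((L k ^ 2 / N k) / (((N k + K k : ℕ) : ℝ) / N k))) := by
    refine (hfr.and_eventually (hpos.and (p1.and (p2.and (hbig.and ((hNr.eventually_ge_atTop 1).and
      (hL.eventually_gt_atTop 0))))))).mono ?_
    rintro k ⟨h1, h2, h3, h4, h5, h6, h7⟩
    have hNpos : (0:ℝ) < N k := by linarith
    have hr : q * L k ^ 2 ≤ CV a (L k) (N k + 1) / CV a (L k) (N k) := by
      rw [le_div_iff₀ h2]
      exact h1.le
    have hKle : (K k : ℝ) ≤ η * N k := Nat.floor_le (by positivity)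
    have hL2 : 0 < L k ^ 2 := by positivity
    have hk : (K k : ℝ) * (4 * π * a ^ 2) ≤ (q - q1) * L k ^ 2 := by
      have e1 : (K k : ℝ) * (4 * π * a ^ 2) ≤ η * N k * (4 * π * a ^ 2) :=
        mul_le_mul_of_nonneg_right hKle hC.le
      have e2 : η * (4 * π * a ^ 2) * N k ≤ (q - q1) * v0 * N k :=
        mul_le_mul_of_nonneg_right hη3 hNpos.le
      have e3 : (q - q1) * (v0 * N k) ≤ (q - q1) * L k ^ 2 :=
        mul_le_mul_of_nonneg_left h5 (by linarith)
      linarith
    obtain ⟨c1, -, c2⟩ := up_gen hR ha h7.le (s := (q - q1) * L k ^ 2) (t := q * L k ^ 2)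
      (by nlinarith) h2 hr hk (K k) le_rfl
    have et : q * L k ^ 2 - (q - q1) * L k ^ 2 = q1 * L k ^ 2 := by ring
    rw [et] at c2
    have hf1 : Real.log (CV a (L k) (N k)) = Real.log ((N k)! : ℝ) + Real.log (Z a (L k) (N k)) := by
      rw [hV a _ _ ha, Real.log_mul (by positivity) h3.ne']
    have hf2 : Real.log (CV a (L k) (N k + K k)) =
        Real.log ((N k + K k)! : ℝ) + Real.log (Z a (L k) (N k + K k)) := by
      rw [hV a _ _ ha, Real.log_mul (by positivity) h4.ne']
    have hNK : (0:ℝ) < (N k : ℝ) + K k := by positivity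
    have hfac : Real.log ((N k + K k)! : ℝ) ≤
        Real.log ((N k)! : ℝ) + K k * Real.log ((N k : ℝ) + K k) := by
      rw [← Real.log_pow, ← Real.log_mul (by positivity) (by positivity)]
      apply Real.log_le_log (by positivity)
      exact_mod_cast fac_le (N k) (K k)
    have hlog : Real.log (q1 * ((L k ^ 2 / N k) / (((N k + K k : ℕ) : ℝ) / N k))) =
        Real.log (q1 * L k ^ 2) - Real.log ((N k : ℝ) + K k) := by
      rw [← Real.log_div (by positivity) hNK.ne']
      congr 1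
      push_cast
      field_simp
    rw [hlog, div_mul_eq_mul_div, ← sub_div]
    exact div_nonneg (by linarith) hNpos.le
  have hge := ge_of_tendsto_of_frequently (hw.sub (hKN.mul hlogt)) hfr2
  have h8 := mul_le_mul_of_nonneg_left (hg (v / (1 + η)) hv1) (show 0 ≤ 1 + η by linarith)
  have e8 : (1 + η) * (f v + g * (v / (1 + η) - v)) = (1 + η) * f v - η * (g * v) := by
    field_simp
    ring
  rw [e8] at h8
  have h9 : Real.log (q1 * (v / (1 + η))) ≤ -f v + v * g := by
    have : η * Real.log (q1 * (v / (1 + η))) ≤ η * (-f v + v * g) := by linarith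
    exact le_of_mul_le_mul_left this hη0
  rw [Real.log_le_iff_le_exp (by positivity)] at h9
  have h10 : Real.exp (-f v + v * g) = H * v := by
    rw [hH]
    field_simp
  rw [h10, mul_div_assoc', div_le_iff₀ (by linarith)] at h9
  have h11 : q1 ≤ H * (1 + η) := by
    have : q1 * v ≤ H * (1 + η) * v := by linarith
    exact le_of_mul_le_mul_right this hvpos
  nlinarith

theorem lim_low (hR : S_ratio) (hV : S_CVZ) {a v g q : ℝ} {f : ℝ → ℝ} (ha : 0 < a)
    (hv : 2 * √3 * a ^ 2 < v)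
    (hfe : ∀ v : ℝ, 2 * √3 * a ^ 2 < v → IsFreeEnergy a v (f v))
    (hg : ∀ w : ℝ, 2 * √3 * a ^ 2 < w → f v + g * (w - v) ≤ f w)
    (hq0 : 0 < q) (hq : q < Real.exp (-f v + v * g) / v)
    {N : ℕ → ℕ} {L : ℕ → ℝ} (hN : Tendsto N atTop atTop) (hL : Tendsto L atTop atTop)
    (hLN : Tendsto (fun k => L k ^ 2 / N k) atTop (𝓝 v)) :
    ∀ᶠ k in atTop, 0 < CV a (L k) (N k) ∧
      q * L k ^ 2 * CV a (L k) (N k) ≤ CV a (L k) (N k + 1) := by
  set v0 := 2 * √3 * a ^ 2 with hv0def
  have hv0 : 0 < v0 := by positivity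
  have hvpos : 0 < v := hv0.trans hv
  have hC : 0 < 4 * π * a ^ 2 := by positivity
  set H := Real.exp (-f v + v * g) / v with hH
  have hH0 : 0 < H := by positivity
  obtain ⟨q1, hq1, hq2⟩ := exists_between hq
  have hq10 : 0 < q1 := hq0.trans hq1
  obtain ⟨η, hη0, hη1, hη3, hη4⟩ : ∃ η : ℝ, 0 < η ∧ η ≤ 1 / 2 ∧
      η * (4 * π * a ^ 2) ≤ (q1 - q) * v0 ∧ η * (2 * H) ≤ H - q1 := by
    refine ⟨min (1 / 2) (min ((q1 - q) * v0 / (4 * π * a ^ 2))
      ((H - q1) / (2 * H))), ?_, ?_, ?_, ?_⟩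
    · exact lt_min (by norm_num)
        (lt_min (div_pos (mul_pos (by linarith) hv0) hC) (div_pos (by linarith) (by positivity)))
    · exact min_le_left _ _
    · rw [← le_div_iff₀ hC]
      exact (min_le_right _ _).trans (min_le_left _ _)
    · rw [← le_div_iff₀ (by positivity)]
      exact (min_le_right _ _).trans (min_le_right _ _)
  have h1η : 0 < 1 - η := by linarith
  have hve : v / (1 + -η) = v / (1 - η) := by rw [← sub_eq_add_neg]
  have hv1 : v0 < v / (1 - η) := by
    have : v ≤ v / (1 - η) := by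
      rw [le_div_iff₀ h1η]
      nlinarith
    linarith
  have hNr : Tendsto (fun k => (N k : ℝ)) atTop atTop := tendsto_natCast_atTop_atTop.comp hN
  set K : ℕ → ℕ := fun k => ⌊η * N k⌋₊ with hK
  have hKN : Tendsto (fun k => (K k : ℝ) / N k) atTop (𝓝 η) := fl_tendsto hN hη0.le
  have hKle : ∀ k, (K k : ℝ) ≤ η * N k := fun k => Nat.floor_le (by positivity)
  have hKN' : ∀ k, K k ≤ N k := by
    intro k
    have h1 : (K k : ℝ) ≤ N k := (hKle k).trans (by nlinarith [Nat.cast_nonneg (α := ℝ) (N k)])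
    exact_mod_cast h1
  have hN' : Tendsto (fun k => ((N k - K k : ℕ) : ℝ) / N k) atTop (𝓝 (1 + -η)) := by
    refine (hKN.neg.const_add 1).congr' ?_
    filter_upwards [hNr.eventually_gt_atTop 0] with k hk
    rw [Nat.cast_sub (hKN' k)]
    field_simp
    ring
  obtain ⟨p1, p2, hw⟩ := window (a := a) (v := v) (s := -η) (f := f) (by linarith)
    (hfe v hv) (by rw [hve]; exact hfe _ hv1) hN hL hLN hN'
  rw [hve] at hw
  have hpos : ∀ᶠ k in atTop, 0 < CV a (L k) (N k) := by
    filter_upwards [p1] with k hk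
    rw [hV a _ _ ha]
    positivity
  have hbig : ∀ᶠ k in atTop, v0 * N k ≤ L k ^ 2 := by
    filter_upwards [hLN.eventually_const_lt hv, hNr.eventually_gt_atTop 0] with k h1 h2
    rw [lt_div_iff₀ h2] at h1
    exact h1.le
  by_contra hcon
  have hfr : ∃ᶠ k in atTop, CV a (L k) (N k + 1) < q * L k ^ 2 * CV a (L k) (N k) := by
    intro h
    apply hcon
    filter_upwards [hpos, h] with k h1 h2
    exact ⟨h1, not_lt.mp h2⟩
  have hlogt : Tendsto (fun k => Real.log (q1 * ((L k ^ 2 / N k) / (((N k - K k : ℕ) : ℝ) / N k))))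
      atTop (𝓝 (Real.log (q1 * (v / (1 - η))))) := by
    have h1 := ((hLN.div hN' (by linarith)).const_mul q1).log
      (by rw [hve]; positivity)
    rw [hve] at h1
    exact h1
  have hfr2 : ∃ᶠ k in atTop, 0 ≤
      (Real.log (Z a (L k) (N k - K k)) - Real.log (Z a (L k) (N k))) / N k +
      (K k : ℝ) / N k * Real.log (q1 * ((L k ^ 2 / N k) / (((N k - K k : ℕ) : ℝ) / N k))) := by
    refine (hfr.and_eventually (hpos.and (p1.and (p2.and (hbig.and ((hNr.eventually_ge_atTop 1).and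
      (hL.eventually_gt_atTop 0))))))).mono ?_
    rintro k ⟨h1, h2, h3, h4, h5, h6, h7⟩
    have hNpos : (0:ℝ) < N k := by linarith
    have hr : CV a (L k) (N k + 1) / CV a (L k) (N k) ≤ q * L k ^ 2 := by
      rw [div_le_iff₀ h2]
      exact h1.le
    have hL2 : 0 < L k ^ 2 := by positivity
    have hk : (K k : ℝ) * (4 * π * a ^ 2) ≤ (q1 - q) * L k ^ 2 := by
      have e1 : (K k : ℝ) * (4 * π * a ^ 2) ≤ η * N k * (4 * π * a ^ 2) :=
        mul_le_mul_of_nonneg_right (hKle k) hC.le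
      have e2 : η * (4 * π * a ^ 2) * N k ≤ (q1 - q) * v0 * N k :=
        mul_le_mul_of_nonneg_right hη3 hNpos.le
      have e3 : (q1 - q) * (v0 * N k) ≤ (q1 - q) * L k ^ 2 :=
        mul_le_mul_of_nonneg_left h5 (by linarith)
      linarith
    obtain ⟨c1, -, c2⟩ := low_gen hR ha h7.le (s := (q1 - q) * L k ^ 2) (t := q * L k ^ 2)
      (hKN' k) h2 hr hk (K k) le_rfl
    have et : q * L k ^ 2 + (q1 - q) * L k ^ 2 = q1 * L k ^ 2 := by ring
    rw [et] at c2
    have hf1 : Real.log (CV a (L k) (N k)) = Real.log ((N k)! : ℝ) + Real.log (Z a (L k) (N k)) := by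
      rw [hV a _ _ ha, Real.log_mul (by positivity) h3.ne']
    have hf2 : Real.log (CV a (L k) (N k - K k)) =
        Real.log ((N k - K k)! : ℝ) + Real.log (Z a (L k) (N k - K k)) := by
      rw [hV a _ _ ha, Real.log_mul (by positivity) h4.ne']
    have hNKe : ((N k - K k : ℕ) : ℝ) = (N k : ℝ) - K k := Nat.cast_sub (hKN' k)
    have hNK2 : (N k : ℝ) / 2 ≤ (N k : ℝ) - K k := by
      have := hKle k
      nlinarith
    have hNK : (0:ℝ) < (N k : ℝ) - K k := by linarith
    have hfac : Real.log ((N k - K k)! : ℝ) + K k * Real.log ((N k : ℝ) - K k) ≤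
        Real.log ((N k)! : ℝ) := by
      rw [← hNKe, ← Real.log_pow, ← Real.log_mul (by positivity) (by rw [hNKe]; positivity)]
      apply Real.log_le_log (by rw [hNKe]; positivity)
      have h8 := Nat.factorial_mul_pow_sub_le_factorial (Nat.sub_le (N k) (K k))
      rw [Nat.sub_sub_self (hKN' k)] at h8
      exact_mod_cast h8
    have hlog : Real.log (q1 * ((L k ^ 2 / N k) / (((N k - K k : ℕ) : ℝ) / N k))) =
        Real.log (q1 * L k ^ 2) - Real.log ((N k : ℝ) - K k) := by
      rw [← Real.log_div (by positivity) hNK.ne', hNKe]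
      congr 1
      field_simp
    rw [hlog, div_mul_eq_mul_div, ← add_div]
    exact div_nonneg (by linarith) hNpos.le
  have hge := ge_of_tendsto_of_frequently (hw.add (hKN.mul hlogt)) hfr2
  have h8 := mul_le_mul_of_nonneg_left (hg (v / (1 - η)) hv1) h1η.le
  have e8 : (1 - η) * (f v + g * (v / (1 - η) - v)) = (1 - η) * f v + η * (g * v) := by
    field_simp
    ring
  rw [e8] at h8
  have h9 : -f v + v * g ≤ Real.log (q1 * (v / (1 - η))) := by
    have : η * (-f v + v * g) ≤ η * Real.log (q1 * (v / (1 - η))) := by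
      have e9 : (1 + -η) * f (v / (1 - η)) = (1 - η) * f (v / (1 - η)) := by ring
      rw [e9] at hge
      linarith
    exact le_of_mul_le_mul_left this hη0
  rw [Real.le_log_iff_exp_le (by positivity)] at h9
  have h10 : Real.exp (-f v + v * g) = H * v := by
    rw [hH]
    field_simp
  rw [h10, mul_div_assoc', le_div_iff₀ h1η] at h9
  have h11 : H * (1 - η) ≤ q1 := by
    have : H * (1 - η) * v ≤ q1 * v := by linarith
    exact le_of_mul_le_mul_right this hvpos
  nlinarith

/-- **Widom's formula in the thermodynamic limit.** -/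
theorem lim_ratio (hR : S_ratio) (hV : S_CVZ) {a v g : ℝ} {f : ℝ → ℝ} (ha : 0 < a)
    (hv : 2 * √3 * a ^ 2 < v)
    (hfe : ∀ v : ℝ, 2 * √3 * a ^ 2 < v → IsFreeEnergy a v (f v))
    (hg : ∀ w : ℝ, 2 * √3 * a ^ 2 < w → f v + g * (w - v) ≤ f w)
    {N : ℕ → ℕ} {L : ℕ → ℝ} (hN : Tendsto N atTop atTop) (hL : Tendsto L atTop atTop)
    (hLN : Tendsto (fun k => L k ^ 2 / N k) atTop (𝓝 v)) :
    Tendsto (fun k => CV a (L k) (N k + 1) / (L k ^ 2 * CV a (L k) (N k))) atTop
      (𝓝 (Real.exp (-f v + v * g) / v)) := by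
  have hvpos : 0 < v := lt_trans (by positivity) hv
  rw [tendsto_order]
  constructor
  · intro b hb
    obtain ⟨q, hq1, hq2⟩ := exists_between (max_lt hb (show (0:ℝ) < Real.exp (-f v + v * g) / v by positivity))
    have hq0 : 0 < q := (le_max_right _ _).trans_lt hq1
    filter_upwards [lim_low hR hV ha hv hfe hg hq0 hq2 hN hL hLN, hL.eventually_gt_atTop 0] with k h1 h2
    have h3 := h1.1
    refine ((le_max_left _ _).trans_lt hq1).trans_le ?_
    rw [le_div_iff₀ (by positivity)]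
    linarith [h1.2]
  · intro b hb
    obtain ⟨q, hq1, hq2⟩ := exists_between hb
    filter_upwards [lim_up hR hV ha hv hfe hg hq1 hN hL hLN, hL.eventually_gt_atTop 0] with k h1 h2
    have h3 := h1.1
    refine lt_of_le_of_lt ?_ hq2
    rw [div_le_iff₀ (by positivity)]
    linarith [h1.2]

end Pool.Agent.H96.CP
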