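import Pool.Agent.H96.CP.Stm9
import Pool.Agent.H96.CP.HoleLaw
import Pool.Agent.H96.CP.Greedy

/-!
# Project CP3: the number of the disks that can be added simultaneously
-/

set_option autoImplicit false

open Real Set MeasureTheory Metric Filter Topology
open scoped ENNReal Nat ComplexConjugate

namespace Pool.Agent.H96.CP

open Pool.Agent.H96.HD

theorem Add.mono {a L : ℝ} {N : ℕ} {x : Fin N → ℂ} {m n : ℕ} (h : Add a L x n) (hmn : m ≤ n) :
    Add a L x m := by
  obtain ⟨y, ⟨h1, h2⟩, h3⟩ := h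
  refine ⟨fun i => y (Fin.castLE hmn i), ⟨fun i => h1 _, fun i j hij => h2 _ _ ?_⟩, fun i j => h3 i _⟩
  exact fun h => hij (Fin.castLE_injective hmn h)

theorem fac_ge (n : ℕ) (hn : 0 < n) : (n : ℝ) * Real.log n - n ≤ Real.log (n ! : ℝ) := by
  have h1 := Real.pow_div_factorial_le_exp (n : ℝ) (Nat.cast_nonneg n) n
  have hn' : (0:ℝ) < n := by exact_mod_cast hn
  have hf : (0:ℝ) < (n ! : ℝ) := by positivity
  have h2 := Real.log_le_log (by positivity) h1
  rw [Real.log_exp, Real.log_div (by positivity) hf.ne', Real.log_pow] at h2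
  linarith

/-- few disks can be added -/
theorem num_lim (hA : S_add) (hS : S_scale) (hV : S_CVZ) {a v w θ ν : ℝ} {f : ℝ → ℝ} (ha : 0 < a)
    (hv : 2 * √3 * a ^ 2 < v) (hw : 2 * √3 * a ^ 2 < w)
    (hfe : ∀ v : ℝ, 2 * √3 * a ^ 2 < v → IsFreeEnergy a v (f v))
    (hθ : 0 < θ) (hθ1 : θ < 1) (hν : 0 < ν) (hwe : w = v / ((1 - θ) ^ 2 * (1 + ν)))
    (hΛ : ν * (Real.log ((1 + ν) / ν) + 1 - Real.log (π * (θ * a) ^ 2)) - (1 + ν) * f w + f v < 0)
    {N : ℕ → ℕ} {L : ℕ → ℝ} (hN : Tendsto N atTop atTop) (hL : Tendsto L atTop atTop)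
    (hLN : Tendsto (fun k => L k ^ 2 / N k) atTop (𝓝 v)) {τ : ℝ} (hτ : 0 < τ) :
    ∀ᶠ k in atTop, (volume {x : Fin (N k) → ℂ | x ∈ CC a (L k) (Fin (N k)) ∧
      Add a (L k) x ⌈ν * N k⌉₊}).toReal ≤ τ * CV a (L k) (N k) := by
  have h1θ : 0 < 1 - θ := by linarith
  have hs : 0 < θ * a := by positivity
  have hsa : θ * a < a := by nlinarith
  set β := π * (θ * a) ^ 2 with hβ
  have hβ0 : 0 < β := by positivity
  set n : ℕ → ℕ := fun k => ⌈ν * N k⌉₊ with hn
  set L' : ℕ → ℝ := fun k => (L k + 2 * (θ * a)) / (1 - θ) with hL'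
  have hNr : Tendsto (fun k => (N k : ℝ)) atTop atTop := tendsto_natCast_atTop_atTop.comp hN
  have hnN : Tendsto (fun k => (n k : ℝ) / N k) atTop (𝓝 ν) :=
    (tendsto_nat_ceil_mul_div_atTop hν.le).comp hNr
  have hnpos : ∀ᶠ k in atTop, 0 < n k := by
    filter_upwards [hNr.eventually_gt_atTop 0] with k hk
    exact Nat.ceil_pos.mpr (by positivity)
  have hN'N : Tendsto (fun k => ((N k + n k : ℕ) : ℝ) / N k) atTop (𝓝 (1 + ν)) := by
    refine (hnN.const_add 1).congr' ?_
    filter_upwards [hNr.eventually_gt_atTop 0] with k hk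
    push_cast
    field_simp
  have hN' : Tendsto (fun k => N k + n k) atTop atTop :=
    tendsto_atTop_mono (fun k => Nat.le_add_right _ _) hN
  have hL't : Tendsto L' atTop atTop :=
    (tendsto_atTop_add_const_right _ _ hL).atTop_div_const h1θ
  have hLL : Tendsto (fun k => L' k / L k) atTop (𝓝 (1 / (1 - θ))) := by
    have h1 : Tendsto (fun k => (1 + 2 * (θ * a) / L k) / (1 - θ)) atTop (𝓝 ((1 + 0) / (1 - θ))) :=
      ((tendsto_const_nhds.div_atTop hL).const_add 1).div_const _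
    rw [add_zero] at h1
    refine h1.congr' ?_
    filter_upwards [hL.eventually_gt_atTop 0] with k hk
    simp only [hL']
    field_simp
  have hLN' : Tendsto (fun k => L' k ^ 2 / ((N k + n k : ℕ) : ℝ)) atTop (𝓝 w) := by
    have h1 := ((hLL.pow 2).mul hLN).div hN'N (by linarith)
    have e : (1 / (1 - θ)) ^ 2 * v / (1 + ν) = w := by
      rw [hwe]
      field_simp
    rw [e] at h1
    refine h1.congr' ?_
    filter_upwards [hNr.eventually_gt_atTop 0, hL.eventually_gt_atTop 0] with k hk hk'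
    have : (0:ℝ) < ((N k + n k : ℕ) : ℝ) := by positivity
    simp only [Pi.div_apply]
    field_simp
  obtain ⟨p1, q1⟩ := hfe v hv N L hN hL hLN
  obtain ⟨p2, q2⟩ := hfe w hw _ L' hN' hL't hLN'
  by_contra hcon
  have hfr : ∃ᶠ k in atTop, τ * CV a (L k) (N k) < (volume {x : Fin (N k) → ℂ |
      x ∈ CC a (L k) (Fin (N k)) ∧ Add a (L k) x (n k)}).toReal := by
    intro h
    apply hcon
    filter_upwards [h] with k hk
    exact not_lt.mp hk
  have hlog1 : Tendsto (fun k => Real.log ((((N k + n k : ℕ) : ℝ) / N k) / ((n k : ℝ) / N k))) atTop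
      (𝓝 (Real.log ((1 + ν) / ν))) :=
    (hN'N.div hnN hν.ne').log (by positivity)
  have hinv : Tendsto (fun k => Real.log τ / N k) atTop (𝓝 0) := tendsto_const_nhds.div_atTop hNr
  have hT := ((hnN.mul ((hlog1.add_const 1).sub_const (Real.log β))).sub
    (hN'N.mul q2)).add (q1.sub hinv)
  rw [sub_zero] at hT
  have hfr2 : ∃ᶠ k in atTop, 0 ≤ (n k : ℝ) / N k *
      (Real.log ((((N k + n k : ℕ) : ℝ) / N k) / ((n k : ℝ) / N k)) + 1 - Real.log β) -
      ((N k + n k : ℕ) : ℝ) / N k * (-Real.log (Z a (L' k) (N k + n k)) / ((N k + n k : ℕ) : ℝ)) +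
      (-Real.log (Z a (L k) (N k)) / N k - Real.log τ / N k) := by
    refine (hfr.and_eventually (p1.and (p2.and (hnpos.and ((hNr.eventually_gt_atTop 0).and
      (hL.eventually_gt_atTop 0)))))).mono ?_
    rintro k ⟨h1, h2, h3, h4, h5, h6⟩
    have hnk : (0:ℝ) < n k := by exact_mod_cast h4
    have g1 := hA a (L k) (θ * a) (N k) (n k) hs hsa h6.le
    have g2 : CV (a - θ * a) (L k + 2 * (θ * a)) (N k + n k) ≤ CV a (L' k) (N k + n k) := by
      have e1 : a - θ * a = (1 - θ) * a := by ring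
      have e2 : L k + 2 * (θ * a) = (1 - θ) * L' k := by
        simp only [hL']
        field_simp
      rw [e1, e2, hS a (L' k) (1 - θ) _ h1θ]
      have e3 : (1 - θ) ^ (2 * (N k + n k)) ≤ 1 := pow_le_one₀ h1θ.le (by linarith)
      have e4 := CV_nonneg a (L' k) (N k + n k)
      nlinarith
    have hfac0 : (0:ℝ) < ((n k)! : ℝ) * β ^ n k := by positivity
    have hCV : 0 < CV a (L k) (N k) := by
      rw [hV a _ _ ha]
      positivity
    have g3 : τ * CV a (L k) (N k) * (((n k)! : ℝ) * β ^ n k) ≤ CV a (L' k) (N k + n k) :=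
      (mul_le_mul_of_nonneg_right h1.le hfac0.le).trans (g1.trans g2)
    have g4 := Real.log_le_log (by positivity) g3
    rw [Real.log_mul (by positivity) hfac0.ne', Real.log_mul hτ.ne' hCV.ne',
      Real.log_mul (by positivity) (by positivity), Real.log_pow, hV a (L k) _ ha, hV a (L' k) _ ha,
      Real.log_mul (by positivity) h2.ne', Real.log_mul (by positivity) h3.ne'] at g4
    have hfac : Real.log ((N k + n k)! : ℝ) ≤
        Real.log ((N k)! : ℝ) + n k * Real.log ((N k : ℝ) + n k) := by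
      rw [← Real.log_pow, ← Real.log_mul (by positivity) (by positivity)]
      apply Real.log_le_log (by positivity)
      exact_mod_cast fac_le (N k) (n k)
    have hfac2 := fac_ge (n k) h4
    have hlog : Real.log ((((N k + n k : ℕ) : ℝ) / N k) / ((n k : ℝ) / N k)) =
        Real.log ((N k : ℝ) + n k) - Real.log (n k) := by
      rw [← Real.log_div (by positivity) hnk.ne']
      congr 1
      push_cast
      field_simp
    have hNn : (0:ℝ) < ((N k + n k : ℕ) : ℝ) := by positivity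
    have e5 : ((N k + n k : ℕ) : ℝ) / N k *
        (-Real.log (Z a (L' k) (N k + n k)) / ((N k + n k : ℕ) : ℝ)) =
        -Real.log (Z a (L' k) (N k + n k)) / N k := by
      field_simp
    rw [hlog, e5]
    have e6 : (n k : ℝ) / N k * (Real.log ((N k : ℝ) + n k) - Real.log (n k) + 1 - Real.log β) -
        -Real.log (Z a (L' k) (N k + n k)) / N k +
        (-Real.log (Z a (L k) (N k)) / N k - Real.log τ / N k) =
        ((n k : ℝ) * (Real.log ((N k : ℝ) + n k) - Real.log (n k) + 1 - Real.log β) +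
        Real.log (Z a (L' k) (N k + n k)) - Real.log (Z a (L k) (N k)) - Real.log τ) / N k := by
      ring
    rw [e6]
    refine div_nonneg ?_ h5.le
    linarith
  have hge := ge_of_tendsto_of_frequently hT hfr2
  linarith

/-- the bound near close packing -/
theorem num_few (hA : S_add) (hS : S_scale) (hV : S_CVZ) {a c : ℝ} {f : ℝ → ℝ} (ha : 0 < a)
    (hfe : ∀ v : ℝ, 2 * √3 * a ^ 2 < v → IsFreeEnergy a v (f v))
    (hcvx : ConvexOn ℝ (Ioi (2 * √3 * a ^ 2)) f)
    (hlim : Tendsto (fun v => f v + 2 * Real.log ((v - 2 * √3 * a ^ 2) / a))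
      (𝓝[>] (2 * √3 * a ^ 2)) (𝓝 c)) {ε : ℝ} (hε : 0 < ε) (hε1 : ε ≤ 2 * √3 * a ^ 2 / 3) :
    ∃ δ : ℝ, 0 < δ ∧ ∀ v : ℝ, 2 * √3 * a ^ 2 < v → v < 2 * √3 * a ^ 2 + δ →
    ∀ (N : ℕ → ℕ) (L : ℕ → ℝ), Tendsto N atTop atTop → Tendsto L atTop atTop →
    Tendsto (fun k => L k ^ 2 / N k) atTop (𝓝 v) → ∀ τ : ℝ, 0 < τ →
    ∀ᶠ k in atTop, (volume {x : Fin (N k) → ℂ | x ∈ CC a (L k) (Fin (N k)) ∧
      Add a (L k) x ⌈Real.exp (-(4 * √3 * a ^ 2 / 3 - ε) / (v - 2 * √3 * a ^ 2)) * N k⌉₊}).toReal ≤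
        τ * CV a (L k) (N k) := by
  set v0 := 2 * √3 * a ^ 2 with hv0def
  have hv0 : 0 < v0 := by positivity
  have ha2 : 0 < a ^ 2 := by positivity
  set e := min (1 / 4) (ε / (11 * v0)) with he
  have he0 : 0 < e := lt_min (by norm_num) (by positivity)
  have he1 : e ≤ 1 / 4 := min_le_left _ _
  have he2 : v0 * (11 * e) ≤ ε := by
    have : e ≤ ε / (11 * v0) := min_le_right _ _
    rw [le_div_iff₀ (by positivity)] at this
    linarith
  obtain ⟨δ₁, hδ₁, hp⟩ := (all_pres f v0 (a ^ 2) a c ha2 ha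
    (hcvx.subset Ioo_subset_Ioi_self (convex_Ioo _ _)) hlim).1 e he0
  have hx : Tendsto (fun v : ℝ => v - v0) (𝓝[>] v0) (𝓝 0) := by
    have : Tendsto (fun v : ℝ => v - v0) (𝓝 v0) (𝓝 (v0 - v0)) :=
      (continuous_id.sub continuous_const).tendsto v0
    rw [sub_self] at this
    exact this.mono_left nhdsWithin_le_nhds
  have hxf := xf_tendsto ha hlim
  set Cη := Real.log 2 + 1 - Real.log (π * a ^ 2 * e ^ 2) with hCη
  have hB : Tendsto (fun v => (v - v0) * Cη - (v - v0) * f v) (𝓝[>] v0) (𝓝 0) := by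
    simpa using (hx.mul_const Cη).sub hxf
  have hev : ∀ᶠ v in 𝓝[>] v0, v - v0 < min (δ₁ / 2) (v0 / 36) ∧
      (v - v0) * Cη - (v - v0) * f v < ε := by
    filter_upwards [hx.eventually_lt_const (show (0:ℝ) < min (δ₁ / 2) (v0 / 36) by positivity),
      hB.eventually_lt_const hε] with v h1 h2
    exact ⟨h1, h2⟩
  obtain ⟨z, hz, hsub⟩ := mem_nhdsGT_iff_exists_Ioo_subset.mp hev
  have hz' : v0 < z := hz
  refine ⟨z - v0, by linarith, ?_⟩
  intro v hv hvz N L hN hL hLN τ hτ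
  obtain ⟨g1, g2⟩ := hsub (show v ∈ Ioo v0 z from ⟨hv, by linarith⟩)
  set x := v - v0 with hxdef
  have hx0 : 0 < x := by linarith
  have gd : x < δ₁ / 2 := g1.trans_le (min_le_left _ _)
  have gv : x < v0 / 36 := g1.trans_le (min_le_right _ _)
  obtain ⟨g, hg⟩ := subgrad hv hcvx
  set u := (2 * v0 / 3 - ε) / x with hu
  have hu0 : 0 < u := div_pos (by linarith) hx0
  have hux : u * x = 2 * v0 / 3 - ε := by
    rw [hu]
    field_simp
  set ν := Real.exp (-u) with hν
  have hν0 : 0 < ν := Real.exp_pos _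
  have h43 : 4 * √3 * a ^ 2 / 3 = 2 * v0 / 3 := by rw [hv0def]; ring
  have hνe : Real.exp (-(4 * √3 * a ^ 2 / 3 - ε) / x) = ν := by
    rw [hν, hu, h43, neg_div]
  rw [hνe]
  -- `ν v0 < x`
  have hνx : ν * v0 < x := by
    have h1 : v0 / 3 ≤ u * x := by rw [hux]; linarith
    have h2 : u ^ 2 / 2 ≤ Real.exp u := by
      have := Real.quadratic_le_exp_of_nonneg hu0.le
      linarith
    have h3 : ν * Real.exp u = 1 := by rw [hν, ← Real.exp_add]; simp
    have h4 : ν * (u ^ 2 / 2) ≤ 1 := by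
      rw [← h3]
      exact mul_le_mul_of_nonneg_left h2 hν0.le
    -- multiply by x²
    have h5 : ν * ((v0 / 3) ^ 2 / 2) ≤ x ^ 2 := by
      have h6 : (v0 / 3) ^ 2 ≤ (u * x) ^ 2 := pow_le_pow_left₀ (by positivity) h1 2
      have h7 : ν * (u ^ 2 / 2) * x ^ 2 ≤ 1 * x ^ 2 := mul_le_mul_of_nonneg_right h4 (by positivity)
      have h8 : ν * ((v0 / 3) ^ 2 / 2) ≤ ν * ((u * x) ^ 2 / 2) :=
        mul_le_mul_of_nonneg_left (by linarith) hν0.le
      have h9 : ν * ((u * x) ^ 2 / 2) = ν * (u ^ 2 / 2) * x ^ 2 := by ring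
      linarith
    have h10 : ν * v0 * v0 < x * v0 := by nlinarith
    exact lt_of_mul_lt_mul_right h10 hv0.le
  have hν1 : ν ≤ 1 := by
    rw [hν]
    exact Real.exp_le_one_iff.mpr (by linarith)
  have hθ0 : 0 < e * ν := by positivity
  have hθ4 : e * ν ≤ 1 / 4 := by nlinarith
  have h1θ : 0 < 1 - e * ν := by linarith
  have hvpos : 0 < v := hv0.trans hv
  set w := v / ((1 - e * ν) ^ 2 * (1 + ν)) with hw
  have hw0 : v0 < w := by
    rw [hw, lt_div_iff₀ (by positivity)]
    have h1 : (1 - e * ν) ^ 2 ≤ 1 := pow_le_one₀ h1θ.le (by linarith)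
    have h2 : v0 * ((1 - e * ν) ^ 2 * (1 + ν)) ≤ v0 * (1 * (1 + ν)) :=
      mul_le_mul_of_nonneg_left (mul_le_mul_of_nonneg_right h1 (by linarith)) hv0.le
    linarith
  refine num_lim hA hS hV (w := w) (θ := e * ν) (ν := ν) ha hv hw0 hfe hθ0 (by linarith) hν0 hw ?_
    hN hL hLN hτ
  -- the pressure
  have hP : 2 - 3 * e ≤ -g * x := by
    have hp1 := (hp v (v + e * x) hv (by nlinarith) (by nlinarith)).1
    have e1 : v + e * x - v0 = (1 + e) * x := by linarith
    have e2 : v + e * x - v = e * x := by ring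
    have h1 := hg (v + e * x) (by nlinarith)
    rw [e1, e2] at hp1
    rw [e2] at h1
    have h2 : (f v - f (v + e * x)) / (e * x) ≤ -g := by
      rw [div_le_iff₀ (by positivity)]
      linarith
    have h3 := hp1.trans h2
    rw [div_le_iff₀ (by positivity)] at h3
    have h4 : 0 < -g := by
      have h5 : 0 < -g * ((1 + e) * x) := by linarith
      exact (mul_pos_iff_of_pos_right (by positivity)).mp h5
    have h6 : (2 - 3 * e) * (1 + e) ≤ 2 - e := by nlinarith
    have h7 : (2 - 3 * e) * (1 + e) ≤ -g * x * (1 + e) := by linarith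
    exact le_of_mul_le_mul_right h7 (by linarith)
  have hg0 : 0 < -g := by
    have h5 : 0 < -g * x := by linarith
    exact (mul_pos_iff_of_pos_right hx0).mp h5
  set G := -g * v with hG
  have hG0 : 0 < G := by positivity
  have hGx : v0 * (2 - 3 * e) ≤ G * x := by
    have h1 : v0 * (2 - 3 * e) ≤ v0 * (-g * x) := mul_le_mul_of_nonneg_left hP hv0.le
    have h2 : v0 * (-g * x) ≤ v * (-g * x) := mul_le_mul_of_nonneg_right hv.le (by positivity)
    have h3 : v * (-g * x) = G * x := by rw [hG]; ring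
    linarith
  have hfw : (1 + ν) * f v - G * (1 / (1 - e * ν) ^ 2 - (1 + ν)) ≤ (1 + ν) * f w := by
    have h1 := mul_le_mul_of_nonneg_left (hg w hw0) (show 0 ≤ 1 + ν by linarith)
    have h2 : (1 + ν) * (f v + g * (w - v)) =
        (1 + ν) * f v - G * (1 / (1 - e * ν) ^ 2 - (1 + ν)) := by
      rw [hw, hG]
      have : (1 - e * ν) ≠ 0 := h1θ.ne'
      field_simp
      ring
    linarith
  have hsq : 1 / (1 - e * ν) ^ 2 - 1 ≤ 4 * (e * ν) := by
    rw [sub_le_iff_le_add, div_le_iff₀ (by positivity)]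
    set θ := e * ν
    nlinarith [mul_nonneg hθ0.le hθ0.le, mul_nonneg (mul_nonneg hθ0.le hθ0.le) hθ0.le]
  have hlogν : Real.log ((1 + ν) / ν) ≤ Real.log 2 + u := by
    rw [Real.log_div (by positivity) hν0.ne']
    have h1 : Real.log (1 + ν) ≤ Real.log 2 := Real.log_le_log (by positivity) (by linarith)
    have h2 : Real.log ν = -u := by rw [hν, Real.log_exp]
    linarith
  have hlogβ : Real.log (π * (e * ν * a) ^ 2) = Real.log (π * a ^ 2 * e ^ 2) - 2 * u := by
    have e3 : π * (e * ν * a) ^ 2 = π * a ^ 2 * e ^ 2 * ν ^ 2 := by ring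
    rw [e3, Real.log_mul (by positivity) (by positivity), Real.log_pow, hν, Real.log_exp]
    push_cast
    ring
  have hmain : Real.log 2 + u + 1 - (Real.log (π * a ^ 2 * e ^ 2) - 2 * u) - f v -
      G * (1 - 4 * e) < 0 := by
    have h1 : x * (Real.log 2 + u + 1 - (Real.log (π * a ^ 2 * e ^ 2) - 2 * u) - f v -
      G * (1 - 4 * e)) = (x * Cη - x * f v) + 3 * (u * x) - G * x * (1 - 4 * e) := by
      rw [hCη]
      ring
    have h2 : v0 * (2 - 3 * e) * (1 - 4 * e) ≤ G * x * (1 - 4 * e) :=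
      mul_le_mul_of_nonneg_right hGx (by linarith)
    have h3 : v0 * (2 - 11 * e) ≤ v0 * (2 - 3 * e) * (1 - 4 * e) := by
      have : v0 * (2 - 3 * e) * (1 - 4 * e) = v0 * (2 - 11 * e) + v0 * (12 * e ^ 2) := by ring
      have h4 : 0 ≤ v0 * (12 * e ^ 2) := by positivity
      linarith
    have h5 : x * (Real.log 2 + u + 1 - (Real.log (π * a ^ 2 * e ^ 2) - 2 * u) - f v -
      G * (1 - 4 * e)) < x * 0 := by
      rw [h1, hux, mul_zero]
      linarith
    exact lt_of_mul_lt_mul_left h5 hx0.le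
  have h6 : ν * (Real.log ((1 + ν) / ν) + 1 - Real.log (π * (e * ν * a) ^ 2)) ≤
      ν * (Real.log 2 + u + 1 - (Real.log (π * a ^ 2 * e ^ 2) - 2 * u)) := by
    apply mul_le_mul_of_nonneg_left _ hν0.le
    rw [hlogβ]
    linarith
  have h7 : G * (1 / (1 - e * ν) ^ 2 - 1) ≤ G * (4 * (e * ν)) := mul_le_mul_of_nonneg_left hsq hG0.le
  have h8 := mul_neg_of_pos_of_neg hν0 hmain
  nlinarith

end Pool.Agent.H96.CP
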