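import Pool.Agent.H96.CP.Num
import Pool.Agent.H52.CP.Add

/-!
# Project CP3: the number of the disks that can be added simultaneously, final step
-/

set_option autoImplicit false

open Real Set MeasureTheory Metric Filter Topology
open scoped ENNReal Nat ComplexConjugate

namespace Pool.Agent.H96.CP

open Pool.Agent.H96.HD

theorem num_law (hA : S_add) (hS : S_scale) {a c : ℝ} {f : ℝ → ℝ} (ha : 0 < a)
    (hfe : ∀ v : ℝ, 2 * √3 * a ^ 2 < v → IsFreeEnergy a v (f v))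
    (hcvx : ConvexOn ℝ (Ioi (2 * √3 * a ^ 2)) f)
    (hlim : Tendsto (fun v => f v + 2 * Real.log ((v - 2 * √3 * a ^ 2) / a))
      (𝓝[>] (2 * √3 * a ^ 2)) (𝓝 c)) (ε : ℝ) (hε : 0 < ε) :
    ∃ δ : ℝ, 0 < δ ∧ ∀ v : ℝ, 2 * √3 * a ^ 2 < v → v < 2 * √3 * a ^ 2 + δ →
    ∀ (N : ℕ → ℕ) (L : ℕ → ℝ), Tendsto N atTop atTop → Tendsto L atTop atTop →
    Tendsto (fun k => L k ^ 2 / N k) atTop (𝓝 v) →
    Tendsto (fun k => (volume (CC a (L k) (Fin (N k)) ∩ {x | ∀ n : ℕ,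
      ((n : ℝ) ≤ Real.exp (-(4 * √3 * a ^ 2 + ε) / (v - 2 * √3 * a ^ 2)) * N k → Add a (L k) x n) ∧
      (Real.exp (-(4 * √3 * a ^ 2 / 3 - ε) / (v - 2 * √3 * a ^ 2)) * N k ≤ n →
        ¬ Add a (L k) x n)})).toReal /
      (volume (CC a (L k) (Fin (N k)))).toReal) atTop (𝓝 1) := by
  have hR := ratio
  have hV := cvz
  set v0 := 2 * √3 * a ^ 2 with hv0def
  have hv0 : 0 < v0 := by positivity
  set ε' := min ε (v0 / 3) with hε'
  have hε'0 : 0 < ε' := lt_min hε (by positivity)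
  obtain ⟨δ₁, hδ₁, h1⟩ := num_few hA hS hV ha hfe hcvx hlim hε'0
    ((min_le_right _ _).trans (le_of_eq (by rw [hv0def])))
  obtain ⟨δ₂, hδ₂, h2⟩ := holes hR hV f a c ha hfe
    (hcvx.subset Ioo_subset_Ioi_self (convex_Ioo _ _)) hlim (ε / 2) (half_pos hε)
  refine ⟨min (min δ₁ δ₂) (ε / 14), by positivity, ?_⟩
  intro v hv hvδ N L hN hL hLN
  have hx : 0 < v - v0 := by linarith
  have hm1 := min_le_left (min δ₁ δ₂) (ε / 14)
  have hd1 : v < v0 + δ₁ := lt_of_lt_of_le hvδ (by linarith [min_le_left δ₁ δ₂])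
  have hd2 : v < v0 + δ₂ := lt_of_lt_of_le hvδ (by linarith [min_le_right δ₁ δ₂])
  have hd3 : v - v0 < ε / 14 := by linarith [min_le_right (min δ₁ δ₂) (ε / 14)]
  have h1' := h1 v hv hd1 N L hN hL hLN
  have h2' := h2 v hv hd2 N L hN hL hLN
  have hNr : Tendsto (fun k => (N k : ℝ)) atTop atTop := tendsto_natCast_atTop_atTop.comp hN
  refine prob_tendsto (fun k => {x | ∀ n : ℕ,
      ((n : ℝ) ≤ Real.exp (-(4 * √3 * a ^ 2 + ε) / (v - v0)) * N k → Add a (L k) x n) ∧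
      (Real.exp (-(4 * √3 * a ^ 2 / 3 - ε) / (v - v0)) * N k ≤ n → ¬ Add a (L k) x n)}) ?_
  intro τ hτ
  set E1 := Real.exp (-(4 * √3 * a ^ 2 + ε / 2) / (v - v0)) with hE1
  have hE10 : 0 < E1 := Real.exp_pos _
  have hE2 : Real.exp (-(4 * √3 * a ^ 2 + ε) / (v - v0)) * 8 ≤ E1 := by
    have he2 : 7 ≤ ε / 2 / (v - v0) := by
      rw [le_div_iff₀ hx]
      linarith
    have hexp2 : 8 ≤ Real.exp (ε / 2 / (v - v0)) := by
      have := Real.add_one_le_exp (ε / 2 / (v - v0))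
      linarith
    have e : -(4 * √3 * a ^ 2 + ε / 2) / (v - v0) =
        -(4 * √3 * a ^ 2 + ε) / (v - v0) + ε / 2 / (v - v0) := by ring
    rw [hE1, e, Real.exp_add]
    exact mul_le_mul_of_nonneg_left hexp2 (Real.exp_pos _).le
  have hε'' : Real.exp (-(4 * √3 * a ^ 2 / 3 - ε') / (v - v0)) ≤
      Real.exp (-(4 * √3 * a ^ 2 / 3 - ε) / (v - v0)) := by
    apply Real.exp_le_exp.mpr
    apply div_le_div_of_nonneg_right _ hx.le
    linarith [min_le_left ε (v0 / 3)]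
  have hπ : π / 2 ≤ √3 := by
    have h3 : (1.7:ℝ) ≤ √3 := by
      rw [show (1.7:ℝ) = √(1.7 ^ 2) by rw [Real.sqrt_sq (by norm_num)]]
      exact Real.sqrt_le_sqrt (by norm_num)
    have := Real.pi_lt_d2
    linarith
  have hbig : ∀ᶠ k in atTop, v0 * N k ≤ L k ^ 2 := by
    filter_upwards [hLN.eventually_const_lt hv, hNr.eventually_gt_atTop 0] with k h1 h2
    rw [lt_div_iff₀ h2] at h1
    exact h1.le
  filter_upwards [bad_small hR hV cheb ha hv hfe hcvx hN hL hLN (half_pos one_pos) (half_pos hτ),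
    h1' (τ / 2) (half_pos hτ), h2', hL.eventually_gt_atTop 0, hbig] with k hb hf hm hLk hLbig
  obtain ⟨b1, b2, b3⟩ := hb
  obtain ⟨-, s1, -⟩ := hm
  refine ⟨b1, ?_⟩
  set A1 := {x : Fin (N k) → ℂ | x ∈ CC a (L k) (Fin (N k)) ∧
        1 / 2 * (CV a (L k) (N k + 1) / CV a (L k) (N k)) ≤
          |FA a (L k) x - CV a (L k) (N k + 1) / CV a (L k) (N k)|} with hA1
  set A2 := {x : Fin (N k) → ℂ | x ∈ CC a (L k) (Fin (N k)) ∧
      Add a (L k) x ⌈Real.exp (-(4 * √3 * a ^ 2 / 3 - ε') / (v - v0)) * N k⌉₊} with hA2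
  have hfin1 : volume A1 ≠ ⊤ := measure_ne_top_of_subset (fun x hx => hx.1) (CC_fin a (L k) (N k))
  have hfin2 : volume A2 ≠ ⊤ := measure_ne_top_of_subset (fun x hx => hx.1) (CC_fin a (L k) (N k))
  have hsub : CC a (L k) (Fin (N k)) \ {x | ∀ n : ℕ,
      ((n : ℝ) ≤ Real.exp (-(4 * √3 * a ^ 2 + ε) / (v - v0)) * N k → Add a (L k) x n) ∧
      (Real.exp (-(4 * √3 * a ^ 2 / 3 - ε) / (v - v0)) * N k ≤ n → ¬ Add a (L k) x n)} ⊆
      A1 ∪ A2 := by
    rintro x ⟨hx1, hx2⟩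
    by_contra hcon
    rw [mem_union, not_or] at hcon
    obtain ⟨c1, c2⟩ := hcon
    apply hx2
    have c1' : |FA a (L k) x - CV a (L k) (N k + 1) / CV a (L k) (N k)| <
        1 / 2 * (CV a (L k) (N k + 1) / CV a (L k) (N k)) := by
      by_contra h
      exact c1 ⟨hx1, not_lt.mp h⟩
    have c2' : ¬ Add a (L k) x ⌈Real.exp (-(4 * √3 * a ^ 2 / 3 - ε') / (v - v0)) * N k⌉₊ :=
      fun h => c2 ⟨hx1, h⟩
    intro n
    constructor
    · intro hn
      refine greedy ha x n ?_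
      set m := CV a (L k) (N k + 1) / CV a (L k) (N k) with hmdef
      have hL2 : 0 < L k ^ 2 := by positivity
      have hme : CV a (L k) (N k + 1) / (L k ^ 2 * CV a (L k) (N k)) = m / L k ^ 2 := by
        rw [hmdef, div_div, mul_comm (CV a (L k) (N k))]
      rw [hme, le_div_iff₀ hL2] at s1
      obtain ⟨d1, -⟩ := abs_lt.mp c1'
      have hNk : (0:ℝ) ≤ N k := Nat.cast_nonneg _
      have f1 : (n : ℝ) * 8 ≤ E1 * N k := by
        have := mul_le_mul_of_nonneg_right hE2 hNk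
        linarith
      have f2 : (n : ℝ) * (4 * π * a ^ 2) ≤ E1 * N k * (π / 2) * a ^ 2 := by
        have h3 : (n : ℝ) * 8 * (π / 2 * a ^ 2) ≤ E1 * N k * (π / 2 * a ^ 2) :=
          mul_le_mul_of_nonneg_right f1 (by positivity)
        linarith
      have f3 : E1 * N k * (π / 2) * a ^ 2 ≤ E1 * N k * √3 * a ^ 2 := by gcongr
      have f4 : E1 * (v0 * N k) ≤ E1 * L k ^ 2 := mul_le_mul_of_nonneg_left hLbig hE10.le
      have f5 : E1 * (v0 * N k) = 2 * (E1 * N k * √3 * a ^ 2) := by rw [hv0def]; ring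
      linarith
    · intro hn hadd
      apply c2'
      refine hadd.mono (Nat.ceil_le.mpr (le_trans ?_ hn))
      exact mul_le_mul_of_nonneg_right hε'' (Nat.cast_nonneg _)
  calc (volume (CC a (L k) (Fin (N k)) \ _)).toReal ≤ (volume (A1 ∪ A2)).toReal :=
        ENNReal.toReal_mono (measure_union_ne_top hfin1 hfin2) (measure_mono hsub)
    _ ≤ (volume A1 + volume A2).toReal :=
        ENNReal.toReal_mono (ENNReal.add_ne_top.mpr ⟨hfin1, hfin2⟩) (measure_union_le _ _)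
    _ = (volume A1).toReal + (volume A2).toReal := ENNReal.toReal_add hfin1 hfin2
    _ ≤ τ / 2 * CV a (L k) (N k) + τ / 2 * CV a (L k) (N k) := add_le_add b3 hf
    _ = τ * CV a (L k) (N k) := by ring

end Pool.Agent.H96.CP
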