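import Pool.Agent.H96.CP.Stm6
import Pool.Agent.H53.CP.Crys

/-!
# Project CP: disks with a small defect have a nearly regular hexagon of neighbours
-/

set_option autoImplicit false

open Real Set MeasureTheory Metric Filter Topology
open scoped ENNReal Nat ComplexConjugate

namespace Pool.Agent.H96.CP

open Pool.Agent.H96.HD Pool.Agent.H53.CP

theorem w_re : (w).re = 1 / 2 := rfl
theorem w_im : (w).im = √3 / 2 := rfl

theorem w_four : w ^ 4 = -w := by
  have : w ^ 4 = w ^ 3 * w := by ring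
  rw [this, w_three]; ring

theorem w_five : w ^ 5 = 1 - w := by
  have : w ^ 5 = w ^ 3 * w ^ 2 := by ring
  rw [this, w_three, w_two]; ring

/-- one of the six directions is at an angle at most `π/6` -/
theorem sixth (Q : ℂ) : ∃ m : ℕ, m < 6 ∧ √3 / 2 * ‖Q‖ ≤ (Q * conj (w ^ m)).re := by
  have h3 : √3 * √3 = 3 := Real.mul_self_sqrt (by norm_num)
  have h30 : (0:ℝ) < √3 := by positivity
  set a := Q.re with ha
  set b := Q.im with hb
  have hs : ‖Q‖ ^ 2 = a ^ 2 + b ^ 2 := by
    rw [← Complex.normSq_eq_norm_sq, Complex.normSq_apply]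
    ring
  have hs0 : 0 ≤ ‖Q‖ := norm_nonneg _
  have e0 : (Q * conj (w ^ 0)).re = a := by simp [ha]
  have e1 : (Q * conj (w ^ 1)).re = (a + √3 * b) / 2 := by
    rw [pow_one, Complex.mul_re, Complex.conj_re, Complex.conj_im, w_re, w_im]
    ring
  have e2 : (Q * conj (w ^ 2)).re = (-a + √3 * b) / 2 := by
    rw [w_two, Complex.mul_re, Complex.conj_re, Complex.conj_im, Complex.sub_re, Complex.sub_im,
      w_re, w_im, Complex.one_re, Complex.one_im]
    ring
  have e3 : (Q * conj (w ^ 3)).re = -a := by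
    rw [w_three]
    simp [ha]
  have e4 : (Q * conj (w ^ 4)).re = -(a + √3 * b) / 2 := by
    rw [w_four, Complex.mul_re, Complex.conj_re, Complex.conj_im, Complex.neg_re, Complex.neg_im,
      w_re, w_im]
    ring
  have e5 : (Q * conj (w ^ 5)).re = (a - √3 * b) / 2 := by
    rw [w_five, Complex.mul_re, Complex.conj_re, Complex.conj_im, Complex.sub_re, Complex.sub_im,
      w_re, w_im, Complex.one_re, Complex.one_im]
    ring
  have key : ∀ c : ℝ, 0 ≤ c → 3 * (a ^ 2 + b ^ 2) ≤ 4 * c ^ 2 → √3 / 2 * ‖Q‖ ≤ c := by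
    intro c hc h
    refine le_of_sq_le_sq ?_ hc
    have : (√3 / 2 * ‖Q‖) ^ 2 = √3 * √3 / 4 * ‖Q‖ ^ 2 := by ring
    rw [this, h3, hs]
    linarith
  rcases le_total (3 * b ^ 2) (a ^ 2) with h | h
  · rcases le_total 0 a with h0 | h0
    · exact ⟨0, by norm_num, by rw [e0]; exact key a h0 (by nlinarith)⟩
    · exact ⟨3, by norm_num, by rw [e3]; exact key (-a) (by linarith) (by nlinarith)⟩
  · have hab : |a| ≤ √3 * |b| := by
      refine le_of_sq_le_sq ?_ (by positivity)
      have : (√3 * |b|) ^ 2 = √3 * √3 * b ^ 2 := by rw [mul_pow, sq_abs]; ring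
      rw [this, h3, sq_abs]
      exact h
    have hc : 3 * (a ^ 2 + b ^ 2) ≤ 4 * ((|a| + √3 * |b|) / 2) ^ 2 := by
      have e : 4 * ((|a| + √3 * |b|) / 2) ^ 2 = |a| ^ 2 + √3 * √3 * |b| ^ 2 + 2 * |a| * (√3 * |b|) := by
        ring
      rw [e, h3, sq_abs, sq_abs]
      have : |a| * |a| ≤ |a| * (√3 * |b|) := mul_le_mul_of_nonneg_left hab (abs_nonneg a)
      rw [abs_mul_abs_self] at this
      nlinarith
    have hk := key _ (by positivity) hc
    rcases le_total 0 a with h0 | h0 <;> rcases le_total 0 b with h1 | h1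
    · refine ⟨1, by norm_num, ?_⟩
      rwa [e1, ← abs_of_nonneg h0, ← abs_of_nonneg h1]
    · refine ⟨5, by norm_num, ?_⟩
      rw [abs_of_nonneg h0, abs_of_nonpos h1] at hk
      rw [e5]
      linarith
    · refine ⟨2, by norm_num, ?_⟩
      rw [abs_of_nonpos h0, abs_of_nonneg h1] at hk
      rw [e2]
      linarith
    · refine ⟨4, by norm_num, ?_⟩
      rw [abs_of_nonpos h0, abs_of_nonpos h1] at hk
      rw [e4]
      linarith

theorem w_sub_one (d : ℕ) (h1 : 1 ≤ d) (h5 : d ≤ 5) : 1 ≤ ‖w ^ d - 1‖ := by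
  have hw := w_norm
  interval_cases d
  · have : w ^ 1 - 1 = w ^ 2 := by rw [w_two, pow_one]
    rw [this, w_pow_norm]
  · have h : w ^ 2 - 1 = -(2 - w) := by rw [w_two]; ring
    rw [h, norm_neg]
    have h2 := norm_sub_norm_le (2 : ℂ) w
    rw [hw, Complex.norm_two] at h2
    linarith
  · rw [w_three]
    norm_num
  · have h : w ^ 4 - 1 = -(2 - -(w ^ 2)) := by rw [w_four, w_two]; ring
    rw [h, norm_neg]
    have h2 := norm_sub_norm_le (2 : ℂ) (-(w ^ 2))
    rw [norm_neg, w_pow_norm, Complex.norm_two] at h2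
    linarith
  · have h : w ^ 5 - 1 = -w := by rw [w_five]; ring
    rw [h, norm_neg, hw]

theorem w_sep (a b : ℕ) (hab : a < b) (hb : b < 6) : 1 ≤ ‖w ^ b - w ^ a‖ := by
  have h : w ^ b - w ^ a = w ^ a * (w ^ (b - a) - 1) := by
    rw [mul_sub, ← pow_add, Nat.add_sub_cancel' hab.le, mul_one]
  rw [h, norm_mul, w_pow_norm, one_mul]
  exact w_sub_one _ (by omega) (by omega)

theorem reg : S_reg := by
  have hC1 := C1_pos
  have hc0 := c0_pos
  have h3 : √3 * √3 = 3 := Real.mul_self_sqrt (by norm_num)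
  have h30 : (0:ℝ) < √3 := by positivity
  have h31 : (1.73:ℝ) < √3 := by
    rw [Real.lt_sqrt (by norm_num)]
    norm_num
  have h32 : √3 < 1.7321 := by
    rw [Real.sqrt_lt' (by norm_num)]
    norm_num
  refine ⟨max 1 (max (100 * C1) (2 / c0)), le_max_left _ _, fun N L t x i hx hd ht => ?_⟩
  set C := max 1 (max (100 * C1) (2 / c0)) with hC
  have hCa : 100 * C1 ≤ C := (le_max_left _ _).trans (le_max_right _ _)
  have hCb : 2 / c0 ≤ C := (le_max_right _ _).trans (le_max_right _ _)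
  have hCc : 1 ≤ C := le_max_left _ _
  set d := defect x i with hdd
  have hd0 : 0 ≤ d := (stab hx i).1
  have ht0 : 0 ≤ t := le_trans (by positivity) hd
  have hd1 : 100 * C1 * d ≤ t := (mul_le_mul_of_nonneg_right hCa hd0).trans hd
  have hd2 : d < c0 := by
    have h1 : 2 / c0 * d ≤ 1 := (mul_le_mul_of_nonneg_right hCb hd0).trans (hd.trans ht)
    rw [div_mul_eq_mul_div, div_le_one hc0] at h1
    linarith
  have hd3 : 12 * C1 * d < √3 := by nlinarith
  obtain ⟨h6, -⟩ := (stab hx i).2 hd2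
  have hne : (nbr x i).Nonempty := by
    rw [← Finset.card_pos, h6]
    norm_num
  obtain ⟨j₀, hj₀⟩ := hne
  set p := x j₀ - x i with hp
  obtain ⟨hp1, hp2⟩ := nbr_dist hx hd2 i le_rfl hj₀
  have hp0 : 0 < ‖p‖ := by linarith
  have hhex := fun m : ℕ => local_hex hx hd2 hd3 i le_rfl hj₀ m
  choose l hl hlm using hhex
  set z : ℂ := ((√3 / ‖p‖ : ℝ) : ℂ) * p with hz
  have hzn : ‖z‖ = √3 := by
    rw [hz, norm_mul, Complex.norm_real, Real.norm_of_nonneg (by positivity)]
    field_simp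
  have hzp : ‖p - z‖ ≤ 2 * C1 * d := by
    have e : p - z = ((1 - √3 / ‖p‖ : ℝ) : ℂ) * p := by
      rw [hz]
      push_cast
      ring
    have h1 : 0 ≤ 1 - √3 / ‖p‖ := by
      rw [sub_nonneg, div_le_one hp0]
      exact hp1
    rw [e, norm_mul, Complex.norm_real, Real.norm_of_nonneg h1]
    have : (1 - √3 / ‖p‖) * ‖p‖ = ‖p‖ - √3 := by field_simp
    rw [this]
    linarith
  have hfin : ∀ m : ℕ, ‖x (l m) - x i - w ^ m * z‖ ≤ 8 * C1 * d := by
    intro m
    have e : x (l m) - x i - w ^ m * z = (x (l m) - x i - w ^ m * p) + w ^ m * (p - z) := by ring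
    rw [e]
    refine (norm_add_le _ _).trans ?_
    rw [norm_mul, w_pow_norm, one_mul]
    have := hlm m
    linarith
  refine ⟨fun m => l m, z, ?_, hzn, fun m => ?_, fun k hk hkl => ?_⟩
  · -- injective
    have key : ∀ a b : ℕ, a < b → b < 6 → l a ≠ l b := by
      intro a b hab hb hl
      have h1 := hfin a
      have h2 := hfin b
      rw [hl] at h1
      have e : (w ^ b - w ^ a) * z = (x (l b) - x i - w ^ a * z) - (x (l b) - x i - w ^ b * z) := by
        ring
      have h4 : ‖(w ^ b - w ^ a) * z‖ ≤ 16 * C1 * d := by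
        rw [e]
        refine (norm_sub_le _ _).trans ?_
        linarith
      rw [norm_mul, hzn] at h4
      have h5 := w_sep a b hab hb
      nlinarith
    intro a b hab
    rcases lt_trichotomy a b with h | h | h
    · exact absurd hab (key a b h b.2)
    · exact h
    · exact absurd hab.symm (key b a h a.2)
  · have h1 : Complex.exp (m * (π / 3) * Complex.I) = w ^ (m : ℕ) := hdom m
    rw [h1]
    refine (hfin m).trans ?_
    nlinarith
  · by_contra hcon
    push Not at hcon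
    set q := x k - x i with hq
    have hq1 : √3 ≤ ‖q‖ := hx.2 k i hk
    obtain ⟨m, hm6, hm⟩ := sixth (q * conj z)
    have hn : ‖q * conj z‖ = ‖q‖ * √3 := by
      rw [norm_mul, Complex.norm_conj, hzn]
    rw [hn] at hm
    have e1 : ‖q - w ^ m * z‖ ^ 2 = ‖q‖ ^ 2 + 3 - 2 * (q * conj z * conj (w ^ m)).re := by
      have h5 := Complex.sq_norm_sub_sq_re q
      rw [← Complex.normSq_eq_norm_sq, Complex.normSq_sub, Complex.normSq_eq_norm_sq,
        Complex.normSq_eq_norm_sq, norm_mul, w_pow_norm, one_mul, hzn, map_mul,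
        show √3 ^ 2 = 3 by rw [pow_two]; exact h3]
      ring_nf
    have h5 : ‖q - w ^ m * z‖ ^ 2 ≤ ‖q‖ ^ 2 + 3 - 3 * ‖q‖ := by
      rw [e1]
      have : √3 / 2 * (‖q‖ * √3) = 3 / 2 * ‖q‖ := by
        rw [show √3 / 2 * (‖q‖ * √3) = √3 * √3 / 2 * ‖q‖ by ring, h3]
      linarith
    have h6 : ‖q - w ^ m * z‖ ≤ 1.6 := by
      refine le_of_sq_le_sq (h5.trans ?_) (by norm_num)
      nlinarith
    have h7 : √3 ≤ ‖x k - x (l m)‖ := hx.2 k (l m) (hkl ⟨m, hm6⟩)
    have e2 : x k - x (l m) = (q - w ^ m * z) - (x (l m) - x i - w ^ m * z) := by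
      rw [hq]
      ring
    rw [e2] at h7
    have h8 := norm_sub_le (q - w ^ m * z) (x (l m) - x i - w ^ m * z)
    have h9 := hfin m
    have h10 : 8 * C1 * d ≤ 0.08 := by nlinarith
    linarith

end Pool.Agent.H96.CP
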