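import Pool.Agent.H96.CP.Stm9

set_option autoImplicit false

open Real Set MeasureTheory Metric Filter Topology
open scoped ENNReal Nat ComplexConjugate Pointwise

namespace Pool.Agent.H96.CP

theorem scaleB : S_scale := by
  intro a L t M ht
  have h1 : CC (t * a) (t * L) (Fin M) = t • CC a L (Fin M) := by
    ext x
    rw [mem_smul_set_iff_inv_smul_mem₀ ht.ne']
    simp only [CC, mem_ofPred_eq, Pi.smul_apply]
    have hre : ∀ z : ℂ, (t⁻¹ • z).re = t⁻¹ * z.re := fun z => by simp
    have him : ∀ z : ℂ, (t⁻¹ • z).im = t⁻¹ * z.im := fun z => by simp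
    have hn : ∀ i j, ‖t⁻¹ • x i - t⁻¹ • x j‖ = t⁻¹ * ‖x i - x j‖ := fun i j => by
      rw [← smul_sub, norm_smul, Real.norm_of_nonneg (by positivity)]
    simp only [hre, him, hn, mem_Icc]
    have e1 : ∀ r : ℝ, 0 ≤ t⁻¹ * r ↔ 0 ≤ r := fun r => by
      constructor
      · intro h; have := mul_nonneg ht.le h; rwa [mul_inv_cancel_left₀ ht.ne'] at this
      · intro h; positivity
    have e2 : ∀ r : ℝ, t⁻¹ * r ≤ L ↔ r ≤ t * L := fun r => by
      rw [inv_mul_le_iff₀ ht]
    have e3 : ∀ r : ℝ, 2 * a ≤ t⁻¹ * r ↔ 2 * (t * a) ≤ r := fun r => by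
      rw [le_inv_mul_iff₀ ht]
      constructor <;> intro h <;> linarith
    simp only [e1, e2, e3]
  unfold CV
  rw [h1, Measure.addHaar_smul, ENNReal.toReal_mul, ENNReal.toReal_ofReal (abs_nonneg _),
    abs_of_pos (by positivity)]
  congr 2
  rw [Module.finrank_pi_fintype]
  simp [Complex.finrank_real_complex, mul_comm]

end Pool.Agent.H96.CP
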