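import Pool.Agent.H96.CP.Stm8
import Pool.Agent.H96.CP.Holes

/-!
# Project CP3: the area available for a further disk is self-averaging at all densities
-/

set_option autoImplicit false

open Real Set MeasureTheory Metric Filter Topology
open scoped ENNReal Nat ComplexConjugate

namespace Pool.Agent.H96.CP

open Pool.Agent.H96.HD

section
variable {a L : ℝ}

theorem up_gen (hR : S_ratio) (ha : 0 < a) (hL : 0 ≤ L) {t s : ℝ} {N k : ℕ} (hst : s < t)
    (h0 : 0 < CV a L N) (hr : t ≤ CV a L (N + 1) / CV a L N) (hk : k * (4 * π * a ^ 2) ≤ s) :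
    ∀ j ≤ k, 0 < CV a L (N + j) ∧ t - j * (4 * π * a ^ 2) ≤ CV a L (N + j + 1) / CV a L (N + j) ∧
      Real.log (CV a L N) + j * Real.log (t - s) ≤ Real.log (CV a L (N + j)) := by
  have hC : 0 < 4 * π * a ^ 2 := by positivity
  intro j
  induction j with
  | zero => intro _; simpa using ⟨h0, hr⟩
  | succ j ih =>
    intro hj
    obtain ⟨p, q, hl⟩ := ih (by omega)
    have hjk : (j : ℝ) * (4 * π * a ^ 2) ≤ k * (4 * π * a ^ 2) :=
      mul_le_mul_of_nonneg_right (by exact_mod_cast (by omega : j ≤ k)) hC.le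
    have q0 : t - s ≤ CV a L (N + j + 1) / CV a L (N + j) := by linarith
    have q1 : 0 < CV a L (N + j + 1) / CV a L (N + j) := by linarith
    have q2 : 0 < CV a L (N + j + 1) := (div_pos_iff_of_pos_right p).mp q1
    have h := r_step hR ha hL p q2
    have h3 := Real.log_le_log (by linarith) q0
    rw [Real.log_div q2.ne' p.ne'] at h3
    have e : N + (j + 1) + 1 = N + j + 2 := by ring
    have e' : N + (j + 1) = N + j + 1 := by ring
    rw [e, e']
    push_cast
    refine ⟨q2, by linarith, by linarith⟩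

theorem low_gen (hR : S_ratio) (ha : 0 < a) (hL : 0 ≤ L) {t s : ℝ} {N k : ℕ} (hkN : k ≤ N)
    (h0 : 0 < CV a L N) (hr : CV a L (N + 1) / CV a L N ≤ t)
    (hk : k * (4 * π * a ^ 2) ≤ s) :
    ∀ j ≤ k, 0 < CV a L (N - j) ∧ CV a L (N - j + 1) / CV a L (N - j) ≤ t + j * (4 * π * a ^ 2) ∧
      Real.log (CV a L N) ≤ Real.log (CV a L (N - j)) + j * Real.log (t + s) := by
  have hC : 0 < 4 * π * a ^ 2 := by positivity
  intro j
  induction j with
  | zero => intro _; simpa using ⟨h0, hr⟩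
  | succ j ih =>
    intro hj
    obtain ⟨p, q, hl⟩ := ih (by omega)
    obtain ⟨M, hM⟩ : ∃ M, N - j = M + 1 := ⟨N - j - 1, by omega⟩
    have hM' : N - (j + 1) = M := by omega
    rw [hM] at p q hl
    rw [hM']
    have p' := CV_pos_of hR ha hL p
    have h := r_step hR ha hL p' p
    have hjk : ((j : ℝ) + 1) * (4 * π * a ^ 2) ≤ k * (4 * π * a ^ 2) :=
      mul_le_mul_of_nonneg_right (by exact_mod_cast hj) hC.le
    have h2 : CV a L (M + 1) / CV a L M ≤ t + (j + 1) * (4 * π * a ^ 2) := by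
      have e : M + 1 + 1 = M + 2 := by ring
      rw [e] at q
      linarith
    refine ⟨p', by push_cast; exact h2, ?_⟩
    have h3 : CV a L (M + 1) / CV a L M ≤ t + s := by linarith
    have h4 := Real.log_le_log (div_pos p p') h3
    rw [Real.log_div p.ne' p'.ne'] at h4
    push_cast
    linarith

end

/-- The mean available area is at least a fixed part of the box. -/
theorem exists_q (hR : S_ratio) (hV : S_CVZ) {a v : ℝ} {f : ℝ → ℝ} (ha : 0 < a)
    (hv : 2 * √3 * a ^ 2 < v)
    (hfe : ∀ v : ℝ, 2 * √3 * a ^ 2 < v → IsFreeEnergy a v (f v))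
    (hcvx : ConvexOn ℝ (Ioi (2 * √3 * a ^ 2)) f) :
    ∃ q : ℝ, 0 < q ∧ ∀ (N : ℕ → ℕ) (L : ℕ → ℝ), Tendsto N atTop atTop → Tendsto L atTop atTop →
      Tendsto (fun k => L k ^ 2 / N k) atTop (𝓝 v) → ∀ᶠ k in atTop, 0 < CV a (L k) (N k) ∧
        q * L k ^ 2 * CV a (L k) (N k) ≤ CV a (L k) (N k + 1) := by
  have hv0 : 0 < 2 * √3 * a ^ 2 := by positivity
  set v0 := 2 * √3 * a ^ 2 with hv0def
  have hw : 0 < 4 * (v0 + (v + 1)) := by linarith
  set E := f v + v * ((f ((v0 + v) / 2) - f v) / (v - (v0 + v) / 2)) with hE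
  refine ⟨Real.exp (-E - 1) / (4 * (v0 + (v + 1))), by positivity, ?_⟩
  intro N L hN hL hLN
  refine hole_low hR hV ha hfe (hcvx.subset Ioo_subset_Ioi_self (convex_Ioo _ _))
    (d := v + 1) (v' := (v0 + v) / 2) (by linarith) (by linarith) (by linarith) (by positivity) ?_
    hN hL hLN
  rw [mul_div_cancel₀ _ hw.ne', Real.log_exp, ← hE]
  linarith

theorem self (hR : S_ratio) (hV : S_CVZ) : S_self := by
  intro f a v δ ha hv hδ hfe hcvx N L hN hL hLN
  obtain ⟨q, hq, hql⟩ := exists_q hR hV ha hv hfe hcvx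
  have hq1 := hql N L hN hL hLN
  set v0 := 2 * √3 * a ^ 2 with hv0def
  have hv0 : 0 < v0 := by positivity
  have hC : 0 < 4 * π * a ^ 2 := by positivity
  set κ := Real.log (1 + 3 * δ / 4) - Real.log (1 + δ / 4) with hκ
  have hκ0 : 0 < κ := sub_pos.mpr (Real.log_lt_log (by linarith) (by linarith))
  obtain ⟨η, hη0, hη1, hη2, hη3, hη4⟩ : ∃ η : ℝ, 0 < η ∧ η ≤ 1 / 2 ∧ η * 5 ≤ κ ∧
      η * (2 * v0) ≤ v - v0 ∧ η * (4 * (4 * π * a ^ 2)) ≤ δ * v0 * q := by
    refine ⟨min (min (1 / 2) (κ / 5)) (min ((v - v0) / (2 * v0)) (δ * v0 * q / (4 * (4 * π * a ^ 2)))),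
      ?_, ?_, ?_, ?_, ?_⟩
    · exact lt_min (lt_min (by norm_num) (by positivity))
        (lt_min (div_pos (by linarith) (by positivity)) (by positivity))
    · exact (min_le_left _ _).trans (min_le_left _ _)
    · have := (min_le_left (min (1 / 2) (κ / 5))
        (min ((v - v0) / (2 * v0)) (δ * v0 * q / (4 * (4 * π * a ^ 2))))).trans (min_le_right _ _)
      linarith
    · have := (min_le_right (min (1 / 2) (κ / 5))
        (min ((v - v0) / (2 * v0)) (δ * v0 * q / (4 * (4 * π * a ^ 2))))).trans (min_le_left _ _)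
      rwa [le_div_iff₀ (by positivity)] at this
    · have := (min_le_right (min (1 / 2) (κ / 5))
        (min ((v - v0) / (2 * v0)) (δ * v0 * q / (4 * (4 * π * a ^ 2))))).trans (min_le_right _ _)
      rwa [le_div_iff₀ (by positivity)] at this
  have h1η : 0 < 1 - η := by linarith
  have hvpos : 0 < v := hv0.trans hv
  have hv1 : v0 < v / (1 + η) := by
    rw [lt_div_iff₀ (by linarith)]
    nlinarith
  have hv2 : v0 < v / (1 + -η) := by
    have : v ≤ v / (1 + -η) := by
      rw [le_div_iff₀ (by linarith)]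
      nlinarith
    linarith
  have hNr : Tendsto (fun k => (N k : ℝ)) atTop atTop := tendsto_natCast_atTop_atTop.comp hN
  set K : ℕ → ℕ := fun k => ⌊η * N k⌋₊ with hK
  have hKN : Tendsto (fun k => (K k : ℝ) / N k) atTop (𝓝 η) := fl_tendsto hN hη0.le
  have hKle : ∀ k, (K k : ℝ) ≤ η * N k := fun k => Nat.floor_le (by positivity)
  have hKN' : ∀ k, K k ≤ N k := by
    intro k
    have h1 : (K k : ℝ) ≤ N k := (hKle k).trans (by nlinarith [Nat.cast_nonneg (α := ℝ) (N k)])
    exact_mod_cast h1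
  have hNinv : Tendsto (fun k => (1:ℝ) / N k) atTop (𝓝 0) :=
    (tendsto_inv_atTop_zero.comp hNr).congr fun k => by simp
  -- the base N + 1
  have hN1 : Tendsto (fun k => N k + 1) atTop atTop := (tendsto_add_atTop_nat 1).comp hN
  have hN1N : Tendsto (fun k => ((N k + 1 : ℕ) : ℝ) / N k) atTop (𝓝 1) := by
    have h1 := hNinv.const_add 1
    rw [add_zero] at h1
    refine h1.congr' ?_
    filter_upwards [hNr.eventually_gt_atTop 0] with k hk
    push_cast
    field_simp
  have hLN1 : Tendsto (fun k => L k ^ 2 / ((N k + 1 : ℕ) : ℝ)) atTop (𝓝 v) := by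
    have h1 := hLN.div hN1N one_ne_zero
    rw [div_one] at h1
    refine h1.congr' ?_
    filter_upwards [hNr.eventually_gt_atTop 0] with k hk
    simp only [Pi.div_apply]
    field_simp
  have hN'1 : Tendsto (fun k => ((N k + 1 + K k : ℕ) : ℝ) / ((N k + 1 : ℕ) : ℝ)) atTop
      (𝓝 (1 + η)) := by
    have h1 := (hKN.div hN1N one_ne_zero).const_add 1
    rw [div_one] at h1
    refine h1.congr' ?_
    filter_upwards [hNr.eventually_gt_atTop 0] with k hk
    simp only [Pi.div_apply]
    push_cast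
    field_simp
  have hN' : Tendsto (fun k => ((N k - K k : ℕ) : ℝ) / N k) atTop (𝓝 (1 + -η)) := by
    refine (hKN.neg.const_add 1).congr' ?_
    filter_upwards [hNr.eventually_gt_atTop 0] with k hk
    rw [Nat.cast_sub (hKN' k)]
    field_simp
    ring
  obtain ⟨p1, p2, hw1⟩ := window (a := a) (v := v) (s := η) (f := f) (by linarith)
    (hfe v hv) (hfe _ hv1) hN1 hL hLN1 hN'1
  obtain ⟨p3, p4, hw2⟩ := window (a := a) (v := v) (s := -η) (f := f) (by linarith)
    (hfe v hv) (hfe _ hv2) hN hL hLN hN'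
  have hbig : ∀ᶠ k in atTop, v0 * N k ≤ L k ^ 2 := by
    filter_upwards [hLN.eventually_const_lt hv, hNr.eventually_gt_atTop 0] with k h1 h2
    rw [lt_div_iff₀ h2] at h1
    exact h1.le
  have hpos : ∀ᶠ k in atTop, 0 < CV a (L k) (N k) ∧ 0 < CV a (L k) (N k + 1) := by
    filter_upwards [hq1, hL.eventually_gt_atTop 0] with k h1 h2
    refine ⟨h1.1, lt_of_lt_of_le ?_ h1.2⟩
    have := h1.1
    positivity
  by_contra hcon
  have hfr : ∃ᶠ k in atTop,
      (1 + δ) * CV a (L k) (N k + 1) ^ 2 < CV a (L k) (N k + 2) * CV a (L k) (N k) := by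
    intro h
    apply hcon
    filter_upwards [hpos, h] with k h1 h2
    exact ⟨h1.1, h1.2, not_lt.mp h2⟩
  have hfr2 : ∃ᶠ k in atTop, 0 ≤ ((N k + 1 : ℕ) : ℝ) / N k *
        ((Real.log (Z a (L k) (N k + 1 + K k)) - Real.log (Z a (L k) (N k + 1))) /
          ((N k + 1 : ℕ) : ℝ)) +
        (Real.log (Z a (L k) (N k - K k)) - Real.log (Z a (L k) (N k))) / N k -
        (K k : ℝ) / N k * (κ / 10) := by
    refine (hfr.and_eventually (hpos.and (hq1.and (p1.and (p2.and (p3.and (p4.and (hbig.and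
      ((hNr.eventually_ge_atTop 1).and ((hL.eventually_gt_atTop 0).and
        (hNr.eventually_ge_atTop (20 / κ)))))))))))).mono ?_
    rintro k ⟨h1, ⟨h2, h3⟩, ⟨-, h4⟩, z1, z2, z3, z4, h5, h6, h7, h8⟩
    have hNpos : (0:ℝ) < N k := by linarith
    have hKn : (0:ℝ) ≤ K k := Nat.cast_nonneg _
    set r := CV a (L k) (N k + 1) / CV a (L k) (N k) with hr
    have hqr : q * L k ^ 2 ≤ r := by
      rw [hr, le_div_iff₀ h2]
      exact h4
    have hr0 : 0 < r := div_pos h3 h2
    have hr1 : (1 + δ) * r ≤ CV a (L k) (N k + 1 + 1) / CV a (L k) (N k + 1) := by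
      rw [le_div_iff₀ h3, hr, mul_div_assoc', div_mul_eq_mul_div, div_le_iff₀ h2]
      have e : N k + 1 + 1 = N k + 2 := by ring
      rw [e]
      linarith [h1]
    have hk : (K k : ℝ) * (4 * π * a ^ 2) ≤ δ / 4 * r := by
      have e1 : (K k : ℝ) * (4 * π * a ^ 2) ≤ η * N k * (4 * π * a ^ 2) :=
        mul_le_mul_of_nonneg_right (hKle k) hC.le
      have e2 : η * (4 * (4 * π * a ^ 2)) * N k ≤ δ * v0 * q * N k :=
        mul_le_mul_of_nonneg_right hη4 hNpos.le
      have e3 : δ * q * (v0 * N k) ≤ δ * q * L k ^ 2 := mul_le_mul_of_nonneg_left h5 (by positivity)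
      have e4 : δ * (q * L k ^ 2) ≤ δ * r := mul_le_mul_of_nonneg_left hqr hδ.le
      linarith
    obtain ⟨u1, -, u2⟩ := up_gen hR ha h7.le (s := δ / 4 * r) (t := (1 + δ) * r) (by nlinarith) h3
      hr1 hk (K k) le_rfl
    obtain ⟨l1, -, l2⟩ := low_gen hR ha h7.le (s := δ / 4 * r) (t := r) (hKN' k) h2
      le_rfl hk (K k) le_rfl
    have hu : Real.log ((1 + δ) * r - δ / 4 * r) = Real.log (1 + 3 * δ / 4) + Real.log r := by
      rw [← Real.log_mul (by positivity) hr0.ne']
      congr 1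
      ring
    have hl : Real.log (r + δ / 4 * r) = Real.log (1 + δ / 4) + Real.log r := by
      rw [← Real.log_mul (by positivity) hr0.ne']
      congr 1
      ring
    rw [hu] at u2
    rw [hl] at l2
    have hlogCV : ∀ n : ℕ, 0 < Z a (L k) n →
        Real.log (CV a (L k) n) = Real.log (n ! : ℝ) + Real.log (Z a (L k) n) := by
      intro n hn
      rw [hV a _ _ ha, Real.log_mul (by positivity) hn.ne']
    rw [hlogCV _ z1, hlogCV _ z2] at u2
    rw [hlogCV _ z3, hlogCV _ z4] at l2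
    have hNKe : ((N k - K k : ℕ) : ℝ) = (N k : ℝ) - K k := Nat.cast_sub (hKN' k)
    have hNK2 : (N k : ℝ) / 2 ≤ (N k : ℝ) - K k := by
      have := hKle k
      nlinarith
    have hNK : (0:ℝ) < (N k : ℝ) - K k := by linarith
    have hfac1 : Real.log ((N k + 1 + K k)! : ℝ) ≤
        Real.log ((N k + 1)! : ℝ) + K k * Real.log ((N k : ℝ) + 1 + K k) := by
      rw [← Real.log_pow, ← Real.log_mul (by positivity) (by positivity)]
      apply Real.log_le_log (by positivity)
      exact_mod_cast fac_le (N k + 1) (K k)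
    have hfac2 : Real.log ((N k - K k)! : ℝ) + K k * Real.log ((N k : ℝ) - K k) ≤
        Real.log ((N k)! : ℝ) := by
      rw [← hNKe, ← Real.log_pow, ← Real.log_mul (by positivity) (by rw [hNKe]; positivity)]
      apply Real.log_le_log (by rw [hNKe]; positivity)
      have h8 := Nat.factorial_mul_pow_sub_le_factorial (Nat.sub_le (N k) (K k))
      rw [Nat.sub_sub_self (hKN' k)] at h8
      exact_mod_cast h8
    have hlog : Real.log ((N k : ℝ) + 1 + K k) - Real.log ((N k : ℝ) - K k) ≤ κ * (9 / 10) := by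
      rw [← Real.log_div (by positivity) hNK.ne']
      refine (Real.log_le_sub_one_of_pos (by positivity)).trans ?_
      rw [div_sub_one hNK.ne', div_le_iff₀ hNK]
      have e1 : (20:ℝ) ≤ N k * κ := by rwa [div_le_iff₀ hκ0] at h8
      have e2 : κ * (9 / 10) * ((N k : ℝ) / 2) ≤ κ * (9 / 10) * ((N k : ℝ) - K k) :=
        mul_le_mul_of_nonneg_left hNK2 (by positivity)
      have e3 : (K k : ℝ) * 5 ≤ κ * N k := by
        have := hKle k
        nlinarith
      nlinarith
    have hKlog := mul_le_mul_of_nonneg_left hlog hKn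
    have hfin : (K k : ℝ) * (κ / 10) ≤
        (Real.log (Z a (L k) (N k + 1 + K k)) - Real.log (Z a (L k) (N k + 1))) +
        (Real.log (Z a (L k) (N k - K k)) - Real.log (Z a (L k) (N k))) := by
      have hκe : (K k : ℝ) * κ = K k * (Real.log (1 + 3 * δ / 4) - Real.log (1 + δ / 4)) := by
        rw [hκ]
      linarith
    have hN1pos : (0:ℝ) < ((N k + 1 : ℕ) : ℝ) := by positivity
    have e5 : ((N k + 1 : ℕ) : ℝ) / N k *
        ((Real.log (Z a (L k) (N k + 1 + K k)) - Real.log (Z a (L k) (N k + 1))) /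
          ((N k + 1 : ℕ) : ℝ)) =
        (Real.log (Z a (L k) (N k + 1 + K k)) - Real.log (Z a (L k) (N k + 1))) / N k := by
      field_simp
    rw [e5, div_mul_eq_mul_div, ← add_div, ← sub_div]
    exact div_nonneg (by linarith) hNpos.le
  have hlim := ((hN1N.mul hw1).add hw2).sub (hKN.mul_const (κ / 10))
  have hge := ge_of_tendsto_of_frequently hlim hfr2
  have hconv := hcvx.2 (show v / (1 + η) ∈ Ioi v0 from hv1) (show v / (1 + -η) ∈ Ioi v0 from hv2)
    (show 0 ≤ (1 + η) / 2 by linarith) (show 0 ≤ (1 + -η) / 2 by linarith) (by ring)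
  simp only [smul_eq_mul] at hconv
  have hve : (1 + η) / 2 * (v / (1 + η)) + (1 + -η) / 2 * (v / (1 + -η)) = v := by
    have h1 : (1 + η) ≠ 0 := by linarith
    have h2 : (1 + -η) ≠ 0 := by linarith
    field_simp
    ring
  rw [hve] at hconv
  have : 0 < η * (κ / 10) := by positivity
  linarith

end Pool.Agent.H96.CP
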