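import Pool.Agent.H96.CP.Stm2

/-!
# Project CP: `S_sq` from `S_crys` and `S_fix`, preparations
-/

set_option autoImplicit false

open Real Set MeasureTheory Metric Filter Topology
open scoped ENNReal Nat ComplexConjugate

namespace Pool.Agent.H96.CP

open Pool.Agent.H96.HD

/-! ### counting -/

/-- the unit cell of a point -/
noncomputable def cell (z : ℂ) : ℤ × ℤ := (⌊z.re⌋, ⌊z.im⌋)

theorem cell_inj {ι : Type*} {x : ι → ℂ} (hx : Sep x) : Function.Injective fun i => cell (x i) := by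
  intro i j h
  by_contra hne
  have h1 := hx i j hne
  simp only [cell, Prod.mk.injEq] at h
  have a1 := Int.floor_le (x i).re
  have a2 := Int.lt_floor_add_one (x i).re
  have b1 := Int.floor_le (x j).re
  have b2 := Int.lt_floor_add_one (x j).re
  have c1 := Int.floor_le (x i).im
  have c2 := Int.lt_floor_add_one (x i).im
  have d1 := Int.floor_le (x j).im
  have d2 := Int.lt_floor_add_one (x j).im
  rw [h.1] at a1 a2
  rw [h.2] at c1 c2
  have e1 : |(x i - x j).re| < 1 := by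
    rw [Complex.sub_re, abs_lt]
    constructor <;> linarith
  have e2 : |(x i - x j).im| < 1 := by
    rw [Complex.sub_im, abs_lt]
    constructor <;> linarith
  have e3 : ‖x i - x j‖ ^ 2 < 2 := by
    rw [← Complex.normSq_eq_norm_sq, Complex.normSq_apply]
    have := abs_lt.mp e1
    have := abs_lt.mp e2
    nlinarith
  have e4 : (3:ℝ) ≤ ‖x i - x j‖ ^ 2 := by
    have := pow_le_pow_left₀ (Real.sqrt_nonneg 3) h1 2
    rwa [Real.sq_sqrt (by norm_num)] at this
  linarith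

theorem card_le {k : ℕ} {M : ℝ} (hM : 0 ≤ M) {x : Fin k → ℂ} (h : ∀ i, x i ∈ Qd M 0) (hx : Sep x) :
    (k : ℝ) ≤ (M + 1) ^ 2 := by
  have h1 : (Finset.univ : Finset (Fin k)).card ≤
      ((Finset.Icc (0:ℤ) ⌊M⌋) ×ˢ (Finset.Icc (0:ℤ) ⌊M⌋)).card := by
    refine Finset.card_le_card_of_injOn (fun i => cell (x i)) (fun i _ => ?_)
      ((cell_inj hx).injOn)
    obtain ⟨⟨a, b⟩, c, d⟩ := h i
    simp only [Complex.zero_re, Complex.zero_im, zero_add] at a b c d
    simp only [Finset.coe_product, Finset.coe_Icc, mem_prod, cell, mem_Icc]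
    exact ⟨⟨Int.floor_nonneg.mpr a, Int.floor_le_floor b.le⟩, Int.floor_nonneg.mpr c,
      Int.floor_le_floor d.le⟩
  rw [Finset.card_univ, Fintype.card_fin, Finset.card_product, Int.card_Icc] at h1
  have h2 : ((⌊M⌋ + 1 - 0).toNat : ℝ) ≤ M + 1 := by
    have h3 : (0:ℤ) ≤ ⌊M⌋ + 1 - 0 := by
      have := Int.floor_nonneg.mpr hM
      omega
    have h4 : (((⌊M⌋ + 1 - 0).toNat : ℤ) : ℝ) = ((⌊M⌋ + 1 - 0 : ℤ) : ℝ) := by
      rw [Int.toNat_of_nonneg h3]
    rw [Int.cast_natCast] at h4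
    rw [h4]
    push_cast
    linarith [Int.floor_le M]
  calc (k : ℝ) ≤ ((⌊M⌋ + 1 - 0).toNat : ℝ) * ((⌊M⌋ + 1 - 0).toNat : ℝ) := by exact_mod_cast h1
    _ ≤ (M + 1) * (M + 1) := by gcongr
    _ = (M + 1) ^ 2 := by ring

theorem card_few {k : ℕ} {M : ℝ} (hM : 1 ≤ M) {x : Fin k → ℂ} (h : ∀ i, x i ∈ Qd M 0) (hx : Sep x)
    (hf : ¬ ∃ i, x i ∈ inner 8 M) : (k : ℝ) ≤ 80 * M := by
  set F := (Finset.Icc (0:ℤ) 8 ∪ Finset.Icc (⌊M⌋ - 9) ⌊M⌋) with hF
  set I := Finset.Icc (0:ℤ) ⌊M⌋ with hI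
  have h1 : (Finset.univ : Finset (Fin k)).card ≤ ((F ×ˢ I) ∪ (I ×ˢ F)).card := by
    refine Finset.card_le_card_of_injOn (fun i => cell (x i)) (fun i _ => ?_)
      ((cell_inj hx).injOn)
    obtain ⟨⟨a, b⟩, c, d⟩ := h i
    simp only [Complex.zero_re, Complex.zero_im, zero_add] at a b c d
    have hi : ¬ x i ∈ inner 8 M := fun h' => hf ⟨i, h'⟩
    have hA : ∀ t : ℝ, 0 ≤ t → t < M → ⌊t⌋ ∈ I := fun t h0 h1 => by
      rw [hI, Finset.mem_Icc]
      exact ⟨Int.floor_nonneg.mpr h0, Int.floor_le_floor h1.le⟩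
    have hB : ∀ t : ℝ, 0 ≤ t → t < M → t ∉ Icc 8 (M - 8) → ⌊t⌋ ∈ F := fun t h0 h1 h2 => by
      rw [hF, Finset.mem_union, Finset.mem_Icc, Finset.mem_Icc]
      rw [mem_Icc, not_and_or, not_le, not_le] at h2
      rcases h2 with h2 | h2
      · left
        refine ⟨Int.floor_nonneg.mpr h0, ?_⟩
        have h3 : ⌊t⌋ ≤ ⌊(8:ℝ)⌋ := Int.floor_le_floor h2.le
        have h4 : ⌊(8:ℝ)⌋ = 8 := by norm_num
        omega
      · right
        refine ⟨?_, Int.floor_le_floor h1.le⟩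
        have h3 : ⌊M⌋ - 8 ≤ ⌊t⌋ := by
          rw [Int.le_floor]
          push_cast
          linarith [Int.floor_le M]
        omega
    simp only [Finset.coe_union, Finset.coe_product, mem_union, mem_prod, Finset.mem_coe, cell]
    by_cases hr : (x i).re ∈ Icc 8 (M - 8)
    · right
      refine ⟨hA _ a b, hB _ c d fun h' => hi ⟨hr, h'⟩⟩
    · left
      exact ⟨hB _ a b hr, hA _ c d⟩
  have hcF : F.card ≤ 19 := by
    refine (Finset.card_union_le _ _).trans ?_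
    rw [Int.card_Icc, Int.card_Icc]
    omega
  have hcI : (I.card : ℝ) ≤ M + 1 := by
    rw [hI, Int.card_Icc]
    have h3 : (0:ℤ) ≤ ⌊M⌋ + 1 - 0 := by
      have := Int.floor_nonneg.mpr (show 0 ≤ M by linarith)
      omega
    have h4 : (((⌊M⌋ + 1 - 0).toNat : ℤ) : ℝ) = ((⌊M⌋ + 1 - 0 : ℤ) : ℝ) := by
      rw [Int.toNat_of_nonneg h3]
    rw [Int.cast_natCast] at h4
    rw [h4]
    push_cast
    linarith [Int.floor_le M]
  rw [Finset.card_univ, Fintype.card_fin] at h1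
  have h5 : k ≤ 38 * I.card := by
    refine h1.trans ((Finset.card_union_le _ _).trans ?_)
    rw [Finset.card_product, Finset.card_product, mul_comm I.card F.card]
    have h7 : F.card * I.card ≤ 19 * I.card := Nat.mul_le_mul_right _ hcF
    omega
  have h6 : (k : ℝ) ≤ 38 * I.card := by exact_mod_cast h5
  linarith

/-! ### defects -/

theorem dfc_eq {k : ℕ} (inst : DecidableEq (Fin k)) (x : Fin k → ℂ) (i : Fin k) :
    @dfc (Fin k) _ inst x i = defect x i := by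
  have h : inst = instDecidableEqFin k := Subsingleton.elim _ _
  rw [h]
  rfl

theorem mem_Kc {k : ℕ} {M : ℝ} {x : Fin k → ℂ} (h : ∀ i, x i ∈ Qd M 0) (hx : Sep x) :
    x ∈ Kc k M := by
  refine ⟨fun i => ?_, fun i j hij => hx i j hij⟩
  obtain ⟨⟨a, b⟩, c, d⟩ := h i
  simp only [Complex.zero_re, Complex.zero_im, zero_add] at a b c d
  exact ⟨⟨a, b.le⟩, c, d.le⟩

theorem W_nonneg {k : ℕ} {M : ℝ} {x : Fin k → ℂ} (h : ∀ i, x i ∈ Qd M 0) (hx : Sep x) :
    0 ≤ W (Qd M 0) x := by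
  unfold W
  refine Finset.sum_nonneg fun i _ => ?_
  split_ifs
  · rw [dfc_eq]
    exact (stab (mem_Kc h hx) i).1
  · exact le_rfl

theorem le_W {k : ℕ} {M τ : ℝ} {x : Fin k → ℂ} (h : ∀ i, x i ∈ Qd M 0) (hx : Sep x) (i : Fin k)
    (hi : closedBall (x i) 2 ⊆ Qd M 0) (hτ : τ ≤ dfc x i) : τ ≤ W (Qd M 0) x := by
  classical
  unfold W
  refine le_trans ?_ (Finset.single_le_sum (fun j _ => ?_) (Finset.mem_univ i))
  · rw [if_pos hi]
    refine hτ.trans (le_of_eq ?_)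
    rw [dfc_eq, dfc_eq]
  · split_ifs
    · rw [dfc_eq]
      exact (stab (mem_Kc h hx) j).1
    · exact le_rfl

/-! ### rounding -/

theorem norm_exp_sub_exp (θ θ' : ℝ) :
    ‖Complex.exp (θ * Complex.I) - Complex.exp (θ' * Complex.I)‖ ≤ |θ - θ'| := by
  have h1 : Complex.exp (θ * Complex.I) - Complex.exp (θ' * Complex.I) =
      Complex.exp (θ' * Complex.I) * (Complex.exp ((θ - θ' : ℝ) * Complex.I) - 1) := by
    rw [mul_sub, ← Complex.exp_add, mul_one]
    congr 2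
    push_cast
    ring
  rw [h1, norm_mul, Complex.norm_exp_ofReal_mul_I, one_mul, mul_comm ((θ - θ' : ℝ) : ℂ)]
  exact Real.norm_exp_I_mul_ofReal_sub_one_le

theorem norm_lat_sub {z z' : ℂ} {θ θ' : ℝ} {a b : ℤ} :
    ‖lat z θ a b - lat z' θ' a b‖ ≤ ‖z - z'‖ + |θ - θ'| * ‖lat z' θ' a b - z'‖ := by
  have h1 : lat z θ a b - lat z' θ' a b = (z - z') +
      (Complex.exp (θ * Complex.I) - Complex.exp (θ' * Complex.I)) *
        ((√3 : ℝ) * (a + b * om)) := by
    unfold lat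
    ring
  have h2 : ‖lat z' θ' a b - z'‖ = ‖((√3 : ℝ) : ℂ) * (a + b * om)‖ := by
    have : lat z' θ' a b - z' = Complex.exp (θ' * Complex.I) * (((√3 : ℝ) : ℂ) * (a + b * om)) := by
      unfold lat
      ring
    rw [this, norm_mul, Complex.norm_exp_ofReal_mul_I, one_mul]
  rw [h1, h2]
  refine (norm_add_le _ _).trans ?_
  rw [norm_mul]
  gcongr
  exact norm_exp_sub_exp θ θ'

theorem norm_le_of_mem_inner {c M : ℝ} {z : ℂ} (hc : 0 ≤ c) (h : z ∈ inner c M) :
    ‖z‖ ≤ 2 * M := by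
  obtain ⟨⟨a, b⟩, d, e⟩ := h
  have h1 := Complex.norm_le_abs_re_add_abs_im z
  rw [abs_of_nonneg (by linarith), abs_of_nonneg (by linarith)] at h1
  linarith

theorem inner_of_near {c M η : ℝ} {z w : ℂ} (h : z ∈ inner c M) (hzw : ‖z - w‖ ≤ η) :
    w ∈ inner (c - η) M := by
  obtain ⟨⟨a, b⟩, d, e⟩ := h
  have h1 := (Complex.abs_re_le_norm (z - w)).trans hzw
  have h2 := (Complex.abs_im_le_norm (z - w)).trans hzw
  rw [Complex.sub_re, abs_le] at h1
  rw [Complex.sub_im, abs_le] at h2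
  exact ⟨⟨by linarith, by linarith⟩, by linarith, by linarith⟩

theorem abs_sub_round_div {s t : ℝ} (hs : 0 < s) : |t - round (s * t) / s| ≤ 1 / (2 * s) := by
  have h1 := abs_sub_round (s * t)
  have h2 : t - round (s * t) / s = (s * t - round (s * t)) / s := by field_simp
  rw [h2, abs_div, abs_of_pos hs, div_le_div_iff₀ hs (by positivity)]
  nlinarith

/-- Every good configuration is near a lattice from the grid. -/
theorem mem_grid (hcr : S_crys) : ∃ C : ℝ, 1 ≤ C ∧ ∀ (k : ℕ) (s M τ δ : ℝ) (x : Fin k → ℂ),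
    1 ≤ s → 20 ≤ M → 0 ≤ τ → C * M ^ 2 * τ ≤ 1 → 4 * M / s ≤ 1 → C * M ^ 2 * τ + 4 * M / s ≤ δ →
    (∀ i, x i ∈ Qd M 0) → Sep x → (∀ i, closedBall (x i) 2 ⊆ Qd M 0 → dfc x i ≤ τ) →
    (∃ i, x i ∈ inner 8 M) → ∃ p q r : ℤ, |(p : ℝ)| ≤ 3 * M * s ∧ |(q : ℝ)| ≤ 3 * M * s ∧
      |(r : ℝ)| ≤ 3 * M * s ∧ x ∈ Gd ((p / s : ℝ) + (q / s : ℝ) * Complex.I) (r / s) δ M k := by
  obtain ⟨C, hC, H⟩ := hcr
  refine ⟨C, hC, fun k s M τ δ x hs hM hτ h1 h2 h3 hx hsep hd hi => ?_⟩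
  obtain ⟨z₀, θ, hz, hθ, H⟩ := H k M τ x hM hτ h1 hx hsep hd hi
  have hs0 : 0 < s := by linarith
  have hs2 : 1 / (2 * s) ≤ 1 := by
    rw [div_le_one (by positivity)]
    linarith
  have e1 := abs_sub_round_div (t := z₀.re) hs0
  have e2 := abs_sub_round_div (t := z₀.im) hs0
  have e3 := abs_sub_round_div (t := θ) hs0
  have hb : ∀ t B : ℝ, |t| ≤ B → B + 1 ≤ 3 * M → |((round (s * t) : ℤ) : ℝ)| ≤ 3 * M * s := by
    intro t B h4 h5
    have h6 := abs_sub_round (s * t)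
    have h7 : |((round (s * t) : ℤ) : ℝ)| ≤ |s * t| + 1 / 2 := by
      have := abs_sub_abs_le_abs_sub ((round (s * t) : ℤ) : ℝ) (s * t)
      rw [abs_sub_comm] at h6
      linarith
    rw [abs_mul, abs_of_pos hs0] at h7
    nlinarith [abs_nonneg t]
  have hre := Complex.abs_re_le_norm z₀
  have him := Complex.abs_im_le_norm z₀
  have hpi := Real.pi_lt_d2
  refine ⟨round (s * z₀.re), round (s * z₀.im), round (s * θ), hb _ (2 * M) (hre.trans hz) (by linarith),
    hb _ (2 * M) (him.trans hz) (by linarith), hb _ 4 (hθ.trans (by linarith)) (by linarith), hx,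
    hsep, fun a b hab => ?_⟩
  set z' : ℂ := ((round (s * z₀.re) / s : ℝ) : ℂ) + ((round (s * z₀.im) / s : ℝ) : ℂ) * Complex.I
    with hz'
  set θ' : ℝ := round (s * θ) / s with hθ'
  have hzz : ‖z₀ - z'‖ ≤ 1 / s := by
    refine (Complex.norm_le_abs_re_add_abs_im _).trans ?_
    have a1 : (z₀ - z').re = z₀.re - round (s * z₀.re) / s := by
      rw [hz', Complex.sub_re, Complex.add_re, Complex.ofReal_re, Complex.re_ofReal_mul,
        Complex.I_re, mul_zero, add_zero]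
    have a2 : (z₀ - z').im = z₀.im - round (s * z₀.im) / s := by
      rw [hz', Complex.sub_im, Complex.add_im, Complex.ofReal_im, Complex.im_ofReal_mul,
        Complex.I_im, mul_one, zero_add]
    rw [a1, a2]
    have : 1 / s = 1 / (2 * s) + 1 / (2 * s) := by field_simp; norm_num
    rw [this]
    exact add_le_add e1 e2
  have hs1 : 1 / s ≤ 1 := by
    rw [div_le_one hs0]
    exact hs
  have hz'n : ‖z'‖ ≤ 2 * M + 1 := by
    have := norm_sub_norm_le z' z₀
    rw [norm_sub_rev] at this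
    linarith
  have hlz : ‖lat z' θ' a b - z'‖ ≤ 5 * M := by
    have := norm_sub_le (lat z' θ' a b) z'
    have := norm_le_of_mem_inner (by norm_num) hab
    linarith
  have hd1 : ‖lat z₀ θ a b - lat z' θ' a b‖ ≤ 4 * M / s := by
    refine norm_lat_sub.trans ?_
    have h8 : |θ - θ'| * ‖lat z' θ' a b - z'‖ ≤ 1 / (2 * s) * (5 * M) := by gcongr
    have h9 : 1 / s + 1 / (2 * s) * (5 * M) ≤ 4 * M / s := by
      rw [show 1 / s + 1 / (2 * s) * (5 * M) = (1 + 5 / 2 * M) / s by field_simp]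
      gcongr
      linarith
    linarith
  have hin : lat z₀ θ a b ∈ inner 8 M := by
    have := inner_of_near (η := 1) (w := lat z₀ θ a b) hab (by
      rw [norm_sub_rev]
      exact hd1.trans h2)
    norm_num at this
    exact this
  obtain ⟨i, hi⟩ := H a b hin
  refine ⟨i, ?_⟩
  calc ‖x i - lat z' θ' a b‖ = ‖(x i - lat z₀ θ a b) + (lat z₀ θ a b - lat z' θ' a b)‖ := by
        congr 1
        ring
    _ ≤ _ := norm_add_le _ _
    _ ≤ C * M ^ 2 * τ + 4 * M / s := add_le_add hi hd1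
    _ ≤ δ := h3

end Pool.Agent.H96.CP
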