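import Pool.Agent.H96.CP.Sq2

/-!
# Project CP: `S_sq` from `S_crys` and `S_fix`, asymptotics
-/

set_option autoImplicit false

open Real Set MeasureTheory Metric Filter Topology
open scoped ENNReal Nat ComplexConjugate

namespace Pool.Agent.H96.CP

open Pool.Agent.H96.HD

theorem log_pow_le (n : ℕ) {c κ : ℝ} (hc : 0 < c) (hκ : 0 < κ) :
    ∀ᶠ s : ℝ in atTop, κ * Real.log s ^ n ≤ s ^ c := by
  have h := (isLittleO_log_rpow_rpow_atTop (n : ℝ) hc).def (show 0 < 1 / κ by positivity)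
  filter_upwards [h, eventually_ge_atTop (1:ℝ)] with s hs h1
  rw [Real.rpow_natCast, Real.norm_of_nonneg (pow_nonneg (Real.log_nonneg h1) _),
    Real.norm_of_nonneg (by positivity)] at hs
  calc κ * Real.log s ^ n ≤ κ * (1 / κ * s ^ c) := by gcongr
    _ = s ^ c := by field_simp

theorem sq (hcr : S_crys) (hfix : S_fix) : S_sq := by
  intro ε B hε hB
  obtain ⟨C₁, hC₁, H₁⟩ := ZR_split hcr
  obtain ⟨C₂, hC₂, H₂⟩ := hfix
  obtain ⟨δ₀, hδ₀, H₂⟩ := H₂ (ε / 32) (by positivity)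
  have hlog := Real.tendsto_log_atTop
  have hl4 : ∀ᶠ ℓ : ℝ in atTop, 4 * Real.log ℓ ≤ ℓ := by
    have h2 : Tendsto (fun M : ℝ => Real.log M / M) atTop (𝓝 0) :=
      Real.isLittleO_log_id_atTop.tendsto_div_nhds_zero
    filter_upwards [h2.eventually_le_const (show (0:ℝ) < 1 / 4 by positivity),
      eventually_ge_atTop (1:ℝ)] with M h3 h4
    rw [div_le_iff₀ (by linarith)] at h3
    linarith
  set Λ : ℝ := 1000 * (C₂ + B + 1) * (1 + 1 / ε) with hΛ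
  have hr : ∀ c : ℝ, 0 < c → Tendsto (fun s : ℝ => s ^ (-c)) atTop (𝓝 0) := fun c hc =>
    tendsto_rpow_neg_atTop hc
  filter_upwards [hlog.eventually hl4, hlog.eventually_ge_atTop Λ, eventually_ge_atTop (1:ℝ),
    log_pow_le 8 (show (0:ℝ) < 1 / 10 by norm_num) (show 0 < 2 * C₁ by positivity),
    log_pow_le 4 (show (0:ℝ) < 4 / 10 by norm_num) (show (0:ℝ) < 8 by norm_num),
    log_pow_le 2 (show (0:ℝ) < 6 / 10 by norm_num) (show (0:ℝ) < 48 by norm_num),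
    log_pow_le 9 (show (0:ℝ) < 3 / 10 by norm_num) (show (0:ℝ) < 21 by norm_num),
    (hr (6 / 10) (by norm_num)).eventually_le_const hδ₀,
    (hr (2 / 10) (by norm_num)).eventually_le_const hδ₀] with s hl hΛs hs h8 h4 h2 h9 hd1 hd2
  intro β hβ hZ k
  have hs0 : 0 < s := by linarith
  set ℓ := Real.log s with hℓ
  have hε1 : 0 < 1 / ε := by positivity
  have hΛ1 : 1000 ≤ Λ := by
    rw [hΛ]
    nlinarith [mul_nonneg (show 0 ≤ C₂ + B by linarith) hε1.le]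
  have hℓ1 : 1000 ≤ ℓ := hΛ1.trans hΛs
  have hℓ0 : 0 < ℓ := by linarith
  have hΛB : 1000 * (C₂ + B + 1) ≤ Λ := by
    rw [hΛ]
    nlinarith [mul_nonneg (show 0 ≤ C₂ + B + 1 by linarith) hε1.le]
  have hBℓ : B ≤ ℓ := by linarith
  have hCε : 1000 * (C₂ + B + 1) ≤ ε * ℓ := by
    have h1 : 1000 * (C₂ + B + 1) * (1 / ε) ≤ ℓ := by
      refine le_trans ?_ hΛs
      rw [hΛ]
      nlinarith [show 0 ≤ C₂ + B + 1 by linarith]
    calc 1000 * (C₂ + B + 1) = ε * (1000 * (C₂ + B + 1) * (1 / ε)) := by field_simp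
      _ ≤ ε * ℓ := by gcongr
  have hεℓ : 1000 ≤ ε * ℓ := by linarith
  -- the parameters
  set M := MM s with hM
  have hMℓ : M = ℓ ^ 4 := rfl
  set n := nn s with hn
  set τ : ℝ := s ^ (-(7 / 10) : ℝ) with hτ
  set δ : ℝ := s ^ (-(6 / 10) : ℝ) with hδ
  have hℓ2 : 1 ≤ ℓ ^ 2 := one_le_pow₀ (by linarith)
  have hℓ3 : 1 ≤ ℓ ^ 3 := one_le_pow₀ (by linarith)
  have hM1 : 1000 ≤ M := by
    rw [hMℓ]
    nlinarith [hℓ3]
  have hM0 : 0 < M := by linarith
  have hτ0 : 0 < τ := Real.rpow_pos_of_pos hs0 _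
  have hδpos : 0 < δ := Real.rpow_pos_of_pos hs0 _
  have hlM : Real.log M ≤ ℓ := by
    rw [hMℓ, Real.log_pow]
    push_cast
    exact hl
  have hlM0 : 0 ≤ Real.log M := Real.log_nonneg (by linarith)
  have hn1 : ℓ ^ 2 ≤ (n : ℝ) := Nat.le_ceil _
  have hn2 : (n : ℝ) ≤ ℓ ^ 2 + 1 := (Nat.ceil_lt_add_one (by positivity)).le
  have hn3 : (n : ℝ) + 1 ≤ 3 * ℓ ^ 2 := by linarith
  have hnpos : 1 ≤ n := by
    have : (1:ℝ) ≤ n := hℓ2.trans hn1
    exact_mod_cast this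
  -- powers of s
  have p1 : C₁ * M ^ 2 * τ ≤ 1 / 2 * δ := by
    have e : s ^ (1 / 10 : ℝ) * τ = δ := by
      rw [hτ, hδ, ← Real.rpow_add hs0]
      norm_num
    have e2 : C₁ * M ^ 2 * τ = 1 / 2 * (2 * C₁ * ℓ ^ 8 * τ) := by rw [hMℓ]; ring
    rw [e2, ← e]
    gcongr
  have p2 : 4 * M / s ≤ 1 / 2 * δ := by
    have e : s ^ (4 / 10 : ℝ) * s⁻¹ = δ := by
      rw [hδ, ← Real.rpow_neg_one s, ← Real.rpow_add hs0]
      norm_num
    have e2 : 4 * M / s = 1 / 2 * (8 * ℓ ^ 4 * s⁻¹) := by rw [hMℓ]; ring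
    rw [e2, ← e]
    gcongr
  have hδ1 : δ ≤ 1 := Real.rpow_le_one_of_one_le_of_nonpos hs (by norm_num)
  have p3 : s * δ ^ 2 ≤ δ₀ := by
    have e : s * δ ^ 2 = s ^ (-(2 / 10) : ℝ) := by
      rw [hδ, ← Real.rpow_natCast, ← Real.rpow_mul hs0.le]
      nth_rewrite 1 [← Real.rpow_one s]
      rw [← Real.rpow_add hs0]
      norm_num
    rw [e]
    exact hd2
  have p4 : ((n : ℝ) + 1) * δ ≤ 1 / 16 := by
    have e : s ^ (6 / 10 : ℝ) * δ = 1 := by
      rw [hδ, ← Real.rpow_add hs0]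
      norm_num
    have h5 : 3 * ℓ ^ 2 * δ ≤ 1 / 16 := by
      have : 48 * ℓ ^ 2 * δ ≤ 1 := by
        rw [← e]
        gcongr
      linarith
    refine le_trans ?_ h5
    gcongr
  have p5 : 21 * ℓ ^ 9 ≤ s * τ := by
    have e : s * τ = s ^ (3 / 10 : ℝ) := by
      rw [hτ]
      nth_rewrite 1 [← Real.rpow_one s]
      rw [← Real.rpow_add hs0]
      norm_num
    rw [e]
    exact h9
  have hβ2 := abs_le.mp hβ
  have hcost : 2 * Real.log M + 2 * ℓ + B ≤ 5 * ℓ := by linarith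
  have hcost0 : 0 ≤ 2 * Real.log M + 2 * ℓ + B := by linarith
  have hMexp : ∀ j : ℕ, M ^ j = Real.exp (j * Real.log M) := fun j => by
    rw [← Real.log_pow, Real.exp_log (by positivity)]
  -- few disks
  by_cases hk : (k : ℝ) ≤ 80 * M
  · refine (ZR_triv hs0.le hM0.le k).trans (ENNReal.ofReal_le_ofReal ?_)
    rw [hMexp, Real.exp_le_exp]
    push_cast
    have h1 : (k : ℝ) * (2 * Real.log M + 2 * ℓ + B) ≤ 80 * M * (5 * ℓ) := by gcongr
    have h2 : 80 * M * (5 * ℓ) ≤ ε * M ^ 2 := by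
      have : 400 * ℓ ≤ ε * M := by
        rw [hMℓ]
        have : ε * ℓ * 1 ≤ ε * ℓ * ℓ ^ 2 := by gcongr
        have h5 : ε * ℓ ^ 4 = (ε * ℓ) * ℓ ^ 2 * ℓ := by ring
        rw [h5]
        have h6 : 1000 * 1 ≤ (ε * ℓ) * ℓ ^ 2 := by gcongr
        nlinarith
      nlinarith
    have h3 : (k : ℝ) * (-B) ≤ k * β := by
      gcongr
      exact hβ2.1
    nlinarith
  push Not at hk
  -- too many disks
  by_cases hk2 : (M + 1) ^ 2 < k
  · have hem : Ek M k = ∅ := by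
      ext x
      simp only [mem_empty_iff_false, iff_false]
      intro hx
      have := card_le hM0.le hx.1 hx.2
      linarith
    rw [ZR_eq, hem]
    simp
  push Not at hk2
  have hM12 : (M + 1) ^ 2 ≤ 4 * M ^ 2 := by nlinarith
  have hk3 : (k : ℝ) ≤ 4 * M ^ 2 := hk2.trans hM12
  set E : ℝ := k * (β - 2 * ℓ) with hE
  -- the lattices
  have hA : ∀ z₀ θ, (((k ! : ℕ) : ℝ≥0∞))⁻¹ * ∫⁻ x in Gd z₀ θ δ M k,
      ENNReal.ofReal (Real.exp (-(s * W (Qd M 0) x))) ≤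
        ENNReal.ofReal (Real.exp (E + ε / 2 * M ^ 2)) := by
    intro z₀ θ
    rcases (Gd z₀ θ δ M k).eq_empty_or_nonempty with hem | hne
    · rw [hem]
      simp
    obtain ⟨p, hp1, hp2, hp3⟩ := H₂ n k s δ θ M z₀ hnpos hs hδpos hd1 p3 p4 (by linarith) hne
    refine hp3.trans ?_
    have h1 : (ENNReal.ofReal (Real.exp (ε / 32 * (n + 1) ^ 2) * (1 / s) ^ (2 * (n + 1) ^ 2)) *
        Zf n s) ^ p ≤ ENNReal.ofReal (Real.exp (p * (ε / 32 * ((n:ℝ) + 1) ^ 2 -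
          2 * ((n:ℝ) + 1) ^ 2 * ℓ + (n:ℝ) ^ 2 * β))) := by
      have h2 : ENNReal.ofReal (Real.exp (ε / 32 * (n + 1) ^ 2) * (1 / s) ^ (2 * (n + 1) ^ 2)) *
          Zf n s ≤ ENNReal.ofReal (Real.exp (ε / 32 * ((n:ℝ) + 1) ^ 2 -
          2 * ((n:ℝ) + 1) ^ 2 * ℓ + (n:ℝ) ^ 2 * β)) := by
        calc _ ≤ ENNReal.ofReal (Real.exp (ε / 32 * (n + 1) ^ 2) * (1 / s) ^ (2 * (n + 1) ^ 2)) *
              ENNReal.ofReal (Real.exp ((n : ℝ) ^ 2 * β)) := mul_le_mul_right hZ _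
          _ = _ := by
              rw [← ENNReal.ofReal_mul (by positivity)]
              congr 1
              have h3 : (1 / s) ^ (2 * (n + 1) ^ 2) = Real.exp (-(2 * ((n:ℝ) + 1) ^ 2 * ℓ)) := by
                have : 1 / s = Real.exp (-ℓ) := by
                  rw [hℓ, Real.exp_neg, Real.exp_log hs0, one_div]
                rw [this, ← Real.exp_nat_mul]
                congr 1
                push_cast
                ring
              rw [h3, ← Real.exp_add, ← Real.exp_add]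
              congr 1
      calc _ ≤ _ := pow_le_pow_left' h2 p
        _ = _ := by
            rw [← ENNReal.ofReal_pow (Real.exp_pos _).le, ← Real.exp_nat_mul]
    refine (mul_le_mul_right h1 _).trans ?_
    rw [← ENNReal.ofReal_mul (by positivity), hMexp, ← Real.exp_add]
    refine ENNReal.ofReal_le_ofReal (Real.exp_le_exp.mpr ?_)
    have hcast : ((2 * (k - p * (n + 1) ^ 2) : ℕ) : ℝ) =
        2 * ((k : ℝ) - (p * ((n:ℝ) + 1) ^ 2)) := by
      rw [Nat.cast_mul, Nat.cast_sub hp1]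
      push_cast
      ring
    rw [hcast]
    have hp1' : (p : ℝ) * ((n:ℝ) + 1) ^ 2 ≤ k := by exact_mod_cast hp1
    have h5 := expo (ε := ε / 32) (β := β) (B := B) (lM := Real.log M) (ℓ := ℓ) (C := C₂) (M := M)
      hp1' hp2 rfl (Nat.cast_nonneg p) (Nat.cast_nonneg n) hβ hlM0 hℓ0.le
    refine h5.trans ?_
    rw [hE]
    have t1 : C₂ * M * (n + 1) * (2 * Real.log M + 2 * ℓ + B) ≤ ε / 8 * M ^ 2 := by
      calc C₂ * M * (n + 1) * (2 * Real.log M + 2 * ℓ + B) ≤ C₂ * M * (3 * ℓ ^ 2) * (5 * ℓ) := by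
            gcongr
        _ = 15 * C₂ * ℓ ^ 3 * M := by ring
        _ ≤ ε / 8 * (ℓ * ℓ ^ 3) * M := by
            gcongr ?_ * M
            have : 15 * C₂ ≤ ε / 8 * ℓ := by linarith
            calc 15 * C₂ * ℓ ^ 3 ≤ ε / 8 * ℓ * ℓ ^ 3 := by gcongr
              _ = _ := by ring
        _ = ε / 8 * M ^ 2 := by rw [hMℓ]; ring
    have hm4 : (p : ℝ) * ((n:ℝ) + 1) ^ 2 ≤ 4 * M ^ 2 := hp1'.trans hk3
    have t2 : ε / 32 * ((p : ℝ) * ((n:ℝ) + 1) ^ 2) ≤ ε / 8 * M ^ 2 := by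
      have : ε / 32 * ((p : ℝ) * ((n:ℝ) + 1) ^ 2) ≤ ε / 32 * (4 * M ^ 2) := by gcongr
      linarith
    have t3 : 2 * B * ((p : ℝ) * ((n:ℝ) + 1) ^ 2) / (n + 1) ≤ ε / 8 * M ^ 2 := by
      have hn0 : (0:ℝ) < (n:ℝ) + 1 := by positivity
      rw [div_le_iff₀ hn0]
      have h6 : 2 * B * ((p : ℝ) * ((n:ℝ) + 1) ^ 2) ≤ 2 * B * (4 * M ^ 2) := by gcongr
      have h7 : 64 * B ≤ ε * (n + 1) := by
        have : ε * ℓ ≤ ε * (n + 1) := by
          gcongr
          nlinarith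
        linarith
      have h8 : 0 < M ^ 2 := by positivity
      nlinarith
    have t4 : 0 ≤ ε * M ^ 2 := by positivity
    linarith
  have h5 := H₁ k s M τ δ _ hs (by linarith) hτ0.le (by linarith) (by linarith) (by linarith) hk hA
  refine h5.trans ?_
  rw [← ENNReal.ofReal_mul (by positivity), ← ENNReal.ofReal_add (by positivity) (by positivity)]
  refine ENNReal.ofReal_le_ofReal ?_
  have hlog2 : Real.log 2 ≤ 1 := by linarith [Real.log_two_lt_d9]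
  have half : Real.exp (E + ε * M ^ 2) =
      Real.exp (E + ε * M ^ 2 - Real.log 2) + Real.exp (E + ε * M ^ 2 - Real.log 2) := by
    rw [Real.exp_sub, Real.exp_log two_pos]
    ring
  rw [half]
  have hε8 : 1000 * ℓ ≤ ε * M ^ 2 := by
    have h6 : (1:ℝ) ≤ ℓ ^ 7 := one_le_pow₀ (by linarith)
    calc 1000 * ℓ ≤ (ε * ℓ) * ℓ := by gcongr
      _ ≤ (ε * ℓ) * ℓ ^ 7 := by
          gcongr
          calc ℓ = ℓ ^ 1 := (pow_one ℓ).symm
            _ ≤ ℓ ^ 7 := pow_le_pow_right₀ (by linarith) (by norm_num)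
      _ = ε * M ^ 2 := by rw [hMℓ]; ring
  refine add_le_add ?_ ?_
  · rw [hMexp, ← Real.exp_add, Real.exp_le_exp]
    push_cast
    have h6 : (k : ℝ) * (2 * Real.log M + 2 * ℓ + B) ≤ 4 * M ^ 2 * (5 * ℓ) := by gcongr
    have h7 : 4 * M ^ 2 * (5 * ℓ) = 20 * ℓ ^ 9 := by rw [hMℓ]; ring
    have h8 : 1 ≤ ℓ ^ 9 := one_le_pow₀ (by linarith)
    have h10 : (k : ℝ) * (-B) ≤ k * β := by
      gcongr
      exact hβ2.1
    rw [hE]
    nlinarith
  · have h6 : (7 * M * s) ^ 3 = Real.exp (3 * (Real.log 7 + Real.log M + ℓ)) := by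
      rw [← Real.exp_log (show 0 < (7 * M * s) ^ 3 by positivity), Real.log_pow,
        Real.log_mul (by positivity) hs0.ne', Real.log_mul (by norm_num) hM0.ne']
      push_cast
      rfl
    rw [h6, ← Real.exp_add, Real.exp_le_exp]
    have h7 : Real.log 7 ≤ 6 := by
      have := Real.log_le_sub_one_of_pos (show (0:ℝ) < 7 by norm_num)
      linarith
    linarith

end Pool.Agent.H96.CP
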