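import Pool.Agent.H96.CP.Defs

/-!
# Project CP: fixed statements of the modules

THEOREM (goal): there is `c` with `f(v) = - 2 log ((v - v₀) / a²) + c + o(1)` as `v → v₀` for the free
energy per particle `f` of hard disks of radius `a` at area `v` per particle.

Plan. `S_lin`: the partition function of the linear model (free boundary) is at most
`exp (n² (κ - ar + ε))` where `exp (κ R²)` is the volume of the configurations of a block of side `R`
with AFFINE boundary values, `ar` the excess area per site. `S_sq`: upper bound for a square of side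
`(log s)^4` in terms of the linear model. `S_box`: squares to box. `S_low`: lower bound by tiling the
plane with blocks.
-/

set_option autoImplicit false

open Real Set MeasureTheory Metric Filter Topology
open scoped ENNReal Nat ComplexConjugate

namespace Pool.Agent.H96.CP

open Pool.Agent.H96.HD

/-! ## Measure theory -/

/-- values on `ι ≃ (α × β) ⊕ γ` from values on `γ` and on `α × β` -/
def comb {α β γ ι : Type} (e : (α × β) ⊕ γ ≃ ι) (g : γ → ℂ) (w : α → β → ℂ) : ι → ℂ :=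
  fun i => Sum.elim (fun p => w p.1 p.2) g (e.symm i)

/-- Fubini for blocks -/
def S_comb : Prop := ∀ (α β γ ι : Type) [Fintype α] [Fintype β] [Fintype γ] [Fintype ι]
  (e : (α × β) ⊕ γ ≃ ι) (F : (ι → ℂ) → ℝ≥0∞), Measurable F →
  ∫⁻ x, F x = ∫⁻ g : γ → ℂ, ∫⁻ w : α → β → ℂ, F (comb e g w)

/-- Product of integrals over blocks. -/
def S_prod : Prop := ∀ (α β : Type) [Fintype α] [Fintype β] (h : α → (β → ℂ) → ℝ≥0∞),
  (∀ a, Measurable (h a)) → ∫⁻ w : α → β → ℂ, ∏ a, h a (w a) = ∏ a, ∫⁻ y, h a y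

/-- **Prediction lemma.** `p` is a linear predictor: `p x i` only depends on values `x j` with
`rk j < rk i`. Then `x ↦ x - p x` preserves the volume. (As in `HD/Shear.lean`: `p` is nilpotent, so
`det (1 - p) = 1`.) -/
def S_pred : Prop := ∀ (ι : Type) [Fintype ι] (p : (ι → ℂ) →ₗ[ℝ] (ι → ℂ)) (rk : ι → ℕ),
  (∀ i x y, (∀ j, rk j < rk i → x j = y j) → p x i = p y i) →
  ∀ F : (ι → ℂ) → ℝ≥0∞, Measurable F → ∫⁻ x, F (x - p x) = ∫⁻ x, F x

/-! ## Linear model -/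

/-- Log-concavity of the block volume. Proof: `Pool.Agent.H212R2.KLS.PL`
(`Pool.Graph.R_seed8.H212R2.KLS.T1`) with the indicators of `Kb` for two boundary values and weights
`k/(k+1)`, `1/(k+1)`, induction on `T` (`Pos` is convex in `u`, `glue` is affine). -/
def S_mean : Prop := ∀ (m : ℕ) (ι : Type) (T : Finset ι) (b : ι → ℕ → ℕ → ℂ), T.Nonempty →
  ∏ t ∈ T, vb m (b t) ≤ vb m (fun i j => ((T.card : ℂ))⁻¹ * ∑ t ∈ T, b t i j) ^ T.card

/-- Bound of the block volume. Proof: for an interior site put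
`y(i,j) = u(i,j) - u(i-1,j) - u(i,j-1) + u(i-1,j-1)`. `Re y = D0(i-1,j) - D0(i-1,j-1)`,
`Re (conj om * y) = D1(i,j-1) - D1(i-1,j-1)`, so `∑ ‖y‖ ≤ C A(u)`, and `A (m+1) (glue m b w) = A (m+1) b`
for all `w` (the values at interior sites cancel). `w ↦ y` preserves the volume up to a translation
(`S_pred`, rank `i + j`), `∫ exp (-θ ‖y‖ / C) = 2π C²/θ²` (`HD.integral_exp_norm`). -/
def S_block : Prop := ∃ C : ℝ, 1 ≤ C ∧ ∀ (m : ℕ) (b : ℕ → ℕ → ℂ) (θ : ℝ), 0 < θ → θ ≤ 1 →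
  vb m b ≤ ENNReal.ofReal (Real.exp (θ * A (m + 1) b) * (C / θ ^ 2) ^ (m ^ 2))

/-- Grid bound (for one offset). Let `Jv` be the set of the columns `i ≤ s₁`, `i ≡ s₁ mod (m+1)`, and
`i ≥` the right end of the last block, `Jh` the rows likewise, `G = {i ∈ Jv ∨ j ∈ Jh}`: the complement
of `G` in `[0,n]²` is the disjoint union of the interiors of the blocks `t + [0,m+1]²`, `t ∈ Tp`.
Roots: the sites with `i ≤ 1 ∨ j ≤ 1 ∨ i = n ∨ j = n` (at most `8 (n+1)`), there use `‖u‖ ≤ r`. Other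
sites of `G`: if `j ∈ Jh` put `y = u(i,j) - 2u(i-1,j) + u(i-2,j)`, else `y = u(i,j) - 2u(i,j-1) + u(i,j-2)`.
`y` is a combination (bounded coefficients) of the elongations of the edges of the three triangles
above (to the right): `∑ ‖y‖ ≤ C A(u)`. Integrate first over the interiors of the blocks (`S_comb`,
`S_prod`: at most `∏ vb`), then over `G` with `S_pred`. -/
def S_grid : Prop := ∃ C : ℝ, 1 ≤ C ∧ ∀ (n m s₁ s₂ : ℕ) (r θ : ℝ), 1 ≤ m → 2 * (m + 1) ≤ n →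
  s₁ ≤ m → s₂ ≤ m → 1 ≤ r → 0 < θ → θ ≤ 1 →
  ∫⁻ u in U n r, ENNReal.ofReal (Real.exp (-(θ * A n (ext n u)))) /
      ∏ t ∈ Tp n m s₁ s₂, vb m (sh (ext n u) t) ≤
    ENNReal.ofReal ((C * r ^ 2) ^ (8 * (n + 1)) *
      (C / θ ^ 2) ^ (2 * (n + 1) * ((n + 1) / (m + 1) + 2 * m + 4)))

/-- average of the translates by `(d + t₁, d + t₂)`, `t₁, t₂ < k` -/
noncomputable def Um (d k : ℕ) (u : ℕ → ℕ → ℂ) : ℕ → ℕ → ℂ := fun i j =>
  ((k : ℂ) ^ 2)⁻¹ * ∑ t₁ ∈ Finset.range k, ∑ t₂ ∈ Finset.range k, u (d + t₁ + i) (d + t₂ + j)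

/-- Near affinity of averages of translates. Proof: `k² (Um(i+1,j) - Um(i,j)) = W(i,j)` with
`W(i,j) = ∑_{t₂} (u(d+k+i, d+t₂+j) - u(d+i, d+t₂+j))`. `W(i,j+1) - W(i,j)` is the second difference
`X = u(d+k+i,d+k+j) - u(d+k+i,d+j) - u(d+i,d+k+j) + u(d+i,d+j)`; `Re X` is a difference of sums of
`D0` over two rows, `Re (conj om X)` of `D1` over two columns. `W(i+1,j) - W(i,j)`: its real part is a
difference of sums of `D0` over two columns, and because of `u(x+1,y) - u(x,y) = (u(x,y+1) - u(x,y)) -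
(u(x,y+1) - u(x+1,y))` its `Re (conj (om-1) ·)` is `Re (conj (om-1) X)` plus sums of `D2`. -/
def S_affine : Prop := ∃ C : ℝ, 1 ≤ C ∧ ∀ (n R d k : ℕ) (u : ℕ → ℕ → ℂ), 1 ≤ k → 1 ≤ R →
  d + k + R ≤ n → Pos n u → ∀ i j : ℕ, i ≤ R → j ≤ R →
    ‖Um d k u i j - Um d k u 0 0 - i * (Um d k u 1 0 - Um d k u 0 0) -
        j * (Um d k u 0 1 - Um d k u 0 0)‖ ≤
      C * R ^ 2 / k ^ 2 * ∑ x ∈ Finset.range (R + 1), (LS n u (d + x) + LS n u (d + k + x))

/-- The area of the average, and the total of the line sums. -/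
def S_area : Prop :=
  (∀ (n d k : ℕ) (u : ℕ → ℕ → ℂ), 1 ≤ k → d + k + 1 ≤ n → Pos n u →
    PosA (Um d k u 1 0 - Um d k u 0 0) (Um d k u 0 1 - Um d k u 0 0) ∧
    (k : ℝ) ^ 2 * ar (Um d k u 1 0 - Um d k u 0 0) (Um d k u 0 1 - Um d k u 0 0) ≤ A n u) ∧
  (∀ (n : ℕ) (u : ℕ → ℕ → ℂ), Pos n u → (∀ x, x ≤ n → 0 ≤ LS n u x) ∧
    ∑ x ∈ Finset.range (n + 1), LS n u x ≤ 2 * A n u) ∧
  (∀ (n m : ℕ) (u : ℕ → ℕ → ℂ), Pos n u → ∀ T : Finset (ℕ × ℕ),
    (∀ t ∈ T, t.1 + (m + 1) ≤ n ∧ t.2 + (m + 1) ≤ n) →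
    ∑ t ∈ T, A (m + 1) (sh u t) ≤ 4 * (m + 1) ^ 2 * A n u)

/-- **The linear model**: free boundary values are not better than affine boundary values. -/
def S_lin : Prop := ∃ C : ℝ, 1 ≤ C ∧ ∀ ε : ℝ, 0 < ε → ε ≤ 1 → ∃ m n₀ : ℕ, 1 ≤ m ∧
  2 / ((m : ℝ) + 1) * Real.log (16 / ε ^ 2) ≤ ε ∧ ∀ n : ℕ, n₀ ≤ n → ∀ r : ℝ, 1 ≤ r →
  Real.log r ≤ √n → ∃ (c₁ c₂ : ℂ) (κ : ℝ), PosA c₁ c₂ ∧
    ENNReal.ofReal (Real.exp (κ * ((m : ℝ) + 1) ^ 2)) ≤ vb m (aff c₁ c₂) ∧ |κ - ar c₁ c₂| ≤ C ∧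
    Zf n r ≤ ENNReal.ofReal (Real.exp ((n : ℝ) ^ 2 * (κ - ar c₁ c₂ + ε)))

/-! ## Disks: upper bound -/

/-- Crystal labelling of a square with small defects. Proof: with `HD.stability`, `HD.hexagon` (see
`HD.Struct`: `stab`, `exists_rot`) each point with defect `≤ τ` has exactly six near neighbours, at
`om^m z + O(τ)` (`z` one of the neighbours), at distance `√3 + O(τ)`. Start at a point `x i₀` of
`inner 8 M`, `z₁` = difference to one neighbour; the site `(a,b) = m om^k + n om^(k+1)` is reached from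
`0` by `m + n` steps staying within `√3` of the segment (after `j` steps `⌊j m/(m+n)⌋` steps in the
direction `om^k`); after `j` steps the errors of the position and of the six differences are at most
`C j² τ`, `C j τ`. -/
def S_crys : Prop := ∃ C : ℝ, 1 ≤ C ∧ ∀ (k : ℕ) (M τ : ℝ) (x : Fin k → ℂ), 20 ≤ M → 0 ≤ τ →
  C * M ^ 2 * τ ≤ 1 → (∀ i, x i ∈ Qd M 0) → Sep x →
  (∀ i, closedBall (x i) 2 ⊆ Qd M 0 → dfc x i ≤ τ) → (∃ i, x i ∈ inner 8 M) →
  ∃ (z₀ : ℂ) (θ : ℝ), ‖z₀‖ ≤ 2 * M ∧ |θ| ≤ π ∧ ∀ a b : ℤ, lat z₀ θ a b ∈ inner 8 M →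
    ∃ i, ‖x i - lat z₀ θ a b‖ ≤ C * M ^ 2 * τ

/-- the sum of the gaps of all (ordered) pairs at distance less than two -/
noncomputable def Gp {ι : Type*} [Fintype ι] [DecidableEq ι] (y : ι → ℂ) : ℝ :=
  ∑ q, ∑ p ∈ Finset.univ.erase q, if ‖y p - y q‖ < 2 then gap (y p - y q) else 0

/-- Configurations near a lattice parallelogram: reduction to the linear model. Proof: put
`y(q) = lat(q) + e^{iθ} u(q)`, `‖u‖ ≤ δ`. For an edge `ℓ = ‖y p - y q‖ - √3 ≥ 0` satisfies `ℓ ≥ D(u)`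
and `D(u) ≥ - 2 δ²` and `gap ≥ (1 - ε') ℓ / 2` if `ℓ ≤ 2 δ`; both orders of an edge occur in `Gp`, other
pairs have distance at least two. Then shift `u` by `2 δ² (i + j om)` and scale by `s (1 - ε')`. -/
def S_near : Prop := ∀ ε : ℝ, 0 < ε → ∃ δ₀ : ℝ, 0 < δ₀ ∧ ∀ (n : ℕ) (s δ θ : ℝ) (z₀ : ℂ) (a b : ℤ),
  1 ≤ n → 1 ≤ s → 0 < δ → δ ≤ δ₀ → s * δ ^ 2 ≤ δ₀ → (n + 1) * δ ≤ 1 / 16 →
  ∫⁻ y in {y : Fin (n + 1) × Fin (n + 1) → ℂ |
      Sep y ∧ ∀ q, ‖y q - lat z₀ θ (a + (q.1 : ℕ)) (b + (q.2 : ℕ))‖ ≤ δ},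
    ENNReal.ofReal (Real.exp (-(s * Gp y))) ≤
  ENNReal.ofReal (Real.exp (ε * (n + 1) ^ 2) * (1 / s) ^ (2 * (n + 1) ^ 2)) * Zf n s

noncomputable def nn (s : ℝ) : ℕ := ⌈Real.log s ^ 2⌉₊
noncomputable def MM (s : ℝ) : ℝ := Real.log s ^ 4

/-- Upper bound for the square of side `(log s)^4` (from `S_crys`, `S_near`, `S_comb`, `S_prod`). With
`n = (log s)²`, `M = (log s)^4`, `τ = s^(-0.7)`, `δ = s^(-0.6)`. (1) Configurations with a defect `> τ` of
a point whose disk of radius `2` is in the square: weight `≤ exp (-s^0.3)`, negligible. (2) No point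
in `inner 8 M`: at most `C M` points, each costs `O(log s)`. (3) Otherwise `S_crys`; round `z₀`, `θ` to
multiples of `1/s` (at most `s^5` choices). For given rounded `z₀, θ` let `P` be the set of the
`(a₁,a₂) ∈ ℤ²` such that all sites of the parallelogram `(n+1) a + [0,n]²` are mapped by `lat` into
`inner 12 M`. All these sites are occupied (up to `δ`) by different points; choose the injection
`P × [0,n]² → Fin k` (`k!/(k-|P|(n+1)²)!` choices). Every point in `inner (12 + 4(n+1)) M` occupies such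
a site (covering radius `1` of the lattice), hence at most `C M n` points remain, each costs
`O(log s)`. For the points of the parallelograms use `S_near`: the defect of the point `x(p(q))` is at
least the sum of the gaps of its neighbours in the parallelogram (all points at distance less than
two are the six lattice neighbours, because the second shell is occupied too). -/
def S_sq : Prop := ∀ ε B : ℝ, 0 < ε → 0 ≤ B → ∀ᶠ s : ℝ in atTop, ∀ β : ℝ, |β| ≤ B →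
  Zf (nn s) s ≤ ENNReal.ofReal (Real.exp ((nn s : ℝ) ^ 2 * β)) → ∀ k : ℕ,
  ZR s (Qd (MM s) 0) k ≤
    ENNReal.ofReal (Real.exp (k * (β - 2 * Real.log s) + ε * MM s ^ 2))

/-- Two regions: split the points (`W` is superadditive: a point of `Λ₁` whose disk of radius `2` is in
`Λ₁` has no neighbour in `Λ₂`; defects of separated points are nonnegative). -/
def S_conv : Prop := ∀ (s : ℝ) (Λ₁ Λ₂ : Set ℂ), 0 ≤ s → MeasurableSet Λ₁ → MeasurableSet Λ₂ →
  Disjoint Λ₁ Λ₂ → ∀ N : ℕ,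
  ZR s (Λ₁ ∪ Λ₂) N ≤ ∑ p ∈ Finset.HasAntidiagonal.antidiagonal N, ZR s Λ₁ p.1 * ZR s Λ₂ p.2

/-- From the square to the box. Proof: `S_conv`, induction over the `K²` translates of `Qd M 0`
(translation invariance of `ZR`), `ZR s (Qd M z) k = 0` for `k > 4 (M+1)²`; the sum of all defects is at
most `(L+2)² - N v0` (`HD.sum_defect_le'`). -/
def S_box : Prop := ∀ s M β δ : ℝ, 0 ≤ s → 1 ≤ M → 0 ≤ δ →
  (∀ k : ℕ, ZR s (Qd M 0) k ≤ ENNReal.ofReal (Real.exp (k * β + δ))) → ∀ (K N : ℕ) (L : ℝ),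
  0 ≤ L → L < K * M →
  volume (Kc N L) ≤ ENNReal.ofReal ((N ! : ℕ) * Real.exp (s * ((L + 2) ^ 2 - N * v0) + N * β +
    (K : ℝ) ^ 2 * (δ + Real.log (4 * (M + 1) ^ 2 + 1))))

/-! ## Disks: lower bound -/

/-- Lower bound by tiling with blocks. Put `R = m + 1`, `λ = (1 - ε') y / (ar + 3η)`, `c₁' = c₁ + η`,
`c₂' = c₂ + η om`, lattice vectors `B₁ = √3 + λ c₁'`, `B₂ = √3 om + λ c₂'`. Sites `q = (i,j)` with
`i ≡ 0` or `j ≡ 0 mod R`: the disk is anywhere in the disk of radius `λ η / 4` around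
`i B₁ + j B₂`; interior sites of the blocks: position `√3 (i + j om) + λ (affine part of the block corner
+ w(q) + η (local coordinates))` with `w ∈ Kb m (aff c₁ c₂)`. All edges have elongation `≥ λη/2 > 0` in
their directions, so the distances are `≥ √3`; other pairs are farther. Rotate first such that `c₁` is
real (`u ↦ u + iθ q` does not change the elongations). The rows of blocks are then horizontal and the
square of side `L = √((v0+y) N)` contains at least `K` blocks (area of a block: `R² (v0 + λ (ar+3η) +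
O(λ²))`). Volume: `λ^(2 N) exp (κ R²)^K (η²/16)^((2m+1) K)`, and all `N!` labellings. -/
def S_low : Prop := ∀ (m : ℕ) (c₁ c₂ : ℂ) (κ η ε : ℝ), 1 ≤ m → PosA c₁ c₂ → 0 < η → η ≤ 1 → 0 < ε →
  ENNReal.ofReal (Real.exp (κ * ((m : ℝ) + 1) ^ 2)) ≤ vb m (aff c₁ c₂) →
  ∃ y₀ : ℝ, 0 < y₀ ∧ ∀ y : ℝ, 0 < y → y < y₀ → ∀ᶠ K : ℕ in atTop, ∀ N : ℕ, N = K * (m + 1) ^ 2 →
    ENNReal.ofReal ((N ! : ℕ) * Real.exp (N * (2 * Real.log (y / (ar c₁ c₂ + 3 * η)) + κ -
      2 / ((m : ℝ) + 1) * Real.log (16 / η ^ 2) - ε))) ≤ volume (Kc N (√((v0 + y) * N)))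

end Pool.Agent.H96.CP
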