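import Pool.Agent.H96.CP.Stm

/-!
# Project CP: split of `S_sq`; convexity
-/

set_option autoImplicit false

open Real Set MeasureTheory Metric Filter Topology
open scoped ENNReal Nat ComplexConjugate

namespace Pool.Agent.H96.CP

open Pool.Agent.H96.HD

/-- the configurations of `k` disks in the square near the lattice `lat z₀ θ` -/
def Gd (z₀ : ℂ) (θ δ M : ℝ) (k : ℕ) : Set (Fin k → ℂ) :=
  {x | (∀ i, x i ∈ Qd M 0) ∧ Sep x ∧
    ∀ a b : ℤ, lat z₀ θ a b ∈ inner 9 M → ∃ i, ‖x i - lat z₀ θ a b‖ ≤ δ}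

/-- Integral over the configurations near a given lattice (uses `S_near`, `S_comb`, `S_prod`).
Let `P` be the set of the `(a₁,a₂) ∈ ℤ²` such that all sites `((n+1)a₁ + i, (n+1)a₂ + j)`, `i,j ≤ n`, are
mapped by `lat` into `inner 13 M`; `p = |P|`. For `x` in `Gd` these sites are occupied (up to `δ`) by
different points: an injection `P × Fin (n+1) × Fin (n+1) → Fin k` (`k!/(k-p(n+1)²)!` choices). Every point
in `inner (13 + 5(n+1)) M` occupies such a site (covering radius `1` of the lattice, `1 + δ < √3`), so at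
most `C M (n+1)` points remain. The defect of the point at the site `q` of a parallelogram is at least
the sum of the gaps of its neighbours in the parallelogram: by the occupied second shell, all points
at distance less than two are the six lattice neighbours. -/
def S_fix : Prop := ∃ C : ℝ, 1 ≤ C ∧ ∀ ε : ℝ, 0 < ε → ∃ δ₀ : ℝ, 0 < δ₀ ∧
  ∀ (n k : ℕ) (s δ θ M : ℝ) (z₀ : ℂ), 1 ≤ n → 1 ≤ s → 0 < δ → δ ≤ δ₀ → s * δ ^ 2 ≤ δ₀ →
  (n + 1) * δ ≤ 1 / 16 → 30 ≤ M →
  (Gd z₀ θ δ M k).Nonempty → ∃ p : ℕ, p * (n + 1) ^ 2 ≤ k ∧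
    (k : ℝ) ≤ p * ((n : ℝ) + 1) ^ 2 + C * M * (n + 1) ∧
    ((k ! : ℕ) : ℝ≥0∞)⁻¹ * ∫⁻ x in Gd z₀ θ δ M k, ENNReal.ofReal (Real.exp (-(s * W (Qd M 0) x))) ≤
      ENNReal.ofReal (M ^ (2 * (k - p * (n + 1) ^ 2))) *
        (ENNReal.ofReal (Real.exp (ε * (n + 1) ^ 2) * (1 / s) ^ (2 * (n + 1) ^ 2)) * Zf n s) ^ p

/-- Midpoint convexity of the free energy. Proof: `L → ∞`; divide the square into `(2K)²` squares of
side `ℓ + 2a`, use the squares of side `ℓ` in their middles (so that different squares do not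
interact), put `N₁` disks into half of them and `N₂` into the others, `ℓ²/N₁ → v₁`, `ℓ²/N₂ → v₂`,
`N = 2K² (N₁ + N₂)`, all assignments of the labels; first `K → ∞`, then `ℓ → ∞` (diagonal sequence);
`v₁`, `v₂` are per particle, so the weights are `N₁/(N₁+N₂) = v₂/(v₁+v₂)`: free energy per AREA is
concave/convex; take instead as many PARTICLES in both parts: `N₁ = N₂ = n`, squares of sides `ℓ₁`, `ℓ₂`
with `ℓᵢ² = vᵢ n`: vertical strips of widths proportional to `v₁`, `v₂`. -/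
def S_cvx : Prop := ∀ a v₁ v₂ f₁ f₂ f₃ : ℝ, 0 < a → 2 * √3 * a ^ 2 < v₁ → v₁ < v₂ →
  IsFreeEnergy a v₁ f₁ → IsFreeEnergy a v₂ f₂ → IsFreeEnergy a ((v₁ + v₂) / 2) f₃ →
  f₃ ≤ (f₁ + f₂) / 2

end Pool.Agent.H96.CP
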