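import Pool.Agent.H96.CP.Stm4

/-!
# CP: the existence of the free energy (statement)
-/

namespace Pool.Agent.H96.CP

open Pool.Agent.H96.HD

/-- **Existence of the free energy** for every area per disk larger than `v₀ = 2 √3 a²`.

Proof (elementary, with `Pool.Agent.H53.CP.Super`: `z_prod_le`, `z_mono`, `z_translate`). Write
`Λ(ℓ, n) = (1/n) log Z a ℓ n` for pairs with `n ≥ 1`, `Z a ℓ n > 0`, and for `w > v₀`
`G w = sup {Λ(ℓ, n) : (ℓ + 2a)² / n < w}` (the set is nonempty for `w > v₀`: `HD.two_sided` at some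
`x = L²/N - v₀` small with `N` large, or `v₁ ∈ (v₀, w)`, `x = v₁ - v₀`; it is bounded above by
`log (e w)`, since `Z ≤ ℓ^(2n)/n!`).

(A) Let `(ℓ₁, n₁)`, `(ℓ₂, n₂)` be such pairs, `wᵢ = (ℓᵢ + 2a)²/nᵢ`, `0 ≤ t ≤ 1`, and
`t w₁ + (1 - t) w₂ < v`. If `L_k² / N_k → v`, `N_k, L_k → ∞`, then
`liminf (1/N_k) log Z a L_k N_k ≥ t Λ(ℓ₁, n₁) + (1 - t) Λ(ℓ₂, n₂)`, and `Z > 0` eventually: divide
`[0, L]²` into two vertical strips, of widths `α L` and `(1 - α) L` with `α v > t w₁`,
`(1 - α) v > (1 - t) w₂`; in the first strip there is room for `p₁ ≥ t N / n₁` squares of side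
`ℓ₁ + 2a` for large `N` (with `≥ n₁ + n₂ + 2` squares to spare), in the second one for
`p₂ ≥ (1 - t) N / n₂`; put `n₁` disks into the middle square of side `ℓ₁` of `⌊t N / n₁⌋` of them, `n₂`
disks into `⌊(1 - t) N / n₂⌋` of the others, and the remaining `< n₁ + n₂ + 1` disks one by one into
spare squares (`Z a ℓ 1 = ℓ²`). With `(ℓ₁, n₁) = (ℓ₂, n₂)`, `t = 1` this is the simple version.

(B) `limsup (1/N_k) log Z a L_k N_k ≤ G w` for every `w > v`, by the definition of `G`.

(C) `G` is nondecreasing; by (A) and (B) (for some sequence) `t G w₁ + (1 - t) G w₂ ≤ G w` as soon as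
`t w₁ + (1 - t) w₂ < w`. So `g w = inf_{w' > w} G w'` (right limit) is concave and finite on
`(v₀, ∞)`, hence continuous, and `sup_{w < v} G w ≥ sup_{w < v} g w = g v = inf_{w > v} G w`. By (A)
(`t = 1`) and (B) the limit exists and is `g v`; `f = - g v`. (Instead of the continuity of concave
functions use it directly: for `u < v < w` close to `v`, `G` at `v - η` is at least
`t G w + (1 - t) G u` with `t → 1` as `η → 0`, `w → v`.) -/
def S_ex : Prop := ∀ a v : ℝ, 0 < a → 2 * √3 * a ^ 2 < v → ∃ f : ℝ, IsFreeEnergy a v f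

end Pool.Agent.H96.CP
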