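import Pool.Agent.H96.HD.Thermo

/-!
# Project CP3: the probability of holes in the hard-disk crystal near close packing

`CV a L n` = volume of the configurations of `n` labelled hard disks of radius `a` with centres in the
square `[0, L]²`.
-/

set_option autoImplicit false

open Real Set MeasureTheory Metric Filter Topology
open scoped ENNReal Nat ComplexConjugate

namespace Pool.Agent.H96.CP

open Pool.Agent.H96.HD

/-- configurations of hard disks of radius `a` with centres in the square `[0, L]²` -/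
def CC (a L : ℝ) (ι : Type) : Set (ι → ℂ) :=
  {x | (∀ i, (x i).re ∈ Icc 0 L ∧ (x i).im ∈ Icc 0 L) ∧ ∀ i j, i ≠ j → 2 * a ≤ ‖x i - x j‖}

/-- their volume for `n` disks -/
noncomputable def CV (a L : ℝ) (n : ℕ) : ℝ := (volume (CC a L (Fin n))).toReal

/-- Two groups of disks: Fubini-type identity. Proof: `MeasurableEquiv.sumPiEquivProdPi`,
`volume_measurePreserving_sumPiEquivProdPi`, `finSumFinEquiv` and `volume_measurePreserving_piCongrLeft`
(as in `Pool.Agent.H53.CP.vol_card`). -/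
def S_hole : Prop := ∀ (a L : ℝ) (N m : ℕ),
  volume {p : (Fin N → ℂ) × (Fin m → ℂ) | p.1 ∈ CC a L (Fin N) ∧ p.2 ∈ CC a L (Fin m) ∧
    ∀ i j, 2 * a ≤ ‖p.2 j - p.1 i‖} = volume (CC a L (Fin (N + m)))

/-- The complex form of the partition function. Proof: `Complex.measurableEquivPi` /
`Complex.volume_preserving_equiv_pi` componentwise (`volume_preserving_pi`), `Z` is the definition in
`Pool.Agent.H96.HD.Thermo`. -/
def S_CVZ : Prop := ∀ (a L : ℝ) (N : ℕ), 0 < a → CV a L N = (N ! : ℝ) * Z a L N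

/-- Ginibre's inequality: `F x` = area of the set `A x` of the points where a further disk can be added to
`x ∈ CC (Fin N)`. `CV (N+1) = ∫ F`, `CV (N+2) = ∫ (area of {(y,y') ∈ (A x)², ‖y - y'‖ ≥ 2a}) ≥ ∫ (F² - 4πa² F)`
(for each `y` the `y'` with `‖y - y'‖ < 2a` have area at most `4πa²`), and `(∫ F)² ≤ CV N ∫ F²` (Cauchy-Schwarz:
integrate `0 ≤ (F - t)²` with `t = ∫ F / CV N`, or `2 t F ≤ F² + t²`). Use `S_hole` with `m = 1, 2` or directly
`MeasurableEquiv.piFinSuccAbove`. All the volumes are finite (`≤ (L²)^n`). -/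
def S_ratio : Prop := ∀ (a L : ℝ) (N : ℕ), 0 < a → 0 ≤ L →
  CV a L (N + 1) ^ 2 ≤ CV a L N * (CV a L (N + 2) + 4 * π * a ^ 2 * CV a L (N + 1))

/-- Final step (helper96). `r j = CV (j+1) / CV j` satisfies `r (j+1) ≥ r j - 4πa²`. -/
def S_holes : Prop := ∀ (f : ℝ → ℝ) (a c : ℝ), 0 < a →
  (∀ v : ℝ, 2 * √3 * a ^ 2 < v → IsFreeEnergy a v (f v)) →
  ConvexOn ℝ (Ioo (2 * √3 * a ^ 2) (2 * √3 * a ^ 2 + a ^ 2)) f →
  Tendsto (fun v => f v + 2 * Real.log ((v - 2 * √3 * a ^ 2) / a)) (𝓝[>] (2 * √3 * a ^ 2)) (𝓝 c) →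
  ∀ ε : ℝ, 0 < ε → ∃ δ : ℝ, 0 < δ ∧ ∀ v : ℝ, 2 * √3 * a ^ 2 < v → v < 2 * √3 * a ^ 2 + δ →
    ∀ (N : ℕ → ℕ) (L : ℕ → ℝ), Tendsto N atTop atTop → Tendsto L atTop atTop →
    Tendsto (fun k => L k ^ 2 / N k) atTop (𝓝 v) → ∀ᶠ k in atTop,
      0 < CV a (L k) (N k) ∧
      Real.exp (-(4 * √3 * a ^ 2 + ε) / (v - 2 * √3 * a ^ 2)) ≤
        CV a (L k) (N k + 1) / (L k ^ 2 * CV a (L k) (N k)) ∧
      CV a (L k) (N k + 1) / (L k ^ 2 * CV a (L k) (N k)) ≤
        Real.exp (-(4 * √3 * a ^ 2 - ε) / (v - 2 * √3 * a ^ 2))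

end Pool.Agent.H96.CP
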