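import Pool.Agent.H61.CP.Ratio

/-!
# Project CP3: the number of further disks that can be added simultaneously
-/

set_option autoImplicit false

open Real Set MeasureTheory Metric Filter Topology
open scoped ENNReal Nat ComplexConjugate

namespace Pool.Agent.H96.CP

/-- `n` further disks can be added simultaneously -/
def Add (a L : ℝ) {N : ℕ} (x : Fin N → ℂ) (n : ℕ) : Prop :=
  ∃ y : Fin n → ℂ, y ∈ CC a L (Fin n) ∧ ∀ i j, 2 * a ≤ ‖y j - x i‖

/-- Proof. Let `c = s + s i`, `x' = x + c` (all coordinates), `B j = ball (y j + c) s` (pairwise disjoint, as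
`‖y j - y l‖ ≥ 2a ≥ 2s`). If `z j ∈ B (σ j)` for a permutation `σ`, then `z ∈ CC (a-s) (L+2s) (Fin n)` and
`2(a-s) ≤ 2a-s ≤ ‖z j - x' i‖`. The union over `σ` of the boxes `∏ B (σ j)` is disjoint, so it has the volume
`n! (π s²)^n` (`measure_iUnion`, `volume_pi_pi`, `Complex.volume_ball`). So the fibre over `x'` has at least this
volume: `n! (π s²)^n ≤ volume (Prod.mk x' ⁻¹' TT (a-s) (L+2s) N n)`. Now `fub (a-s) (L+2s) N n`
(`H61/CP/Ratio.lean`), `mul_meas_ge_le_lintegral` for the measurable function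
`x' ↦ volume (Prod.mk x' ⁻¹' TT ..)` on `CC (a-s) (L+2s) (Fin N)`, and translation invariance
(`measure_preimage_add_right`). -/
def S_add : Prop := ∀ (a L s : ℝ) (N n : ℕ), 0 < s → s < a → 0 ≤ L →
  (volume {x : Fin N → ℂ | x ∈ CC a L (Fin N) ∧ Add a L x n}).toReal * ((n ! : ℝ) * (π * s ^ 2) ^ n) ≤
    CV (a - s) (L + 2 * s) (N + n)

/-- Scaling: `x ↦ t x` maps `CC a L` onto `CC (t a) (t L)` (`Measure.addHaar_smul` / `addHaar_preimage_smul`,
`finrank ℝ (Fin M → ℂ) = 2 M`). -/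
def S_scale : Prop := ∀ (a L t : ℝ) (M : ℕ), 0 < t → CV (t * a) (t * L) M = t ^ (2 * M) * CV a L M

end Pool.Agent.H96.CP
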